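import Mathlib
import Pool.Graph.R_seed8.H977R3.CM.Aut

/-!
# The numbers fixed by all the automorphisms of the complex numbers, descent to a number field
-/

set_option autoImplicit false

open NumberField

namespace Pool.Agent.H508.D

open Pool.Agent.H977R3.CM (exists_aut)

/-- automorphisms of a ring of polynomials extend to the complex numbers -/
lemma exists_aut_poly {R : Type} [CommRing R] [IsDomain R] (j : R →+* ℂ)
    (hj : Function.Injective j) (g : R ≃+* R) : ∃ σ : ℂ ≃+* ℂ, ∀ x, σ (j x) = j (g x) := by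
  let jF : FractionRing R →+* ℂ := IsFractionRing.lift hj
  let gF : FractionRing R ≃+* FractionRing R := IsFractionRing.ringEquivOfRingEquiv g
  obtain ⟨σ, hσ⟩ := Pool.Agent.H977R3.CM.exists_aut jF gF
  refine ⟨σ, fun x => ?_⟩
  have h1 : ∀ y : R, jF (algebraMap R (FractionRing R) y) = j y := fun y =>
    IsFractionRing.lift_algebraMap hj y
  rw [← h1, hσ, ← h1 (g x)]
  congr 1
  exact IsFractionRing.ringEquivOfRingEquiv_algebraMap g x

/-- a number fixed by all the automorphisms of the complex numbers is rational -/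
theorem fixed_rat {x : ℂ} (hx : ∀ σ : ℂ ≃+* ℂ, σ x = x) : ∃ q : ℚ, (q : ℂ) = x := by
  by_cases hal : IsAlgebraic ℚ x
  · let K₀ : IntermediateField ℚ ℂ := IntermediateField.adjoin ℚ {x}
    have f0 : FiniteDimensional ℚ K₀ := IntermediateField.adjoin.finiteDimensional hal.isIntegral
    let 𝔽 : IntermediateField ℚ ℂ := IntermediateField.normalClosure ℚ K₀ ℂ
    have hle : K₀ ≤ 𝔽 := IntermediateField.le_normalClosure K₀
    have hnc : IsNormalClosure ℚ K₀ 𝔽 := Algebra.IsAlgebraic.isNormalClosure_normalClosure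
      fun x => IsAlgClosed.splits _
    have hn : Normal ℚ 𝔽 := IsNormalClosure.normal (K := K₀)
    have hfd : FiniteDimensional ℚ 𝔽 := inferInstance
    have hnf : NumberField 𝔽 := ⟨⟩
    have hgal : IsGalois ℚ 𝔽 := ⟨⟩
    have hxF : x ∈ 𝔽 := hle (IntermediateField.mem_adjoin_simple_self ℚ x)
    obtain ⟨q, hq⟩ := (IsGalois.mem_bot_iff_fixed (F := ℚ) (E := 𝔽) ⟨x, hxF⟩).2 fun g => by
      obtain ⟨σ, hσ⟩ := Pool.Agent.H977R3.CM.exists_aut (algebraMap 𝔽 ℂ) g.toRingEquiv
      apply (algebraMap 𝔽 ℂ).injective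
      have h1 := hσ ⟨x, hxF⟩
      have h2 : (algebraMap 𝔽 ℂ) ⟨x, hxF⟩ = x := rfl
      rw [h2, hx σ] at h1
      exact h1.symm
    refine ⟨q, ?_⟩
    have h1 := congrArg (algebraMap 𝔽 ℂ) hq
    exact h1
  · exfalso
    have htr : Transcendental ℚ x := hal
    let j : Polynomial ℚ →+* ℂ := (Polynomial.aeval x : Polynomial ℚ →ₐ[ℚ] ℂ)
    have hj : Function.Injective j := transcendental_iff_injective.1 htr
    obtain ⟨σ, hσ⟩ := exists_aut_poly j hj (Polynomial.algEquivAevalXAddC (1 : ℚ)).toRingEquiv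
    have h1 := hσ Polynomial.X
    have h2 : j Polynomial.X = x := Polynomial.aeval_X x
    have h3 : (Polynomial.algEquivAevalXAddC (1 : ℚ)).toRingEquiv Polynomial.X =
        Polynomial.X + Polynomial.C 1 := by
      show Polynomial.algEquivAevalXAddC (1 : ℚ) Polynomial.X = _
      rw [Polynomial.algEquivAevalXAddC_apply, Polynomial.aeval_X]
    rw [h3, h2, hx σ] at h1
    have h4 : j (Polynomial.X + Polynomial.C 1) = x + 1 := by
      rw [map_add, h2, map_one, map_one]
    rw [h4] at h1
    have : (0 : ℂ) = 1 := by linear_combination h1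
    exact zero_ne_one this

/-- **Descent**: an equivariant family of complex numbers comes from the number field. -/
theorem descent {T : Type} [Field T] [NumberField T] {z : (T →+* ℂ) → ℂ}
    (h : ∀ (σ : ℂ ≃+* ℂ) (τ : T →+* ℂ), z ((σ : ℂ →+* ℂ).comp τ) = σ (z τ)) :
    ∃ l : T, ∀ τ, z τ = τ l := by
  classical
  -- the functional
  have hq : ∀ x : T, ∃ q : ℚ, (q : ℂ) = ∑ τ : T →+* ℂ, τ x * z τ := fun x => by
    apply fixed_rat
    intro σ
    rw [map_sum]
    let e : (T →+* ℂ) ≃ (T →+* ℂ) :=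
      { toFun := fun τ => (σ : ℂ →+* ℂ).comp τ
        invFun := fun τ => (σ.symm : ℂ →+* ℂ).comp τ
        left_inv := fun τ => RingHom.ext fun x => σ.symm_apply_apply _
        right_inv := fun τ => RingHom.ext fun x => σ.apply_symm_apply _ }
    rw [← e.sum_comp fun τ => τ x * z τ]
    refine Finset.sum_congr rfl fun τ _ => ?_
    rw [map_mul, ← h]
    rfl
  choose q hq using hq
  let φ : T →ₗ[ℚ] ℚ :=
    { toFun := q
      map_add' := fun x y => by
        apply Rat.cast_injective (α := ℂ)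
        rw [Rat.cast_add, hq, hq, hq, ← Finset.sum_add_distrib]
        exact Finset.sum_congr rfl fun τ _ => by rw [map_add, add_mul]
      map_smul' := fun c x => by
        apply Rat.cast_injective (α := ℂ)
        rw [RingHom.id_apply, smul_eq_mul, Rat.cast_mul, hq, hq, Finset.mul_sum]
        refine Finset.sum_congr rfl fun τ _ => ?_
        rw [Algebra.smul_def, map_mul, eq_ratCast, map_ratCast, mul_assoc] }
  obtain ⟨l, hl⟩ : ∃ l : T, ∀ x, Algebra.trace ℚ T (l * x) = φ x := by
    have hnd := traceForm_nondegenerate ℚ T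
    refine ⟨((Algebra.traceForm ℚ T).toDual hnd).symm φ, fun x => ?_⟩
    have h1 := LinearMap.BilinForm.apply_toDual_symm_apply (hB := hnd) φ x
    rw [Algebra.traceForm_apply] at h1
    exact h1
  refine ⟨l, fun τ₀ => ?_⟩
  have h1 : ∀ x : T, ∑ τ : T →+* ℂ, (z τ - τ l) * τ x = 0 := fun x => by
    have h2 := hq x
    have h3 := hl x
    have h4 : algebraMap ℚ ℂ (Algebra.trace ℚ T (l * x)) = ∑ τ : T →+* ℂ, τ (l * x) := by
      rw [trace_eq_sum_embeddings ℂ]
      exact Fintype.sum_equiv (RingHom.equivRatAlgHom (R := T) (S := ℂ)).symm _ _ fun τ => rfl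
    rw [h3] at h4
    have h5 : algebraMap ℚ ℂ (φ x) = (q x : ℂ) := rfl
    rw [h5, h2] at h4
    have h6 : ∑ τ : T →+* ℂ, (z τ - τ l) * τ x =
        ∑ τ : T →+* ℂ, τ x * z τ - ∑ τ : T →+* ℂ, τ (l * x) := by
      rw [← Finset.sum_sub_distrib]
      exact Finset.sum_congr rfl fun τ _ => by rw [map_mul]; ring
    rw [h6, h4, sub_self]
  have hli := linearIndependent_monoidHom T ℂ
  have hli2 : LinearIndependent ℂ (fun τ : T →+* ℂ => (fun x : T => τ x)) := by
    have h2 := hli.comp (fun τ : T →+* ℂ => (τ : T →* ℂ)) (fun a b hab => by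
      ext x
      exact congrArg (fun f : T →* ℂ => f x) hab)
    exact h2
  rw [Fintype.linearIndependent_iff] at hli2
  have h7 := hli2 (fun τ => z τ - τ l) (by
    funext x
    rw [Finset.sum_apply]
    exact h1 x) τ₀
  exact sub_eq_zero.1 h7

end Pool.Agent.H508.D
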