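import Pool.Agent.H508.D.Z1
import Pool.Agent.H508.D.Z2

/-!
# Representations over a number field, all the automorphisms
-/

set_option autoImplicit false
set_option linter.unusedSectionVars false
set_option linter.style.haveILetI false

open Complex NumberField IsDedekindDomain

namespace Pool.Agent.H508.D

open Pool.Agent.K7.H70.EQ (HH)
open Pool.Agent.K7.H70.SE (GoodG und0_tower exists_above ps rt)
open Pool.Agent.Y696 (nK und0 card_nm)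
open Pool.Agent.Y688 (RR wR w HL mem_RR conj_w wR_coe)
open Pool.Agent.K7.H70.AW
open Pool.Agent.K7.H70.TW (Fam)
open scoped Classical

section rp
variable {G T : Type} [Group G] [Field T] {d : ℕ}

/-- the complex representation -/
noncomputable def rp (ρ : G →* Matrix (Fin d) (Fin d) T) (τ : T →+* ℂ) :
    Representation ℂ G (Fin d → ℂ) :=
  ((Matrix.toLinAlgEquiv' : Matrix (Fin d) (Fin d) ℂ ≃ₐ[ℂ] _) :
    Matrix (Fin d) (Fin d) ℂ →* ((Fin d → ℂ) →ₗ[ℂ] (Fin d → ℂ))).comp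
    (((τ.mapMatrix : Matrix (Fin d) (Fin d) T →+* Matrix (Fin d) (Fin d) ℂ) :
      Matrix (Fin d) (Fin d) T →* Matrix (Fin d) (Fin d) ℂ).comp ρ)

lemma rp_apply (ρ : G →* Matrix (Fin d) (Fin d) T) (τ : T →+* ℂ) (g : G) :
    rp ρ τ g = Matrix.toLin' ((ρ g).map τ) := rfl

lemma rp_trace (ρ : G →* Matrix (Fin d) (Fin d) T) (τ : T →+* ℂ) (g : G) :
    LinearMap.trace ℂ (Fin d → ℂ) (rp ρ τ g) = τ (ρ g).trace := by
  rw [rp_apply, Matrix.trace_toLin'_eq]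
  exact (AddMonoidHom.map_trace τ.toAddMonoidHom (ρ g)).symm

lemma rp_det (ρ : G →* Matrix (Fin d) (Fin d) T) (τ : T →+* ℂ) (g : G) :
    LinearMap.det (rp ρ τ g) = τ (ρ g).det := by
  rw [rp_apply, LinearMap.det_toLin']
  exact (τ.map_det (ρ g)).symm

end rp

section
variable {F L : Type} [Field F] [NumberField F] [IsGalois ℚ F] [Field L] [NumberField L]
  [Algebra F L]

lemma ps_conj (hQ : GoodG ℚ) (v : HeightOneSpectrum (𝓞 ℚ)) (j : ℕ) :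
    (starRingEnd ℂ) (ps hQ v j) = ps hQ v j := by
  unfold ps
  rw [map_add, map_pow, map_pow, Complex.conj_conj, add_comm]

/-- the value at one -/
noncomputable def yy {T : Type} [Field T] {d : ℕ} (hQ : GoodG ℚ)
    (wf : HeightOneSpectrum (𝓞 ℚ) → HeightOneSpectrum (𝓞 F))
    (ρ : Gal(F/ℚ) →* Matrix (Fin d) (Fin d) T) (τ : T →+* ℂ) : ℂ :=
  vv (LL ℚ (ps hQ) wf (fun g => LinearMap.trace ℂ (Fin d → ℂ) (rp ρ τ g⁻¹)))

variable {wf : HeightOneSpectrum (𝓞 ℚ) → HeightOneSpectrum (𝓞 F)}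
variable {T : Type} [Field T] {d : ℕ}

lemma yy_eq (hQ : GoodG ℚ) (ρ : Gal(F/ℚ) →* Matrix (Fin d) (Fin d) T) (τ : T →+* ℂ)
    (σ : ℂ ≃+* ℂ) : yy hQ wf ρ ((σ : ℂ →+* ℂ).comp τ) =
      vv (LL ℚ (ps hQ) wf (fun g => σ (LinearMap.trace ℂ (Fin d → ℂ) (rp ρ τ g⁻¹)))) := by
  unfold yy
  simp only [rp_trace]
  rfl

/-- complex conjugation as an automorphism -/
noncomputable def cj : ℂ ≃+* ℂ := starRingAut

lemma cj_apply (z : ℂ) : cj z = (starRingEnd ℂ) z := rfl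

lemma yy_conj (hf : Fam L) (hr : Rays L) (h3 : ∃ a : L, a ^ 2 = -3) (hQ : GoodG ℚ)
    (hwf : ∀ v, und0 ℚ (wf v) = v) (ρ : Gal(F/ℚ) →* Matrix (Fin d) (Fin d) T) (τ : T →+* ℂ) :
    yy hQ wf ρ ((cj : ℂ →+* ℂ).comp τ) = (starRingEnd ℂ) (yy hQ wf ρ τ) := by
  obtain ⟨⟨R, hR, -⟩, -⟩ := main_Q (wf := wf) hf hr h3 hQ hwf (rp ρ τ)
  rw [yy_eq]
  have h1 : Ct (fun s => (starRingEnd ℂ) (R ((starRingEnd ℂ) s)))
      (LL ℚ (ps hQ) wf (fun g => cj (LinearMap.trace ℂ (Fin d → ℂ) (rp ρ τ g⁻¹)))) := by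
    refine hR.conj.congr fun s _ => ?_
    rw [LL_conj]
    have h2 : (fun (v : HeightOneSpectrum (𝓞 ℚ)) (j : ℕ) => (starRingEnd ℂ) (ps hQ v j)) = ps hQ := by
      funext v j
      exact ps_conj hQ v j
    rw [h2]
    rfl
  rw [vv_eq h1]
  unfold yy
  rw [vv_eq hR, map_one]

/-- the images of the cube root of unity -/
lemma σ_w (σ : ℂ ≃+* ℂ) : σ w = w ∨ σ w = (starRingEnd ℂ) w := by
  have hw := Pool.Agent.Y688.w_sq
  have h1 : σ w * σ w = -1 - σ w := by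
    rw [← map_mul, hw, map_sub, map_neg, map_one]
  have h2 : (σ w - w) * (σ w - (starRingEnd ℂ) w) = 0 := by
    rw [conj_w]
    linear_combination h1 - hw
  rcases mul_eq_zero.1 h2 with h3 | h3
  · exact Or.inl (sub_eq_zero.1 h3)
  · exact Or.inr (sub_eq_zero.1 h3)

/-- **all the automorphisms** -/
theorem yy_all (hf : Fam L) (hr : Rays L) (h3 : ∃ a : L, a ^ 2 = -3) (hQ : GoodG ℚ)
    (hwf : ∀ v, und0 ℚ (wf v) = v) (ρ : Gal(F/ℚ) →* Matrix (Fin d) (Fin d) T)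
    {L' : PeriodPair} {Ω : ℂ} (hL : HL L' Ω) {D : ℂ} (hD : ∃ r : RR, D = Ω ^ d * r) (hD0 : D ≠ 0)
    {δ : ℤ} (hδ : δ * δ = 1) (hDc : (starRingEnd ℂ) D = δ * D) {e : F →+* ℂ} {c : Gal(F/ℚ)}
    (hc : ∀ x, e (c x) = (starRingEnd ℂ) (e x)) (hdet : (ρ c⁻¹).det = δ)
    (σ : ℂ ≃+* ℂ) {g : Gal(F/ℚ)} (hg : ∀ x, e (g x) = σ (e x)) (τ : T →+* ℂ) :
    yy hQ wf ρ ((σ : ℂ →+* ℂ).comp τ) / D = σ (τ (ρ g⁻¹).det) * σ (yy hQ wf ρ τ / D) := by
  have hΩ0 : Ω ≠ 0 := hL.ne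
  obtain ⟨r, hr'⟩ := hD
  -- the automorphisms which fix the roots of unity
  have key : ∀ (σ : ℂ ≃+* ℂ) (τ : T →+* ℂ) (g : Gal(F/ℚ)), σ w = w → (∀ x, e (g x) = σ (e x)) →
      yy hQ wf ρ ((σ : ℂ →+* ℂ).comp τ) / D = σ (τ (ρ g⁻¹).det) * σ (yy hQ wf ρ τ / D) := by
    intro σ τ g hw hg
    have h1 := (main_Q (wf := wf) hf hr h3 hQ hwf (rp ρ τ)).2 L' Ω hL σ hw e g hg
    rw [← yy_eq, rp_det, Module.finrank_fin_fun] at h1
    have h2 : yy hQ wf ρ τ / Ω ^ d = yy hQ wf ρ τ / D * r := by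
      rw [hr']
      have hr0 : (r : ℂ) ≠ 0 := by
        rintro h0
        apply hD0
        rw [hr', h0, mul_zero]
      field_simp
    have h3 : vv (LL ℚ (ps hQ) wf (fun g => LinearMap.trace ℂ (Fin d → ℂ) (rp ρ τ g⁻¹))) =
      yy hQ wf ρ τ := rfl
    rw [h3, h2, map_mul, fix_RR hw r] at h1
    have hr0 : (r : ℂ) ≠ 0 := by
      rintro h0
      apply hD0
      rw [hr', h0, mul_zero]
    have h4 : yy hQ wf ρ ((σ : ℂ →+* ℂ).comp τ) / Ω ^ d =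
        yy hQ wf ρ ((σ : ℂ →+* ℂ).comp τ) / D * r := by
      rw [hr']
      field_simp
    rw [h4, ← mul_assoc] at h1
    exact mul_right_cancel₀ hr0 h1
  rcases σ_w σ with hw | hw
  · exact key σ τ g hw hg
  · -- the composition with complex conjugation
    set σ₁ : ℂ ≃+* ℂ := cj.trans σ with hσ₁
    have hσ₁' : ∀ z, σ₁ z = σ ((starRingEnd ℂ) z) := fun z => rfl
    have hw1 : σ₁ w = w := by
      rw [hσ₁', conj_w, map_sub, map_neg, map_one, hw, conj_w]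
      ring
    have hc1 : ∀ x, e (c⁻¹ x) = (starRingEnd ℂ) (e x) := fun x => by
      have h1 := hc (c⁻¹ x)
      rw [← AlgEquiv.mul_apply, mul_inv_cancel] at h1
      have h2 : (starRingEnd ℂ) (e x) = (starRingEnd ℂ) ((starRingEnd ℂ) (e (c⁻¹ x))) := by
        rw [← h1]
        rfl
      rw [h2, Complex.conj_conj]
    have hg1 : ∀ x, e ((g * c⁻¹) x) = σ₁ (e x) := fun x => by
      rw [AlgEquiv.mul_apply, hg, hσ₁', hc1]
    have hcomp : ((σ₁ : ℂ →+* ℂ).comp ((cj : ℂ →+* ℂ).comp τ)) = (σ : ℂ →+* ℂ).comp τ := by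
      ext x
      show σ₁ (cj (τ x)) = σ (τ x)
      rw [hσ₁', cj_apply, Complex.conj_conj]
    have h1 := key σ₁ ((cj : ℂ →+* ℂ).comp τ) (g * c⁻¹) hw1 hg1
    rw [hcomp] at h1
    rw [h1, yy_conj hf hr h3 hQ hwf]
    have h2 : (ρ (g * c⁻¹)⁻¹).det = (δ : T) * (ρ g⁻¹).det := by
      have h3 : (g * c⁻¹)⁻¹ = c⁻¹⁻¹ * g⁻¹ := by group
      have h4 : (ρ c⁻¹⁻¹).det * (ρ c⁻¹).det = 1 := by
        rw [← Matrix.det_mul, ← map_mul, inv_mul_cancel, map_one, Matrix.det_one]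
      have h5 : (ρ c⁻¹⁻¹).det = (δ : T) := by
        rw [hdet] at h4
        have h6 : (δ : T) * (δ : T) = 1 := by exact_mod_cast congrArg (fun n : ℤ => (n : T)) hδ
        calc (ρ c⁻¹⁻¹).det = (ρ c⁻¹⁻¹).det * ((δ : T) * δ) := by rw [h6, mul_one]
          _ = (ρ c⁻¹⁻¹).det * δ * δ := by ring
          _ = δ := by rw [h4, one_mul]
      rw [h3, map_mul, Matrix.det_mul, h5]
    rw [h2]
    have e1 : σ₁ ((((cj : ℂ →+* ℂ).comp τ)) ((δ : T) * (ρ g⁻¹).det)) =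
        δ * σ (τ (ρ g⁻¹).det) := by
      show σ₁ (cj (τ ((δ : T) * (ρ g⁻¹).det))) = _
      rw [hσ₁', cj_apply, Complex.conj_conj, map_mul, map_mul, map_intCast, map_intCast]
    have e2 : (starRingEnd ℂ) (yy hQ wf ρ τ) / D = δ * (starRingEnd ℂ) (yy hQ wf ρ τ / D) := by
      rw [map_div₀, hDc]
      have h5 : ((δ : ℂ)) * δ = 1 := by exact_mod_cast congrArg (fun n : ℤ => (n : ℂ)) hδ
      have hδ0 : (δ : ℂ) ≠ 0 := left_ne_zero_of_mul_eq_one h5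
      field_simp
    rw [e1, e2, map_mul, map_intCast, hσ₁', Complex.conj_conj]
    have h5 : ((δ : ℂ)) * δ = 1 := by exact_mod_cast congrArg (fun n : ℤ => (n : ℂ)) hδ
    linear_combination σ (τ (ρ g⁻¹).det) * σ (yy hQ wf ρ τ / D) * h5

end

end Pool.Agent.H508.D
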