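import Pool.Graph.R_seed8.R430.C3
import Pool.Graph.R_seed8.TH936.CM.Act
import Pool.Graph.R_seed8.TH936.CM.Alg

/-!
# The action of the automorphisms of the complex numbers on the values of the Eisenstein series
-/

set_option autoImplicit false

open Complex Filter Topology
open scoped PeriodPair

namespace Pool.Agent.H508.D

open Pool.Agent.Y688 Pool.Agent.W192.HK Pool.Agent.TH936.CM Pool.Agent.R430 Pool.Agent.W245.EB H667R3

variable {L : PeriodPair} {Ω : ℂ}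

/-- `σ` acts as the multiplication by `u` on the points of order `n` -/
def Act (L : PeriodPair) (Ω : ℂ) (σ : ℂ ≃+* ℂ) (n : ℕ) (u : RR) : Prop :=
  ∀ r : RR, Rl L σ (Ω * r / n) (Ω * (u * r : RR) / n)

lemma sg2 (h : HL L Ω) (σ : ℂ ≃+* ℂ) : σ L.g₂ = L.g₂ := by rw [h.g2, map_zero]

lemma sg3 (h : HL L Ω) (σ : ℂ ≃+* ℂ) : σ L.g₃ = L.g₃ := by rw [h.g3, map_neg, map_one]

lemma rl_w (h : HL L Ω) {σ : ℂ ≃+* ℂ} (hw : σ w = w) {z z' : ℂ} (hz : Rl L σ z z') :
    Rl L σ (w * z) (w * z') := by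
  have hmem : ∀ x : ℂ, w * x ∈ L.lattice ↔ x ∈ L.lattice := by
    intro x
    constructor
    · intro hx
      have h1 := h.toIsLat.mul wR _ (h.toIsLat.mul wR _ hx)
      have e : (wR : ℂ) * ((wR : ℂ) * (w * x)) = x := by
        rw [wR_coe]
        linear_combination x * w3
      rwa [e] at h1
    · intro hx
      exact h.toIsLat.mul wR _ hx
  rcases hz with ⟨h1, h2⟩ | ⟨h1, h2, h3, h4⟩
  · exact Or.inl ⟨(hmem _).2 h1, (hmem _).2 h2⟩
  · refine Or.inr ⟨fun hc => h1 ((hmem _).1 hc), fun hc => h2 ((hmem _).1 hc), ?_, ?_⟩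
    · rw [wp_w h.toIsLat, wp_w h.toIsLat, map_mul, hw, h3]
    · rw [wp'_w h.toIsLat, wp'_w h.toIsLat, h4]

lemma fix_RR {σ : ℂ ≃+* ℂ} (hw : σ w = w) (r : RR) : σ (r : ℂ) = r := by
  obtain ⟨x, y, hr⟩ := (qr.mem r).1 r.2
  rw [hr, map_add, map_mul, map_intCast, map_intCast, hw]

lemma rl_RR (h : HL L Ω) {σ : ℂ ≃+* ℂ} (hw : σ w = w) {z z' : ℂ} (hz : Rl L σ z z') (r : RR) :
    Rl L σ (r * z) (r * z') := by
  obtain ⟨x, y, hr⟩ := (qr.mem r).1 r.2
  have h4 := (hz.int_mul (sg2 h σ) (sg3 h σ) x).add (sg2 h σ) (sg3 h σ)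
    ((rl_w h hw hz).int_mul (sg2 h σ) (sg3 h σ) y)
  rw [hr]
  have e5 : ∀ t : ℂ, ((x : ℂ) + y * w) * t = x * t + y * (w * t) := fun t => by ring
  rw [e5, e5]
  exact h4

lemma exists_act (h : HL L Ω) {σ : ℂ ≃+* ℂ} (hw : σ w = w) {n : ℕ} (hn : 0 < n) :
    ∃ u v : RR, (n : RR) ∣ u * v - 1 ∧ Act L Ω σ n u := by
  have : NeZero n := ⟨hn.ne'⟩
  obtain ⟨u, v, h1, h2⟩ := exists_unit h.toIsLat σ (sg2 h σ) (sg3 h σ)
    (fun z z' hz r => rl_RR h hw hz r) n hn inferInstance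
  exact ⟨u, v, Ideal.mem_span_singleton.1 h1, h2⟩

lemma Act.dvd {σ : ℂ ≃+* ℂ} {n m : ℕ} {u : RR} (h : Act L Ω σ m u) (hm : 0 < m) (hd : n ∣ m) :
    Act L Ω σ n u := by
  obtain ⟨k, rfl⟩ := hd
  have hn0 : (n : ℂ) ≠ 0 := by
    intro h0
    rw [Nat.cast_eq_zero] at h0
    rw [h0, zero_mul] at hm
    exact lt_irrefl _ hm
  have hk0 : (k : ℂ) ≠ 0 := by
    intro h0
    rw [Nat.cast_eq_zero] at h0
    rw [h0, mul_zero] at hm
    exact lt_irrefl _ hm
  intro r
  have h1 := h ((k : RR) * r)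
  have e1 : Ω * (((k : RR) * r : RR) : ℂ) / ((n * k : ℕ) : ℂ) = Ω * r / n := by
    push_cast
    field_simp
  have e2 : Ω * ((u * ((k : RR) * r) : RR) : ℂ) / ((n * k : ℕ) : ℂ) = Ω * (u * r : RR) / n := by
    push_cast
    field_simp
  rwa [e1, e2] at h1

lemma lat_iff (h : IsLat L RR Ω) {n : ℕ} (hn : 0 < n) (r : RR) :
    Ω * r / n ∈ L.lattice ↔ (n : RR) ∣ r := by
  rw [lat_div_iff h n hn, Ideal.mem_span_singleton]

/-- uniqueness of the multiplier -/
lemma Act.uniq (h : HL L Ω) {σ : ℂ ≃+* ℂ} {n : ℕ} (hn : 0 < n) {u u' : RR} (h1 : Act L Ω σ n u)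
    (h2 : Act L Ω σ n u') : (n : RR) ∣ u - u' := by
  have h3 := (h1 1).uniq (h2 1)
  rw [← lat_iff h.toIsLat hn]
  have e : Ω * ((u * 1 : RR) : ℂ) / n - Ω * ((u' * 1 : RR) : ℂ) / n = Ω * ((u - u' : RR) : ℂ) / n := by
    push_cast
    ring
  rwa [e] at h3

/-- **the action on the values of the Eisenstein series** -/
theorem Act.ev (h : HL L Ω) {σ : ℂ ≃+* ℂ} {n : ℕ} [NeZero n] (hn : Odd n) {u : RR}
    (hu : Act L Ω σ n u) (a : RR) : σ (Ev Ω n a) = Ev Ω n (u * a) := by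
  have hc : ∀ b : RR, σ (3 * ℘[L] (Ω * b / n) ^ 2 / ℘'[L] (Ω * b / n)) =
      3 * ℘[L] (Ω * (u * b : RR) / n) ^ 2 / ℘'[L] (Ω * (u * b : RR) / n) := by
    intro b
    by_cases hb : Ω * b / n ∈ L.lattice
    · have hb' := (hu b).mem_iff.1 hb
      rw [L.derivWeierstrassP_coe ⟨_, hb⟩, L.derivWeierstrassP_coe ⟨_, hb'⟩, div_zero, div_zero,
        map_zero]
    · obtain ⟨h1, h2⟩ := (hu b).vals hb
      rw [map_div₀, map_mul, map_pow, h1, h2, map_ofNat]
  have hD : ∀ k : ℕ, σ (Ev Ω n (2 ^ k * a)) - Ev Ω n (u * (2 ^ k * a)) =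
      2 ^ k * (σ (Ev Ω n a) - Ev Ω n (u * a)) := by
    intro k
    induction k with
    | zero => simp
    | succ k ih =>
      have e1 : (2 : RR) ^ (k + 1) * a = 2 * (2 ^ k * a) := by ring
      have e2 : u * (2 * (2 ^ k * a)) = 2 * (u * (2 ^ k * a)) := by ring
      rw [e1, e2, Ev_two h hn, Ev_two h hn, map_add, map_mul, map_ofNat, hc]
      linear_combination 2 * ih
  have hcop : Nat.Coprime 2 n := by
    rw [Nat.coprime_two_left]
    exact hn
  have h5 : 2 ^ Nat.totient n ≡ 1 [MOD n] := Nat.ModEq.pow_totient hcop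
  obtain ⟨q, hq⟩ : (n : ℤ) ∣ 2 ^ Nat.totient n - 1 := by
    have := (Nat.modEq_iff_dvd.1 h5.symm)
    push_cast at this
    exact this
  have hqR : (2 : RR) ^ Nat.totient n = 1 + n * (q : RR) := by
    have := congrArg (fun z : ℤ => (z : RR)) hq
    push_cast at this
    linear_combination this
  have h7 : ∀ b : RR, Ev Ω n (2 ^ Nat.totient n * b) = Ev Ω n b := by
    intro b
    rw [hqR]
    have e : (1 + (n : RR) * (q : RR)) * b = b + n * ((q : RR) * b) := by ring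
    rw [e]
    exact (Ev_per h.toIsLat n).add b _
  have h8 := hD (Nat.totient n)
  have e3 : u * (2 ^ Nat.totient n * a) = 2 ^ Nat.totient n * (u * a) := by ring
  rw [e3, h7, h7] at h8
  have hpos : 0 < Nat.totient n := Nat.totient_pos.2 (Nat.pos_of_ne_zero (NeZero.ne n))
  have h9 : ((2 : ℂ) ^ Nat.totient n - 1) * (σ (Ev Ω n a) - Ev Ω n (u * a)) = 0 := by
    linear_combination -h8
  have h10 : (2 : ℂ) ^ Nat.totient n - 1 ≠ 0 := by
    intro h0
    have h1 : ((2 ^ Nat.totient n : ℕ) : ℂ) = ((1 : ℕ) : ℂ) := by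
      push_cast
      linear_combination h0
    have h2 : 2 ^ Nat.totient n = 1 := by exact_mod_cast h1
    have h3 := Nat.one_lt_two_pow hpos.ne'
    omega
  have h11 := (mul_eq_zero.1 h9).resolve_left h10
  linear_combination h11

/-- the points of order three are fixed -/
lemma rl_three (h : HL L Ω) {σ : ℂ ≃+* ℂ} (hw : σ w = w) {z : ℂ} (hz : 3 * z ∈ L.lattice) :
    Rl L σ z z := by
  by_cases h0 : z ∈ L.lattice
  · exact Or.inl ⟨h0, h0⟩
  have h2 : 2 * z ∉ L.lattice := by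
    intro h2
    apply h0
    have := sub_mem hz h2
    have e : 3 * z - 2 * z = z := by ring
    rwa [e] at this
  have hd := h.dup h2
  have e1 : ℘[L] (2 * z) = ℘[L] z := by
    have e : 2 * z = -z + 3 * z := by ring
    rw [e, wp_add_lattice L hz, L.weierstrassP_neg]
  have hy := wp'_ne_zero L h2
  have hc := h.curve h0
  rw [e1, sub_self] at hd
  have h3 : ℘[L] z * (℘[L] z ^ 3 + 1) = 0 := by
    have h4 : ℘[L] z * (℘[L] z ^ 3 + 1) / ℘'[L] z ^ 2 = 0 := by
      linear_combination (1 / 3 : ℂ) * hd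
    rcases div_eq_zero_iff.1 h4 with h5 | h5
    · exact h5
    · exact absurd h5 (pow_ne_zero 2 hy)
  refine Or.inr ⟨h0, h0, ?_, ?_⟩
  · rcases mul_eq_zero.1 h3 with h4 | h4
    · rw [h4, map_zero]
    · have h5 : (℘[L] z + 1) * ((℘[L] z + w) * (℘[L] z + w * w)) = 0 := by
        have hs := w_sq
        have e : (℘[L] z + 1) * ((℘[L] z + w) * (℘[L] z + w * w)) =
            ℘[L] z ^ 3 + (℘[L] z ^ 2 + ℘[L] z) * (1 + w + w * w) + w * (w * w) := by
          linear_combination ℘[L] z * w3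
        rw [e, w3]
        linear_combination h4 + (℘[L] z ^ 2 + ℘[L] z) * hs
      rcases mul_eq_zero.1 h5 with h6 | h6
      · rw [eq_neg_of_add_eq_zero_left h6, map_neg, map_one]
      · rcases mul_eq_zero.1 h6 with h7 | h7
        · rw [eq_neg_of_add_eq_zero_left h7, map_neg, hw]
        · rw [eq_neg_of_add_eq_zero_left h7, map_neg, map_mul, hw]
  · rcases mul_eq_zero.1 h3 with h4 | h4
    · rw [h4] at hc
      have h5 : (℘'[L] z - 1) * (℘'[L] z + 1) = 0 := by linear_combination hc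
      rcases mul_eq_zero.1 h5 with h6 | h6
      · rw [sub_eq_zero.1 h6, map_one]
      · rw [eq_neg_of_add_eq_zero_left h6, map_neg, map_one]
    · have h5 : (℘'[L] z - (2 * w + 1)) * (℘'[L] z + (2 * w + 1)) = 0 := by
        have hs := w_sq
        linear_combination hc + 4 * h4 - 4 * hs
      rcases mul_eq_zero.1 h5 with h6 | h6
      · rw [sub_eq_zero.1 h6, map_add, map_mul, hw, map_ofNat, map_one]
      · rw [eq_neg_of_add_eq_zero_left h6, map_neg, map_add, map_mul, hw, map_ofNat, map_one]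

/-- the multiplier is one modulo three -/
lemma Act.three (h : HL L Ω) {σ : ℂ ≃+* ℂ} (hw : σ w = w) {n : ℕ} (hn : 0 < n) (h3 : 3 ∣ n) {u : RR}
    (hu : Act L Ω σ n u) : (3 : RR) ∣ u - 1 := by
  have h1 : Act L Ω σ 3 u := hu.dvd hn h3
  have h2 : Act L Ω σ 3 1 := by
    intro r
    rw [one_mul]
    refine rl_three h hw ?_
    have e : 3 * (Ω * r / ((3 : ℕ) : ℂ)) = Ω * r := by
      push_cast
      field_simp
    rw [e]
    exact h.toIsLat.mem_mul r
  have := h1.uniq h (by norm_num) h2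
  exact_mod_cast this

end Pool.Agent.H508.D
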