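import Pool.Graph.R_pool_sql_team_seeded_35f281b4.K7.H56.T11
import Pool.Agent.H508.D.A

/-!
# The limits and the automorphisms of the complex numbers
-/

set_option autoImplicit false

open Complex Filter Topology Set MeasureTheory
open scoped PeriodPair

namespace Pool.Agent.H508.D

open Pool.Agent.K7.H56 Pool.Agent.K7.H56.GN
open Pool.Agent.Y688 Pool.Agent.W192.HK Pool.Agent.TH936.CM Pool.Agent.R430 H667R3

variable {r : ℕ} {A : Type*} [CommRing A] [Algebra RR A]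

/-- multiplication by an invertible class -/
noncomputable def mulE (n : ℕ) {u u' : RR} (h : (n : RR) ∣ u * u' - 1) : RM n ≃ RM n where
  toFun q := Ideal.Quotient.mk _ u' * q
  invFun q := Ideal.Quotient.mk _ u * q
  left_inv q := by
    have h1 : (Ideal.Quotient.mk (sp (n : RR)) (u * u')) = 1 := by
      rw [← map_one (Ideal.Quotient.mk (sp (n : RR))), Ideal.Quotient.mk_eq_mk_iff_sub_mem]
      exact Ideal.mem_span_singleton.2 h
    show Ideal.Quotient.mk _ u * (Ideal.Quotient.mk _ u' * q) = q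
    rw [← mul_assoc, ← map_mul, h1, one_mul]
  right_inv q := by
    have h1 : (Ideal.Quotient.mk (sp (n : RR)) (u' * u)) = 1 := by
      rw [← map_one (Ideal.Quotient.mk (sp (n : RR))), Ideal.Quotient.mk_eq_mk_iff_sub_mem, mul_comm u']
      exact Ideal.mem_span_singleton.2 h
    show Ideal.Quotient.mk _ u' * (Ideal.Quotient.mk _ u * q) = q
    rw [← mul_assoc, ← map_mul, h1, one_mul]

lemma mulE_out (n : ℕ) {u u' : RR} (h : (n : RR) ∣ u * u' - 1) (q : RM n) :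
    (mulE n h q).out - u' * q.out ∈ sp (n : RR) := by
  rw [← Ideal.Quotient.mk_eq_mk_iff_sub_mem, Ideal.Quotient.mk_out, map_mul, Ideal.Quotient.mk_out]
  rfl

variable {D : GN A r} {l : Fin (r + 1) → (A →ₗ[RR] RR)}

lemma fF_act {M N : ℕ} {φ φ' : A → ℂ} (hper : ∀ x γ, φ (x + M * γ) = φ x) (hdl : D.dl l ≠ 0)
    (hN : normSq ((D.dl l : RR) : ℂ) = N) {σ : ℂ ≃+* ℂ} {u u' : RR}
    (huu : ((M * N : ℕ) : RR) ∣ u * u' - 1) (hφ : ∀ x, φ' x = σ (φ (u' • x)))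
    (c : Fin (r + 1) → RR) : σ (fF φ l (fun j => u' * c j)) = fF φ' l c := by
  by_cases hc : ∃ x, ∀ j, l j x = c j
  · obtain ⟨x, hx⟩ := hc
    have e1 : (fun j => u' * c j) = fun j => l j (u' • x) := by
      funext j
      rw [map_smul, hx, smul_eq_mul]
    rw [e1, fF_eq hdl, ← hφ, ← show (fun j => l j x) = c from funext hx, fF_eq hdl]
  · rw [fF_zero hc, fF_zero, map_zero]
    rintro ⟨x, hx⟩
    apply hc
    obtain ⟨k, hk⟩ := huu
    obtain ⟨y, hy⟩ := l_surj hN (fun j => k * c j)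
    refine ⟨u • x + M * (-y), fun j => ?_⟩
    have h2 : (M : A) * (-y) = (M : RR) • (-y) := by
      rw [Nat.cast_smul_eq_nsmul, nsmul_eq_mul]
    rw [map_add, h2, map_smul, map_smul, map_neg, hy, hx, smul_eq_mul, smul_eq_mul]
    push_cast at hk
    linear_combination (c j) * hk

/-- **the action on the value of the limit** -/
theorem Vl_act {L : PeriodPair} {Ω : ℂ} (h : HL L Ω) {M N : ℕ} {φ φ' : A → ℂ}
    (hper : ∀ x γ, φ (x + M * γ) = φ x) (hdl : D.dl l ≠ 0)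
    (hN : normSq ((D.dl l : RR) : ℂ) = N) [NeZero (M * N)] (hodd : Odd (M * N)) {σ : ℂ ≃+* ℂ}
    {u u' : RR} (huu : ((M * N : ℕ) : RR) ∣ u * u' - 1) (hu : Act L Ω σ (M * N) u)
    (hφ : ∀ x, φ' x = σ (φ (u' • x))) : σ (Vl Ω (M * N) φ l) = Vl Ω (M * N) φ' l := by
  unfold Vl
  rw [map_sum, ← Equiv.sum_comp (Equiv.piCongrRight fun _ : Fin (r + 1) => mulE (M * N) huu)]
  refine Finset.sum_congr rfl fun q _ => ?_
  rw [map_mul, map_prod]
  congr 1
  · rw [← fF_act hper hdl hN huu hφ]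
    congr 1
    exact fF_per hper hdl hN _ _ fun j => mulE_out (M * N) huu (q j)
  · refine Finset.prod_congr rfl fun j _ => ?_
    rw [hu.ev h hodd]
    have h1 := Ev_per h.toIsLat (M * N)
    refine h1 _ _ ?_
    have h2 := mulE_out (M * N) huu (q j)
    rw [Ideal.mem_span_singleton] at h2 ⊢
    obtain ⟨a, ha⟩ := h2
    obtain ⟨b, hb⟩ := id huu
    exact ⟨u * a + b * (q j).out, by
      show u * (mulE (M * N) huu (q j)).out - (q j).out = _
      linear_combination u * ha + (q j).out * hb⟩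

/-- the statement on the limits for a family of linear forms -/
def Eqv {γ : RR} (D : GN A r) (π : A →+* (RR ⧸ sp γ)) (l : Fin (r + 1) → (A →ₗ[RR] RR))
    (S : Finset A) (N : ℕ) : Prop :=
  ∀ (M : ℕ) [NeZero M] (φ φ' : A → ℂ), Odd M → D.Cfu M φ → D.Cfu M φ' → (∀ x, φ x ≠ 0 → π x ≠ 0) →
    (∀ x, φ' x ≠ 0 → π x ≠ 0) → (∀ w ∈ S, Mzv M φ w) → (∀ w ∈ S, Mzv M φ' w) →
    ∀ (L : PeriodPair) (Ω : ℂ), HL L Ω → ∀ (σ : ℂ ≃+* ℂ), σ w = w → ∀ (u u' : RR),
    ((M * N : ℕ) : RR) ∣ u * u' - 1 → Act L Ω σ (M * N) u → (∀ x, φ' x = σ (φ (u' • x))) →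
    ∀ l0 l0' : ℂ, Tendsto (fun ρ => D.Ls φ l ρ * D.dv l) (𝓝[>] 0) (𝓝 l0) →
    Tendsto (fun ρ => D.Ls φ' l ρ * D.dv l) (𝓝[>] 0) (𝓝 l0') →
    σ (D.P.det * l0 / Ω ^ (r + 1)) = D.P.det * l0' / Ω ^ (r + 1)

variable {γ : RR} {π : A →+* (RR ⧸ sp γ)}

lemma Eqv.mono {S S' : Finset A} {N : ℕ} (h : Eqv D π l S N) (hS : S ⊆ S') : Eqv D π l S' N :=
  fun M _ φ φ' hM h1 h2 h3 h4 h5 h6 => h M φ φ' hM h1 h2 h3 h4 (fun w hw => h5 w (hS hw))
    fun w hw => h6 w (hS hw)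

lemma eqv_zero (h0 : D.dl l = 0) : Eqv D π l ∅ 1 := by
  have h1 : D.dv l = 0 := by
    by_contra h
    exact dl_ne h h0
  intro M _ φ φ' _ _ _ _ _ _ _ L Ω _ σ _ u u' _ _ _ l0 l0' hl hl'
  have e1 : l0 = 0 := by
    refine tendsto_nhds_unique hl ?_
    simp only [h1, mul_zero]
    exact tendsto_const_nhds
  have e2 : l0' = 0 := by
    refine tendsto_nhds_unique hl' ?_
    simp only [h1, mul_zero]
    exact tendsto_const_nhds
  rw [e1, e2, mul_zero, zero_div, map_zero]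

theorem eqv_base [NoZeroSMulDivisors RR A] (l : Fin (r + 1) → (A →ₗ[RR] RR))
    (hl : ∀ j, l j ∈ Xg π) (h2 : ¬ (2 : RR) ∣ D.dl l) :
    ∃ (S : Finset A) (N : ℕ), (∀ w ∈ S, w ≠ 0) ∧ Odd N ∧ Eqv D π l S N := by
  classical
  have hdl : D.dl l ≠ 0 := by
    intro h0
    exact h2 (h0 ▸ dvd_zero _)
  obtain ⟨N, hN⟩ := normSq_RR (D.dl l)
  have hN0 : N ≠ 0 := by
    rintro rfl
    have := one_le_normSq hdl
    rw [hN] at this
    norm_num at this
  have hNodd : Odd N := by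
    by_contra h3
    rw [Nat.not_odd_iff_even] at h3
    obtain ⟨y, hy⟩ := dvd_nsq _ hN
    obtain ⟨k, hk⟩ := h3
    have h4 : (2 : RR) ∣ D.dl l * y := ⟨k, by rw [← hy, hk]; push_cast; ring⟩
    rcases two_prime.dvd_or_dvd h4 with h5 | h5
    · exact h2 h5
    · obtain ⟨t, ht⟩ := h5
      have hyc : (y : ℂ) = (starRingEnd ℂ) ((D.dl l : RR) : ℂ) := by
        have h6 : ((D.dl l : RR) : ℂ) * y = ((D.dl l : RR) : ℂ) * (starRingEnd ℂ) ((D.dl l : RR) : ℂ) := by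
          rw [Complex.mul_conj, hN]
          have := congrArg (fun z : RR => (z : ℂ)) hy
          push_cast at this
          exact this.symm
        have h7 : ((D.dl l : RR) : ℂ) ≠ 0 := by exact_mod_cast hdl
        exact mul_left_cancel₀ h7 h6
      apply h2
      refine ⟨⟨(starRingEnd ℂ) (t : ℂ), Pool.Agent.W287.HK.conj_mem qr _⟩, ?_⟩
      apply Subtype.ext
      have h8 := congrArg (fun z : RR => (z : ℂ)) ht
      push_cast at h8
      have h9 : ((2 : RR) : ℂ) = 2 := rfl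
      push_cast
      rw [h9, ← Complex.conj_conj ((D.dl l : RR) : ℂ), ← hyc, h8, map_mul, h9]
      congr 1
      exact Complex.conj_ofNat 2
  choose y hy using fun j : Fin (r + 1) => l_surj hN (Pi.single j 1)
  have hy0 : ∀ j, y j ≠ 0 := by
    intro j h0
    have h3 := hy j j
    rw [h0, map_zero, Pi.single_eq_same, mul_one] at h3
    exact hN0 (by exact_mod_cast h3.symm)
  refine ⟨Finset.univ.image y, N, ?_, hNodd, ?_⟩
  · intro w hw
    obtain ⟨j, _, rfl⟩ := Finset.mem_image.1 hw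
    exact hy0 j
  intro M _ φ φ' hM hC hC' hφπ hφπ' hS hS' L Ω h σ hw u u' huu hu hφ l0 l0' hl0 hl0'
  have hMN : Odd (M * N) := Nat.odd_mul.2 ⟨hM, hNodd⟩
  have : NeZero (M * N) := ⟨mul_ne_zero (NeZero.ne M) hN0⟩
  have key : ∀ ψ : A → ℂ, D.Cfu M ψ → (∀ x, ψ x ≠ 0 → π x ≠ 0) →
      (∀ w ∈ Finset.univ.image y, Mzv M ψ w) → ∀ m0 : ℂ,
      Tendsto (fun ρ => D.Ls ψ l ρ * D.dv l) (𝓝[>] 0) (𝓝 m0) →
      m0 = (Ω / ((M * N : ℕ) : ℂ)) ^ (r + 1) * Vl Ω (M * N) ψ l * D.dv l := by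
    intro ψ hψ hψπ hψS m0 hm0
    have hdef := deform (D := D) (l := l) hψ.bd hψ.per (fun x j hx => Xg_ne (hl j) (hψπ x hx))
      (dv_ne hdl) fun j => ⟨y j, hy0 j, fun i hi => by
        rw [hy, Pi.single_eq_of_ne hi, mul_zero], hψS _ (Finset.mem_image_of_mem _ (Finset.mem_univ j))⟩
    have h5 := (lim_Lp h hψ.per hdl hN hMN).sub hdef
    rw [sub_zero] at h5
    have h6 : Tendsto (D.Ls ψ l) (𝓝[>] 0)
        (𝓝 ((Ω / ((M * N : ℕ) : ℂ)) ^ (r + 1) * Vl Ω (M * N) ψ l)) := by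
      refine h5.congr fun ρ => ?_
      ring
    exact tendsto_nhds_unique hm0 (h6.mul_const (D.dv l))
  have hΩ : Ω ^ (r + 1) ≠ 0 := pow_ne_zero _ h.ne
  have hn0 : (((M * N : ℕ) : ℂ)) ≠ 0 := by exact_mod_cast NeZero.ne (M * N)
  have e : ∀ V : ℂ, D.P.det * ((Ω / ((M * N : ℕ) : ℂ)) ^ (r + 1) * V * D.dv l) / Ω ^ (r + 1) =
      ((D.dl l : RR) : ℂ) * V / ((M * N : ℕ) : ℂ) ^ (r + 1) := by
    intro V
    rw [← D.dv_mul, div_pow]
    field_simp
  rw [key φ hC hφπ hS l0 hl0, key φ' hC' hφπ' hS' l0' hl0', e, e, map_div₀, map_mul, map_pow,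
    map_natCast, fix_RR hw, Vl_act h hC.per hdl hN hMN huu hu hφ]

lemma Act.mul_right {L : PeriodPair} {Ω : ℂ} {σ : ℂ ≃+* ℂ} {M N N' : ℕ} {u : RR}
    (h : Act L Ω σ (M * N) u) (hM : 0 < M * N) (hd : N' ∣ N) : Act L Ω σ (M * N') u :=
  h.dvd hM (mul_dvd_mul_left M hd)

theorem eqv_pow [NoZeroSMulDivisors RR A] (hγ : IsCoprime γ 2) (k : ℕ) :
    ∀ (l : Fin (r + 1) → (A →ₗ[RR] RR)), (∀ j, l j ∈ Xg π) →
    (∃ m, ¬ (2 : RR) ∣ m ∧ D.dl l = 2 ^ k * m) →
    ∃ (S : Finset A) (N : ℕ), (∀ w ∈ S, w ≠ 0) ∧ Odd N ∧ Eqv D π l S N := by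
  classical
  induction k with
  | zero =>
    rintro l hl ⟨m, hm, hlm⟩
    rw [pow_zero, one_mul] at hlm
    exact eqv_base l hl (hlm ▸ hm)
  | succ k ih =>
    rintro l hl ⟨m, hm, hlm⟩
    obtain ⟨b, w', hw, hwb, hb⟩ := exists_w (D := D) hγ l hl ⟨2 ^ k * m, by rw [hlm]; ring⟩
    have hdt := dl_tc (D := D) l w' b hwb
    have htc : ∀ i j, tc l w' i j ∈ Xg π := by
      intro i j
      refine Fin.cases ?_ (fun j => ?_) j
      · exact hw
      · exact hl _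
    have hstep : ∀ i, ∃ (S : Finset A) (N : ℕ), (∀ w ∈ S, w ≠ 0) ∧ Odd N ∧
        Eqv D π (tc l w' i) S N := by
      intro i
      rcases hb i with h0 | h0
      · refine ⟨∅, 1, by simp, odd_one, eqv_zero ?_⟩
        have h1 := hdt i
        rw [h0, zero_mul, mul_zero] at h1
        exact (mul_eq_zero.1 h1).resolve_left two_ne_zero
      · refine ih (tc l w' i) (htc i) ⟨(-1) ^ (i : ℕ) * (b i * m), ?_, ?_⟩
        · intro h1
          have h2 : (2 : RR) ∣ b i * m := by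
            rcases neg_one_pow_eq_or RR (i : ℕ) with h3 | h3
            · rwa [h3, one_mul] at h1
            · rw [h3, neg_one_mul] at h1
              exact (dvd_neg).1 h1
          rcases two_prime.dvd_or_dvd h2 with h3 | h3
          · exact h0 h3
          · exact hm h3
        · have h1 := hdt i
          rw [hlm] at h1
          have h2 : (2 : RR) * D.dl (tc l w' i) = 2 * (2 ^ k * ((-1) ^ (i : ℕ) * (b i * m))) := by
            rw [h1]
            ring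
          exact mul_left_cancel₀ two_ne_zero h2
    have hgood : ∀ i, ∃ S : Finset A, (∀ w ∈ S, w ≠ 0) ∧ Good D π (tc l w' i) S := fun i =>
      good_all hγ (tc l w' i) (htc i)
    choose S N hS0 hNo hS using hstep
    choose T hT0 hT using hgood
    refine ⟨Finset.univ.biUnion S ∪ Finset.univ.biUnion T, ∏ i, N i, ?_, ?_, ?_⟩
    · intro x hx
      rcases Finset.mem_union.1 hx with hx | hx
      · obtain ⟨i, _, hi⟩ := Finset.mem_biUnion.1 hx
        exact hS0 i x hi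
      · obtain ⟨i, _, hi⟩ := Finset.mem_biUnion.1 hx
        exact hT0 i x hi
    · exact Finset.prod_induction N Odd (fun _ _ => Odd.mul) odd_one fun i _ => hNo i
    intro M _ φ φ' hM hC hC' hφπ hφπ' hSm hSm' L Ω h σ hww u u' huu hu hφ l0 l0' hl0 hl0'
    have hmS : ∀ i, ∀ x ∈ S i, x ∈ Finset.univ.biUnion S ∪ Finset.univ.biUnion T := fun i x hx =>
      Finset.mem_union_left _ (Finset.mem_biUnion.2 ⟨i, Finset.mem_univ i, hx⟩)
    have hmT : ∀ i, ∀ x ∈ T i, x ∈ Finset.univ.biUnion S ∪ Finset.univ.biUnion T := fun i x hx =>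
      Finset.mem_union_right _ (Finset.mem_biUnion.2 ⟨i, Finset.mem_univ i, hx⟩)
    choose p hp _ using fun i => hT i M φ hM hC hφπ fun x hx => hSm x (hmT i x hx)
    choose p' hp' _ using fun i => hT i M φ' hM hC' hφπ' fun x hx => hSm' x (hmT i x hx)
    have hNp : ∀ i, N i ∣ ∏ i, N i := fun i => Finset.dvd_prod_of_mem _ (Finset.mem_univ i)
    have hNpos : 0 < M * ∏ i, N i := by
      refine Nat.mul_pos (Nat.pos_of_ne_zero (NeZero.ne M)) ?_
      exact Finset.prod_pos fun i _ => (hNo i).pos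
    have hE : ∀ i, σ (D.P.det * p i / Ω ^ (r + 1)) = D.P.det * p' i / Ω ^ (r + 1) := fun i =>
      hS i M φ φ' hM hC hC' hφπ hφπ' (fun x hx => hSm x (hmS i x hx))
        (fun x hx => hSm' x (hmS i x hx)) L Ω h σ hww u u'
        (Dvd.dvd.trans (Nat.cast_dvd_cast (mul_dvd_mul_left M (hNp i))) huu)
        (hu.mul_right hNpos (hNp i)) hφ (p i) (p' i) (hp i) (hp' i)
    have key : ∀ ψ : A → ℂ, D.Cfu M ψ → (∀ x, ψ x ≠ 0 → π x ≠ 0) → ∀ (q : Fin (r + 1) → ℂ) (m0 : ℂ),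
        (∀ i, Tendsto (fun ρ => D.Ls ψ (tc l w' i) ρ * D.dv (tc l w' i)) (𝓝[>] 0) (𝓝 (q i))) →
        Tendsto (fun ρ => D.Ls ψ l ρ * D.dv l) (𝓝[>] 0) (𝓝 m0) →
        m0 = ∑ i : Fin (r + 1), (-1) ^ (i : ℕ) * q i := by
      intro ψ hψ hψπ q m0 hq hm0
      refine tendsto_nhds_unique hm0 ?_
      refine (tendsto_finsetSum _ fun i _ => (hq i).const_mul ((-1 : ℂ) ^ (i : ℕ))).congr' ?_
      filter_upwards [self_mem_nhdsWithin] with ρ (hρ : 0 < ρ)
      exact (cocycle hψ.bd l w' (fun j x hx => Xg_ne (hl j) (hψπ x hx))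
        (fun x hx => Xg_ne hw (hψπ x hx)) hρ).symm
    have e : ∀ q : Fin (r + 1) → ℂ, D.P.det * (∑ i : Fin (r + 1), (-1) ^ (i : ℕ) * q i) /
        Ω ^ (r + 1) = ∑ i : Fin (r + 1), (-1) ^ (i : ℕ) * (D.P.det * q i / Ω ^ (r + 1)) := by
      intro q
      rw [Finset.mul_sum, Finset.sum_div]
      exact Finset.sum_congr rfl fun i _ => by ring
    rw [key φ hC hφπ p l0 hp hl0, key φ' hC' hφπ' p' l0' hp' hl0', e, e, map_sum]
    refine Finset.sum_congr rfl fun i _ => ?_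
    rw [map_mul, map_pow, map_neg, map_one, hE i]

/-- **The limits and the automorphisms.** -/
theorem eqv_all [NoZeroSMulDivisors RR A] (hγ : IsCoprime γ 2) (l : Fin (r + 1) → (A →ₗ[RR] RR))
    (hl : ∀ j, l j ∈ Xg π) :
    ∃ (S : Finset A) (N : ℕ), (∀ w ∈ S, w ≠ 0) ∧ Odd N ∧ Eqv D π l S N := by
  by_cases h0 : D.dl l = 0
  · exact ⟨∅, 1, by simp, odd_one, eqv_zero h0⟩
  · obtain ⟨m, hm1, hm2⟩ := (FiniteMultiplicity.of_not_isUnit not_unit_two h0).exists_eq_pow_mul_and_not_dvd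
    exact eqv_pow hγ _ l hl ⟨m, hm2, hm1⟩

end Pool.Agent.H508.D
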