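import Pool.Graph.R_pool_sql_team_seeded_35f281b4.K7.H56.P.D
import Pool.Graph.R_pool_sql_team_seeded_35f281b4.K7.H70.AS.A
import Pool.Agent.H508.D.B

/-!
# The values at one and the automorphisms of the complex numbers
-/

set_option autoImplicit false
set_option linter.unusedSectionVars false
set_option linter.style.haveILetI false

open Complex Filter Topology Set MeasureTheory NumberField IsDedekindDomain
open scoped PeriodPair nonZeroDivisors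

namespace Pool.Agent.H508.D

open Pool.Agent.K7.H56
open Pool.Agent.K7.H56.P
open Pool.Agent.Y688 Pool.Agent.W192.HK Pool.Agent.TH936.CM Pool.Agent.R430 Pool.Agent.Y688.HF H667R3
open Equiv (Perm)
open Pool.Agent.K7.H56.GN (Nm Dt cx Cfu Vx gV Good kap)
open Pool.Agent.K7.H70.CL (Fe_thI SC)

variable {r : ℕ} {A : Type} [CommRing A] [Algebra RR A]

/-! ### the multiplier and the cubic symbol -/

lemma three_of {u u' : RR} {n : ℕ} (h3 : 3 ∣ n) (h : (n : RR) ∣ u * u' - 1) (hu : (3 : RR) ∣ u - 1) :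
    (3 : RR) ∣ u' - 1 := by
  obtain ⟨k, hk⟩ := h3
  obtain ⟨a, ha⟩ := h
  obtain ⟨b, hb⟩ := hu
  refine ⟨k * a - b * u', ?_⟩
  rw [hk] at ha
  push_cast at ha
  linear_combination ha - u' * hb

lemma ups_three {u : RR} (h : (3 : RR) ∣ u - 1) : ups u = 1 := by
  obtain ⟨t, ht⟩ := h
  have e : u = 1 + 3 * t := by linear_combination ht
  rw [e, ups_per, ups_one]

lemma ups_pow_mul {u : RR} (h : (3 : RR) ∣ u - 1) (k : ℕ) (a : RR) : ups (u ^ k * a) = ups a := by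
  induction k with
  | zero => rw [pow_zero, one_mul]
  | succ k ih =>
    rw [pow_succ', mul_assoc, ups_mul, ih, ups_three h, one_mul]

lemma fix_ups {σ : ℂ ≃+* ℂ} (hw : σ w = w) (a : RR) : σ (ups a) = ups a := by
  rcases ups_cases a with h | ⟨u, h, _⟩
  · rw [h, map_zero]
  · rw [h, fix_RR hw]

lemma fix_Nm (σ : ℂ ≃+* ℂ) (l : A) : σ (Nm l : ℂ) = (Nm l : ℂ) := by
  obtain ⟨N, hN⟩ := normSq_RR (Algebra.norm RR l)
  unfold GN.Nm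
  rw [hN]
  push_cast
  exact map_natCast σ N

lemma cop_of_dvd {n : ℕ} {u u' : RR} (h : (n : RR) ∣ u * u' - 1) {g : A} (hg : g ∣ (n : A)) :
    IsCoprime g (algebraMap RR A u') := by
  obtain ⟨a, ha⟩ := h
  obtain ⟨b, hb⟩ := hg
  refine ⟨-(b * algebraMap RR A a), algebraMap RR A u, ?_⟩
  have h1 := congrArg (algebraMap RR A) ha
  rw [map_sub, map_mul, map_mul, map_one, map_natCast, hb] at h1
  linear_combination h1

lemma dv_smul {n : ℕ} {u u' : RR} (h : (n : RR) ∣ u * u' - 1) {g : A} (hg : g ∣ (n : A)) (x : A) :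
    dv g (u' • x) = dv g x := by
  rw [Algebra.smul_def]
  exact dv_congr ⟨fun h1 => (cop_of_dvd h hg).dvd_of_dvd_mul_left h1, fun h1 => h1.mul_left _⟩

lemma norm_smul' (D : GN A r) (u : RR) (x : A) :
    Algebra.norm RR (u • x) = u ^ (r + 1) * Algebra.norm RR x := by
  rw [Algebra.smul_def, map_mul, Algebra.norm_algebraMap_of_basis D.b, Fintype.card_fin]

lemma Phi_act (D : GN A r) {n : ℕ} {σ : ℂ ≃+* ℂ} (hw : σ w = w) {u u' : RR}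
    (h : (n : RR) ∣ u * u' - 1) (h3 : (3 : RR) ∣ u' - 1) {g l : A} (hg : g ∣ (n : A)) (hl : l ∣ (n : A))
    {χ χ' : A → ℂ} (hχ : ∀ x, χ' x = σ (χ (u' • x))) (x : A) :
    Phi g l χ' x = σ (Phi g l χ (u' • x)) := by
  have hdv : ∀ y : A, ∀ z : A, σ (dv y z) = dv y z := by
    intro y z
    unfold Pool.Agent.Y688.dv
    split_ifs
    · rw [map_one]
    · rw [map_zero]
  unfold Phi md cc
  rw [dv_smul h hg, dv_smul h hl, norm_smul' D, ups_pow_mul h3, hχ, map_mul, map_mul, map_mul,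
    fix_ups hw, map_sub, map_sub, map_mul, map_mul, hdv, hdv, fix_Nm, map_one]

/-! ### the values -/

section val
variable {D : GN A r} [NoZeroSMulDivisors RR A] {ε : Fin r → Aˣ}
  {Λ : Fin (r + 1) → Fin (r + 1) → ℝ}
  {γ : RR} {π : A →+* (RR ⧸ sp γ)} {l0 : A →ₗ[RR] RR}
  {S : Perm (Fin r) → Finset A} {n : ℕ} [NeZero n]

theorem ok_act (hΛ0 : ∀ i, Λ 0 i = 1)
    (hΛ : ∀ (b : Fin r) i, Λ b.succ i = Real.log (normSq (D.σ i (ε b : A))))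
    (hl0 : l0 ∈ Xg π) (hS : ∀ τ, Good D π (fun j : Fin (r + 1) => vt (gA ε) l0 τ j) (S τ))
    {Q : Perm (Fin r) → ℕ}
    (hE : ∀ τ, Eqv D π (fun j : Fin (r + 1) => vt (gA ε) l0 τ j) (S τ) (Q τ)) (hQ : ∀ τ, Odd (Q τ))
    (hn : Odd n) {φ φ' : A → ℂ} (h : Ok D ε π l0 S n φ) (h' : Ok D ε π l0 S n φ') {L : PeriodPair}
    {Ω : ℂ} (hL : HL L Ω) {σ : ℂ ≃+* ℂ} (hw : σ w = w) {u u' : RR}
    (huu : ((n * ∏ τ, Q τ : ℕ) : RR) ∣ u * u' - 1) (hu : Act L Ω σ (n * ∏ τ, Q τ) u)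
    (hφ : ∀ x, φ' x = σ (φ (u' • x))) :
    σ (D.P.det * D.LI Λ φ 1 / Ω ^ (r + 1)) = D.P.det * D.LI Λ φ' 1 / Ω ^ (r + 1) := by
  obtain ⟨_, lm, hlm, h1, _⟩ := h.val hΛ0 hΛ hl0 hS hn
  obtain ⟨_, lm', hlm', h1', _⟩ := h'.val hΛ0 hΛ hl0 hS hn
  have hpos : 0 < n * ∏ τ, Q τ :=
    Nat.mul_pos (Nat.pos_of_ne_zero (NeZero.ne n)) (Finset.prod_pos fun τ _ => (hQ τ).pos)
  have key : ∀ τ, σ (D.P.det * lm τ / Ω ^ (r + 1)) = D.P.det * lm' τ / Ω ^ (r + 1) := by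
    intro τ
    have hd : Q τ ∣ ∏ τ, Q τ := Finset.dvd_prod_of_mem _ (Finset.mem_univ τ)
    exact hE τ n φ φ' hn h.cfu h'.cfu h.supp h'.supp (h.mz τ) (h'.mz τ) L Ω hL σ hw u u'
      (Dvd.dvd.trans (Nat.cast_dvd_cast (mul_dvd_mul_left n hd)) huu) (hu.mul_right hpos hd) hφ
      (lm τ) (lm' τ) (hlm τ) (hlm' τ)
  have e : ∀ q : Perm (Fin r) → ℂ, D.P.det * SS q / Ω ^ (r + 1) =
      ∑ τ, ((Perm.sign τ : ℤ) : ℂ) * (D.P.det * q τ / Ω ^ (r + 1)) := by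
    intro q
    unfold Pool.Agent.K7.H56.SS
    rw [Finset.mul_sum, Finset.sum_div]
    exact Finset.sum_congr rfl fun τ _ => by ring
  rw [h1, h1', e, e, map_sum]
  refine Finset.sum_congr rfl fun τ _ => ?_
  rw [map_mul, map_intCast, key τ]

end val

theorem core_A3 [IsDomain A] [NoZeroSMulDivisors RR A] (D : GN A r) (ε : Fin r → Aˣ)
    (Λ : Fin (r + 1) → Fin (r + 1) → ℝ) (hΛ0 : ∀ i, Λ 0 i = 1)
    (hΛ : ∀ (b : Fin r) i, Λ b.succ i = Real.log (normSq (D.σ i (ε b : A)))) {M : ℕ} (hM : Odd M)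
    (hM3 : 3 ∣ M)
    (cyn : ∀ W : ℕ, Odd W → ∃ l : A, Cyn l ∧ ¬ Pr1 (Algebra.norm RR l) ∧
      IsCoprime (Algebra.norm RR l) ((2 * (3 * W) : ℕ) : RR) ∧ (W : A) ∣ l - 1) :
    ∃ (g l : A) (n n' : ℕ), Ax M g ∧ Ax M l ∧ IsCoprime g l ∧ (M : A) ∣ g - 1 ∧ (M : A) ∣ l - 1 ∧
      (∀ χ, Chw M χ → D.Cfu n (Phi g l χ) ∧ Differentiable ℂ (D.LI Λ (Phi g l χ))) ∧
      Odd n' ∧ M ∣ n' ∧
      ∀ (L : PeriodPair) (Ω : ℂ), HL L Ω → ∀ (σ : ℂ ≃+* ℂ), σ w = w → ∀ u u' : RR,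
        (n' : RR) ∣ u * u' - 1 → Act L Ω σ n' u →
        ∀ χ χ', Chw M χ → Chw M χ' → (∀ x, χ' x = σ (χ (u' • x))) →
          σ (D.P.det * D.LI Λ (Phi g l χ) 1 / Ω ^ (r + 1)) =
            D.P.det * D.LI Λ (Phi g l χ') 1 / Ω ^ (r + 1) := by
  classical
  obtain ⟨g, hg, hgp, hgc, hg1⟩ := cyn M hM
  have hag : Ax M g := Ax.of hg hgp hgc dvd_rfl
  obtain ⟨π, hπ0, hπ⟩ := exists_pi hg
  obtain ⟨l0, hl0⟩ := exists_l0 D π hπ
  choose w hw0 hwk using fun (τ : Perm (Fin r)) (k : Fin r) =>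
    exists_kill D k k.2 (fun j => vt (gA ε) l0 τ j)
  choose S1 hS10 hS1 using fun τ => GN.good_all (D := D) hag.c2
    (fun j : Fin (r + 1) => vt (gA ε) l0 τ j) (fun j => vt_gA_mem ε hl0 τ j)
  choose S2 Q hS20 hQ hS2 using fun τ => eqv_all (D := D) hag.c2
    (fun j : Fin (r + 1) => vt (gA ε) l0 τ j) (fun j => vt_gA_mem ε hl0 τ j)
  set S : Perm (Fin r) → Finset A := fun τ => S1 τ ∪ S2 τ with hSdef
  have hS : ∀ τ, Good D π (fun j : Fin (r + 1) => vt (gA ε) l0 τ j) (S τ) := by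
    intro τ m _ φ hm hφ hsupp hmz
    exact hS1 τ m φ hm hφ hsupp fun x hx => hmz x (Finset.mem_union_left _ hx)
  have hE : ∀ τ, Eqv D π (fun j : Fin (r + 1) => vt (gA ε) l0 τ j) (S τ) (Q τ) := fun τ =>
    (hS2 τ).mono Finset.subset_union_right
  have hS0 : ∀ τ, ∀ x ∈ S τ, x ≠ 0 := by
    intro τ x hx
    rcases Finset.mem_union.1 hx with hx | hx
    · exact hS10 τ x hx
    · exact hS20 τ x hx
  set S' : Finset A := insert 1 (Finset.univ.biUnion fun τ => Finset.univ.image (w τ)) with hS'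
  set S'' : Finset A := S' ∪ Finset.univ.biUnion S with hS''
  have hS''0 : ∀ w ∈ S'', w ≠ 0 := by
    intro x hx
    rcases Finset.mem_union.1 hx with hx | hx
    · rcases Finset.mem_insert.1 hx with rfl | hx
      · exact one_ne_zero
      · obtain ⟨τ, _, hx⟩ := Finset.mem_biUnion.1 hx
        obtain ⟨k, _, rfl⟩ := Finset.mem_image.1 hx
        exact hw0 τ k
    · obtain ⟨τ, _, hx⟩ := Finset.mem_biUnion.1 hx
      exact hS0 τ x hx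
  obtain ⟨W, hW, hWl⟩ := exists_W0 D S'' hS''0
  obtain ⟨Ng, hNg0, hNg, hgn, hgd⟩ := exists_nat D hg.ne
  have hNgo : Odd Ng := odd_nsq hNg (coprime_not_dvd hag.c2)
  obtain ⟨l, hl, hlp, hlc, hl1⟩ := cyn (W * (M * Ng)) (hW.mul (hM.mul hNgo))
  have hal : Ax M l := Ax.of hl hlp hlc ⟨W * Ng, by ring⟩
  have halg : Ax (M * Ng) l := Ax.of hl hlp hlc ⟨W, by ring⟩
  obtain ⟨Nl, hNl0, hNl, hln, hld⟩ := exists_nat D hl.ne
  have hNlo : Odd Nl := odd_nsq hNl (coprime_not_dvd hal.c2)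
  have hM0 : M ≠ 0 := by
    rintro rfl
    exact absurd hM (by decide)
  have hcop : ∀ w ∈ S'', IsCoprime w l := by
    refine hWl l ?_
    exact hlc.of_isCoprime_of_dvd_right ⟨(3 * (M * Ng) : RR), by push_cast; ring⟩
  set n := M * Ng * Nl with hn
  have hno : Odd n := (hM.mul hNgo).mul hNlo
  have : NeZero n := ⟨mul_ne_zero (mul_ne_zero hM0 hNg0) hNl0⟩
  have hcfu1 : ∀ χ, Chw M χ → D.Cfu (M * Ng) (md (cc χ) 1 g) := fun χ hχ =>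
    md_cfu (cc_cfu D hχ) 1 hgd
  have hcfu : ∀ χ, Chw M χ → D.Cfu n (Phi g l χ) := fun χ hχ => md_cfu (hcfu1 χ hχ) _ hld
  have hmz : ∀ χ, Chw M χ → ∀ w ∈ S'', Mzv n (Phi g l χ) w := by
    intro χ hχ w hw
    exact mzv_cyn D (hcfu1 χ hχ).per hl halg.cM.symm hln (hcop w hw)
  have hk : ∀ (τ : Perm (Fin r)) k, k < r → ∃ w ∈ S', w ≠ 0 ∧
      (∀ j ≤ k, vt (gA ε) l0 τ j w = 0) := by
    intro τ k hk
    refine ⟨w τ ⟨k, hk⟩, ?_, hw0 τ ⟨k, hk⟩, hwk τ ⟨k, hk⟩⟩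
    exact Finset.mem_insert_of_mem (Finset.mem_biUnion.2 ⟨τ, Finset.mem_univ _,
      Finset.mem_image_of_mem _ (Finset.mem_univ _)⟩)
  have hone : ∃ w ∈ S', w ≠ 0 := ⟨1, Finset.mem_insert_self _ _, one_ne_zero⟩
  have hsub1 : ∀ w ∈ S', w ∈ S'' := fun w hw => Finset.mem_union_left _ hw
  have hok : ∀ χ, Chw M χ → Ok D ε π l0 S n (Phi g l χ) := by
    intro χ hχ
    refine ⟨hcfu χ hχ, ?_, ?_, ?_, ?_⟩
    · intro x hx h0
      apply hx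
      rw [hπ0] at h0
      unfold Phi md Pool.Agent.Y688.dv
      rw [if_pos h0]
      ring
    · intro τ w hw
      exact hmz χ hχ w (Finset.mem_union_right _ (Finset.mem_biUnion.2 ⟨τ, Finset.mem_univ _, hw⟩))
    · intro τ k hk'
      obtain ⟨w, hw, h0, h2⟩ := hk τ k hk'
      exact ⟨w, h0, h2, hmz χ hχ w (hsub1 w hw)⟩
    · obtain ⟨w, hw, h0⟩ := hone
      exact ⟨w, h0, hmz χ hχ w (hsub1 w hw)⟩
  have hval : ∀ φ, Ok D ε π l0 S n φ → _ := fun φ h => Ok.val hΛ0 hΛ hl0 hS hno h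
  have hgl : IsCoprime g l := by
    have h1 := halg.cop D
    refine (h1.of_isCoprime_of_dvd_right ?_).symm
    rw [Nat.cast_mul]
    exact hgd.mul_left _
  have hl1' : (M : A) ∣ l - 1 := by
    refine Dvd.dvd.trans ⟨(W * Ng : A), ?_⟩ hl1
    push_cast
    ring
  have hQo : Odd (∏ τ, Q τ) :=
    Finset.prod_induction Q Odd (fun _ _ => Odd.mul) odd_one fun i _ => hQ i
  have hgn' : g ∣ ((n * ∏ τ, Q τ : ℕ) : A) := by
    refine hgd.trans ?_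
    exact Nat.cast_dvd_cast ⟨M * Nl * ∏ τ, Q τ, by rw [hn]; ring⟩
  have hln' : l ∣ ((n * ∏ τ, Q τ : ℕ) : A) := by
    refine hld.trans ?_
    exact Nat.cast_dvd_cast ⟨M * Ng * ∏ τ, Q τ, by rw [hn]; ring⟩
  have hMn : M ∣ n * ∏ τ, Q τ := ⟨Ng * Nl * ∏ τ, Q τ, by rw [hn]; ring⟩
  refine ⟨g, l, n, n * ∏ τ, Q τ, hag, hal, hgl, hg1, hl1',
    fun χ hχ => ⟨hcfu χ hχ, (hval _ (hok χ hχ)).1⟩, hno.mul hQo, hMn,
    fun L Ω hL σ hww u u' huu hu χ χ' hχ hχ' hχx => ?_⟩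
  have hpos : 0 < n * ∏ τ, Q τ :=
    Nat.mul_pos (Nat.pos_of_ne_zero (NeZero.ne n)) hQo.pos
  have h3 : (3 : RR) ∣ u' - 1 := three_of (hM3.trans hMn) huu
    (hu.three hL hww hpos (hM3.trans hMn))
  exact ok_act hΛ0 hΛ hl0 hS hE hQ hno (hok χ hχ) (hok χ' hχ') hL hww huu hu
    (Phi_act D hww huu h3 hgn' hln' hχx)

theorem pz_A3 [IsDomain A] [NoZeroSMulDivisors RR A] (D : GN A r) (ε : Fin r → Aˣ)
    (Λ : Fin (r + 1) → Fin (r + 1) → ℝ) (hΛ0 : ∀ i, Λ 0 i = 1)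
    (hΛ : ∀ (b : Fin r) i, Λ b.succ i = Real.log (normSq (D.σ i (ε b : A))))
    (hdet : (Matrix.of Λ).det ≠ 0) {T : Subgroup Aˣ} [Finite T]
    (hU : Function.Bijective (fun p : T × (Fin r → ℤ) => (p.1 : Aˣ) * ∏ b, ε b ^ p.2 b))
    (hsum : ∀ t : ℝ, 1 < t → Summable (fun I : PI A => Nm (gp I) ^ (-t)))
    (cyn : ∀ W : ℕ, Odd W → ∃ l : A, Cyn l ∧ ¬ Pr1 (Algebra.norm RR l) ∧
      IsCoprime (Algebra.norm RR l) ((2 * (3 * W) : ℕ) : RR) ∧ (W : A) ∣ l - 1)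
    {M : ℕ} (hM : Odd M) (hM3 : 3 ∣ M) :
    ∃ n' : ℕ, Odd n' ∧ M ∣ n' ∧ ∀ χ χ' : A → ℂ, Chw M χ → Chw M χ' →
    ∃ f f' : ℂ → ℂ, PVA χ f ∧ PVA χ' f' ∧
      ∀ (L : PeriodPair) (Ω : ℂ), HL L Ω → ∀ (σ : ℂ ≃+* ℂ), σ w = w → ∀ u u' : RR,
        (n' : RR) ∣ u * u' - 1 → Act L Ω σ n' u → (∀ x, χ' x = σ (χ (u' • x))) →
          σ (D.P.det * f 1 / Ω ^ (r + 1)) = D.P.det * f' 1 / Ω ^ (r + 1) := by
  obtain ⟨g, l, n, n', hg, hl, hgl, hg1, hl1, hC, hn', hMn', hV⟩ := core_A3 D ε Λ hΛ0 hΛ hM hM3 cyn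
  refine ⟨n', hn', hMn', fun χ χ' hχ hχ' => ?_⟩
  have hk1 : (1 : ℂ) ^ 2 ^ 0 = 1 := one_pow _
  have hxg : ∀ β, χ (g * β) = 1 * χ β := fun β => by rw [one_mul]; exact chw_one hχ hg1 β
  have hxl : ∀ β, χ (l * β) = 1 * χ β := fun β => by rw [one_mul]; exact chw_one hχ hl1 β
  have hxg' : ∀ β, χ' (g * β) = 1 * χ' β := fun β => by rw [one_mul]; exact chw_one hχ' hg1 β
  have hxl' : ∀ β, χ' (l * β) = 1 * χ' β := fun β => by rw [one_mul]; exact chw_one hχ' hl1 β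
  refine ⟨_, _, fv_pva D hΛ0 hΛ hdet hU hsum hg hl hgl hχ (hC χ hχ).1 (hC χ hχ).2 hxg hxl
    (norm_root hk1) (norm_root hk1), fv_pva D hΛ0 hΛ hdet hU hsum hg hl hgl hχ' (hC χ' hχ').1
    (hC χ' hχ').2 hxg' hxl' (norm_root hk1) (norm_root hk1),
    fun L Ω hL σ hw u u' huu hu hχx => ?_⟩
  have a1 := hV L Ω hL σ hw u u' huu hu χ χ' hχ hχ' hχx
  set E := Ef g l 1 1 1 with hE
  have bE : σ E = E := by
    rw [hE, Ef_eq D hg hl]
    have hc : ∀ z : RR, σ ((starRingEnd ℂ) (z : ℂ)) = (starRingEnd ℂ) (z : ℂ) := fun z =>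
      fix_RR hw ⟨(starRingEnd ℂ) (z : ℂ), Pool.Agent.W287.HK.conj_mem qr _⟩
    rw [map_mul, map_sub, map_sub, map_mul, map_mul, map_div₀, map_mul, fix_RR hw, fix_ups hw,
      fix_ups hw, hc, map_one]
  set c0 : ℂ := (Nat.card T : ℂ) * cst Λ with hc0
  have hvc : σ c0 = c0 := by
    rw [hc0, map_mul, map_natCast]
    rcases cst_eq hdet with h | h
    · rw [h, map_one]
    · rw [h, map_neg, map_one]
  have f1 : ∀ ψ : A → ℂ, D.P.det * fv D Λ c0 g l ψ 1 1 1 / Ω ^ (r + 1) =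
      c0⁻¹ * (D.P.det * D.LI Λ (Phi g l ψ) 1 / Ω ^ (r + 1)) / E := by
    intro ψ
    unfold fv
    rw [Complex.Gamma_one, inv_one, one_pow, one_mul]
    ring
  rw [f1, f1, map_div₀, map_mul, map_inv₀, bE, hvc, a1]

end Pool.Agent.H508.D
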