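import Pool.Agent.H508.D.C

/-!
# The values at one of the series of a field and the automorphisms of the complex numbers
-/

set_option autoImplicit false
set_option linter.unusedSectionVars false
set_option linter.style.haveILetI false

open Complex Filter Topology Set MeasureTheory NumberField IsDedekindDomain
open scoped PeriodPair nonZeroDivisors

namespace Pool.Agent.H508.D

open Pool.Agent.K7.H56
open Pool.Agent.K7.H56.P
open Pool.Agent.W192.HK Pool.Agent.TH936.CM Pool.Agent.R430 H667R3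
open Pool.Agent.Y688 (RR wR w wR_coe NI HL euler v_sub_one v_root)
open Pool.Agent.Y696
open Equiv (Perm)
open Pool.Agent.K7.H56.GN (Nm Dt cx Cfu Vx gV Good kap)
open Pool.Agent.K7.H70.CL (Fe_thI SC)
open Pool.Agent.K7.H73.GN (Em emF τf τf_w card_em fin_RR free_RR finrank_RR det_ne)

section
variable {N : Type} [Field N] [NumberField N] (ι : RR →+* 𝓞 N)

/-- the chosen basis -/
noncomputable def bN {r : ℕ} (hN : Module.finrank ℚ N = 2 * (r + 1)) :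
    letI := ι.toAlgebra; Module.Basis (Fin (r + 1)) RR (𝓞 N) :=
  letI := ι.toAlgebra
  haveI := fin_RR ι
  haveI := free_RR ι
  Module.finBasisOfFinrankEq RR (𝓞 N) (finrank_RR ι hN)

/-- the chosen data -/
noncomputable def DG {r : ℕ} (hN : Module.finrank ℚ N = 2 * (r + 1)) :
    letI := ι.toAlgebra; GN (𝓞 N) r :=
  letI := ι.toAlgebra
  ⟨bN ι hN, fun i => (τf ι hN i).comp (algebraMap (𝓞 N) N), fun i a => emb_ext (τf_w ι hN i) a,
    det_ne ι hN (bN ι hN)⟩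

/-- the determinant of the embeddings -/
noncomputable def dlt {r : ℕ} (hN : Module.finrank ℚ N = 2 * (r + 1)) : ℂ :=
  (Matrix.of fun i j => τf ι hN i ((bN ι hN j : 𝓞 N) : N)).det

lemma dlt_ne {r : ℕ} (hN : Module.finrank ℚ N = 2 * (r + 1)) : dlt ι hN ≠ 0 :=
  det_ne ι hN (bN ι hN)

theorem pz3 (r : ℕ) (hfin : Module.finrank ℚ N = 2 * (r + 1)) (hU2 : Unr2 N)
    {M : ℕ} (hM : Odd M) (hM3 : 3 ∣ M) :
    ∃ n' : ℕ, Odd n' ∧ M ∣ n' ∧ ∀ χ χ' : 𝓞 N → ℂ, Chw M χ → Chw M χ' →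
    ∃ f f' : ℂ → ℂ, PV ι χ f ∧ PV ι χ' f' ∧
      ∀ (L : PeriodPair) (Ω : ℂ), HL L Ω → ∀ (σ : ℂ ≃+* ℂ), σ w = w → ∀ u u' : RR,
        (n' : RR) ∣ u * u' - 1 → Act L Ω σ n' u → (∀ x, χ' x = σ (χ (ι u' * x))) →
          σ (dlt ι hfin * f 1 / Ω ^ (r + 1)) = dlt ι hfin * f' 1 / Ω ^ (r + 1) := by
  letI := ι.toAlgebra
  obtain ⟨⟨_, _⟩, hrN⟩ := Pool.Agent.K7.H73.GN.geo N ι r hfin
  obtain ⟨ε, hbij, hdet⟩ := Pool.Agent.K7.H73.GN.uni N ι r hfin (DG ι hfin)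
  haveI : NoZeroSMulDivisors RR (𝓞 N) := ntz (𝓞 N) (DG ι hfin)
  have hsum : ∀ t : ℝ, 1 < t → Summable (fun I : PI (𝓞 N) => GN.Nm (gp I) ^ (-t)) := by
    intro t ht
    have h1 := Pool.Agent.K7.H73.GN.sum_ideals N t ht
    have hi : Function.Injective (fun I : PI (𝓞 N) => (⟨I.1, I.2.1⟩ : NI (𝓞 N))) := by
      intro I J h
      have h' : I.1 = J.1 := congrArg (fun z : NI (𝓞 N) => z.1) h
      exact Subtype.ext h'
    refine (h1.comp_injective hi).congr fun I => ?_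
    simp only [Function.comp_apply]
    rw [← abs_Nm ι hrN, gp_span]
  obtain ⟨n', hn', hMn', h⟩ := pz_A3 (DG ι hfin) ε _ (fun _ => rfl) (fun _ _ => rfl) hdet hbij hsum
    (fun W hW => cyn2 N ι r hfin hU2 W hW) hM hM3
  refine ⟨n', hn', hMn', fun χ χ' hχ hχ' => ?_⟩
  obtain ⟨f, f', hf, hf', hv⟩ := h χ χ' hχ hχ'
  have conv : ∀ {χ : 𝓞 N → ℂ} {f : ℂ → ℂ}, PVA χ f → PV ι χ f := fun {χ f} h =>
    ⟨h.mero, h.an, fun s hs => (h.sum s hs).congr_fun fun I => Fe_eq ι hrN χ s (gp I)⟩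
  refine ⟨f, f', conv hf, conv hf', fun L Ω hL σ hw u u' huu hu hχx => ?_⟩
  exact hv L Ω hL σ hw u u' huu hu fun x => by rw [hχx x, Algebra.smul_def]; rfl

/-! ### the passage to the ideals -/

variable {ι}

lemma PV.eq_one {χ : 𝓞 N → ℂ} {f g : ℂ → ℂ} (hf : PV ι χ f) (hg : PV ι χ g) : f 1 = g 1 :=
  Pool.Agent.K7.H70.AS.mero_eq2 hf.mero hg.mero (fun s hs => (hf.sum s hs).unique (hg.sum s hs))
    hf.an hg.an

lemma VV.eq_one {X : Ideal (𝓞 N) → ℂ} {f g : ℂ → ℂ} (hf : VV ι X f) (hg : VV ι X g) : f 1 = g 1 :=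
  Pool.Agent.K7.H70.AS.mero_eq2 hf.mero hg.mero (fun s hs => (hf.sum s hs).unique (hg.sum s hs))
    hf.an hg.an

lemma PV.smul {χ : 𝓞 N → ℂ} {f : ℂ → ℂ} (c : ℂ) (hf : PV ι χ f) :
    PV ι (fun x => c * χ x) (fun s => c * f s) := by
  refine ⟨fun z hz => ?_, analyticAt_const.mul hf.an, fun s hs => ?_⟩
  · exact (analyticAt_const.meromorphicAt).mul (hf.mero z hz)
  · refine ((hf.sum s hs).mul_left c).congr_fun fun I => ?_
    unfold Fe
    ring

lemma Chw.smul {M : ℕ} {χ : 𝓞 N → ℂ} {c : ℂ} (hc : ‖c‖ ≤ 1) (h : Chw M χ) :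
    Chw M (fun x => c * χ x) where
  unit u α := by rw [h.unit]
  per α γ := by rw [h.per]
  bd α := by
    rw [norm_mul]
    exact mul_le_one₀ hc (norm_nonneg _) (h.bd α)
  three := h.three
  odd := h.odd

end

/-- **The values at one and the automorphisms.** -/
theorem core_gen3 (N : Type) [Field N] [NumberField N] (ι : RR →+* 𝓞 N) (r : ℕ)
    (hd : Module.finrank ℚ N = 2 * (r + 1)) (hU : Unr2 N) (n : ℕ) (hn : Odd n) :
    ∃ n' : ℕ, Odd n' ∧ n ∣ n' ∧ 3 ∣ n' ∧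
      ∀ X X' : Ideal (𝓞 N) → ℂ, IH n X → IH n X' → ∀ f f' : ℂ → ℂ, VV ι X f → VV ι X' f' →
      ∀ (L : PeriodPair) (Ω : ℂ), HL L Ω → ∀ (σ : ℂ ≃+* ℂ), σ w = w → (∀ I, X' I = σ (X I)) →
        ∀ u u' : RR, (n' : RR) ∣ u * u' - 1 → Act L Ω σ n' u →
          σ (dlt ι hd * f 1 / Ω ^ (r + 1)) =
            X' (Ideal.span {ι u'}) * (dlt ι hd * f' 1 / Ω ^ (r + 1)) := by
  have hn0 : n ≠ 0 := by
    obtain ⟨k, hk⟩ := hn
    omega
  obtain ⟨a, ha⟩ := exists_reps (N := N) (n := 6 * n) (by omega)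
  obtain ⟨M, h3, hM, hnM, hMa⟩ := exists_mod hn ha
  obtain ⟨n', hn', hMn', key⟩ := pz3 ι r hd hU hM h3
  refine ⟨n', hn', hnM.trans hMn', h3.trans hMn', ?_⟩
  intro X X' hX hX' f f' hf hf' L Ω hL σ hw hXX u u' huu hu
  set x0 := X' (Ideal.span {ι u'}) with hx0
  have hcop : IsCoprime (ι u') (n' : 𝓞 N) := by
    obtain ⟨k, hk⟩ := huu
    refine ⟨ι u, -ι k, ?_⟩
    have h1 := congrArg ι hk
    rw [map_sub, map_mul, map_mul, map_one, map_natCast] at h1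
    linear_combination h1
  have hcopM : IsCoprime (ι u') (M : 𝓞 N) :=
    hcop.of_isCoprime_of_dvd_right (Nat.cast_dvd_cast hMn')
  have hcopn : IsCoprime (Ideal.span {ι u'}) (Ideal.span {(n : 𝓞 N)}) := by
    rw [Ideal.isCoprime_span_singleton_iff]
    exact hcop.of_isCoprime_of_dvd_right (Nat.cast_dvd_cast (hnM.trans hMn'))
  have hx00 : x0 ≠ 0 := hX'.ne _ hcopn
  have hx01 : ‖x0‖ ≤ 1 := hX'.bd _
  have hch : ∀ c, Chw M (thI X (a c)) := fun c => hX.chw h3 hM hnM (hMa c)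
  have hch' : ∀ c, Chw M (thI X' (a c)) := fun c => hX'.chw h3 hM hnM (hMa c)
  choose F F' hF hF' hval using fun c => key (thI X (a c)) (fun x => x0 * thI X' (a c) x) (hch c)
    (Chw.smul hx01 (hch' c))
  have hF2 : ∀ c, PV ι (thI X' (a c)) (fun s => x0⁻¹ * F' c s) := by
    intro c
    have h1 := PV.smul x0⁻¹ (hF' c)
    have e : (fun x => x0⁻¹ * (x0 * thI X' (a c) x)) = thI X' (a c) := by
      funext x
      rw [inv_mul_cancel_left₀ hx00]
    rwa [e] at h1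
  have e1 : f 1 = SC ι X a F 1 := VV.eq_one hf (SC_VVy hX ha hF)
  have e2 : f' 1 = SC ι X' a (fun c s => x0⁻¹ * F' c s) 1 := VV.eq_one hf' (SC_VVy hX' ha hF2)
  have hact : ∀ c, ∀ x, x0 * thI X' (a c) x = σ (thI X (a c) (ι u' * x)) := by
    intro c x
    rw [hX.thI_mul (hMa c) hcopM, map_mul, ← hXX, ← hx0]
    congr 1
    by_cases hx : x ∈ a c
    · rw [thI_pos hx, thI_pos hx, hXX]
    · rw [thI_neg hx, thI_neg hx, map_zero]
  have hv := fun c => hval c L Ω hL σ hw u u' huu hu (hact c)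
  have hg : ∀ c, σ (gI ι X 1 (a c))⁻¹ = (gI ι X' 1 (a c))⁻¹ := by
    intro c
    obtain ⟨b, hb⟩ := PN_mem (ι := ι) (a c)
    unfold gI
    rw [hb, Complex.cpow_neg_one, map_inv₀, map_mul, map_mul, map_inv₀, map_natCast, hXX]
    congr 3
    exact fix_RR hw b
  rw [e1, e2]
  unfold SC
  rw [Finset.mul_sum, Finset.mul_sum, Finset.sum_div, Finset.sum_div, map_sum, Finset.mul_sum]
  refine Finset.sum_congr rfl fun c _ => ?_
  have e3 : dlt ι hd * ((gI ι X 1 (a c))⁻¹ * F c 1) / Ω ^ (r + 1) =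
      (gI ι X 1 (a c))⁻¹ * (dlt ι hd * F c 1 / Ω ^ (r + 1)) := by ring
  rw [e3, map_mul, hg, hv c]
  field_simp

end Pool.Agent.H508.D
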