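import Pool.Graph.R_pool_sql_team_seeded_35f281b4.K7.H70.AW.St
import Pool.Graph.R_seed8.R389.Sol
import Pool.Graph.R_seed8.R389.Del

/-!
# Brauer's induction theorem
-/

set_option autoImplicit false

namespace Pool.Agent.H508.D

open Pool.Agent.R389 (ind ind_eq MonG virt_mem_mon char_memP)
open Pool.Agent.K7.H70.AW (JJ)
open Pool.Agent.H541R3.ART (Irr)

variable {G : Type} [Group G] [Fintype G]

lemma ind_JJ (C : Subgroup G) (χ : C → ℂ) (g : G) :
    ind C χ g = (Nat.card C : ℂ)⁻¹ * JJ C χ g := by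
  classical
  rw [ind_eq]
  rfl

/-- integral combinations of the characters induced from linear characters -/
def LC (f : G → ℂ) : Prop :=
  ∃ (ι : Type) (_ : Fintype ι) (C : ι → Subgroup G) (X : ∀ i, C i →* ℂˣ) (n : ι → ℤ),
    ∀ g, f g = ∑ i, (n i : ℂ) * ((Nat.card (C i) : ℂ)⁻¹ * JJ (C i) (fun c => ((X i c : ℂˣ) : ℂ)) g)

lemma LC_of_mon {f : G → ℂ} (hf : f ∈ MonG G) : LC f := by
  unfold MonG at hf
  induction hf using AddSubgroup.closure_induction with
  | mem f hf =>
    obtain ⟨U, ψ, -, rfl⟩ := hf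
    refine ⟨Unit, inferInstance, fun _ => U, fun _ => ψ, fun _ => 1, fun g => ?_⟩
    rw [Fintype.sum_unique, Int.cast_one, one_mul, ind_JJ]
  | zero =>
    refine ⟨Empty, inferInstance, fun _ => ⊤, fun i => i.elim, fun _ => 0, fun g => ?_⟩
    rw [Fintype.sum_empty]
    rfl
  | add a b _ _ ha hb =>
    obtain ⟨ι, _, C, X, n, h⟩ := ha
    obtain ⟨ι', _, C', X', n', h'⟩ := hb
    refine ⟨ι ⊕ ι', inferInstance, Sum.elim C C', fun i => Sum.rec X X' i, Sum.elim n n',
      fun g => ?_⟩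
    rw [Fintype.sum_sum_type, Pi.add_apply, h, h']
    rfl
  | neg a _ ha =>
    obtain ⟨ι, _, C, X, n, h⟩ := ha
    refine ⟨ι, inferInstance, C, X, fun i => -n i, fun g => ?_⟩
    rw [Pi.neg_apply, h, ← Finset.sum_neg_distrib]
    refine Finset.sum_congr rfl fun i _ => ?_
    rw [Int.cast_neg, neg_mul]

/-- **Brauer's induction theorem** -/
theorem brauer {V : Type} [AddCommGroup V] [Module ℂ V] [FiniteDimensional ℂ V]
    (ρ : Representation ℂ G V) : LC (fun g => LinearMap.trace ℂ V (ρ g)) := by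
  refine LC_of_mon (virt_mem_mon ?_)
  have h1 := char_memP (Module.finrank ℂ V) ρ rfl
  show ρ.character ∈ AddSubgroup.closure (Irr G)
  have h2 : AddSubmonoid.closure (Irr G) ≤ (AddSubgroup.closure (Irr G)).toAddSubmonoid :=
    AddSubmonoid.closure_le.2 AddSubgroup.subset_closure
  exact h2 h1

end Pool.Agent.H508.D
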