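import Pool.Graph.R_seed8.TH936.PU.Mul
import Pool.Graph.R_seed8.TH936.PU.Red
import Pool.Agent.H508.D.A

/-!
# The product formula for `℘ (π z)`
-/

set_option autoImplicit false

open Complex Filter Topology
open scoped PeriodPair

namespace Pool.Agent.H508.D

open Pool.Agent.Y688 Pool.Agent.W192.HK Pool.Agent.TH936.CM Pool.Agent.TH936.PU Pool.Agent.R430
open Pool.Agent.W245.EB H667R3

variable {L : PeriodPair} {Ω : ℂ}

lemma lam_sq : (w - 1) * (w - 1) = -(3 * w) := by
  have := w_sq
  linear_combination this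

/-- a point of order three with `℘ = 0` -/
lemma exists_T (h : HL L Ω) : ∃ T : ℂ, T ∉ L.lattice ∧ 3 * T ∈ L.lattice ∧ ℘[L] T = 0 := by
  have hΩ := h.ne
  refine ⟨Ω * (w - 1) / 3, ?_, ?_, ?_⟩
  · intro hT
    have e : Ω * (w - 1) / 3 = Ω * ((wR - 1 : RR) : ℂ) / ((3 : ℕ) : ℂ) := by
      push_cast
      rw [wR_coe]
    rw [e, lat_iff h.toIsLat (by norm_num)] at hT
    obtain ⟨k, hk⟩ := hT
    have h1 : (3 : ℂ) * k = w - 1 := by
      have := congrArg (fun z : RR => (z : ℂ)) hk
      push_cast at this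
      rw [wR_coe] at this
      exact this.symm
    have h2 : (3 : ℂ) * (k * k) = -w := by
      have h3 := lam_sq
      rw [← h1] at h3
      have h4 : (3 : ℂ) * (3 * (k * k)) = 3 * (-w) := by linear_combination h3
      exact mul_left_cancel₀ (by norm_num) h4
    have h3 := congrArg Complex.normSq h2
    rw [map_mul, map_mul, Complex.normSq_neg] at h3
    obtain ⟨N, hN⟩ := normSq_RR k
    have h4 : Complex.normSq w = 1 := by
      have h5 := congrArg Complex.normSq w3
      rw [map_mul, map_mul, map_one] at h5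
      have h6 := Complex.normSq_nonneg w
      nlinarith [sq_nonneg (Complex.normSq w - 1), sq_nonneg (Complex.normSq w)]
    have h5 : Complex.normSq (3 : ℂ) = 9 := by
      have : (3 : ℂ) = ((3 : ℝ) : ℂ) := by push_cast; rfl
      rw [this, Complex.normSq_ofReal]
      norm_num
    rw [h4, h5, hN] at h3
    have h6 : (9 * (N * N) : ℕ) = 1 := by exact_mod_cast h3
    omega
  · have e : 3 * (Ω * (w - 1) / 3) = Ω * ((wR - 1 : RR) : ℂ) := by
      push_cast
      rw [wR_coe]
      field_simp
    rw [e]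
    exact h.toIsLat.mem_mul _
  · have h1 : w * (Ω * (w - 1) / 3) - Ω * (w - 1) / 3 ∈ L.lattice := by
      have e : w * (Ω * (w - 1) / 3) - Ω * (w - 1) / 3 = Ω * ((-wR : RR) : ℂ) := by
        push_cast
        rw [wR_coe]
        linear_combination (Ω / 3) * lam_sq
      rw [e]
      exact h.toIsLat.mem_mul _
    have h2 := wp_per h1
    rw [wp_w h.toIsLat] at h2
    have h3 : (w - 1) * ℘[L] (Ω * (w - 1) / 3) = 0 := by linear_combination h2
    rcases mul_eq_zero.1 h3 with h4 | h4
    · exfalso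
      have h5 := lam_sq
      rw [h4, zero_mul] at h5
      have h6 : w = 0 := by
        have : (3 : ℂ) * w = 0 := by linear_combination h5
        exact (mul_eq_zero.1 this).resolve_left (by norm_num)
      exact w_ne h6
    · exact h4

lemma pi_T {π : RR} (h : HL L Ω) (h3 : (3 : RR) ∣ π - 1) {T : ℂ} (hT : 3 * T ∈ L.lattice) :
    (π : ℂ) * T - T ∈ L.lattice := by
  obtain ⟨k, hk⟩ := h3
  have h1 := h.toIsLat.mul k _ hT
  have e : (π : ℂ) * T - T = k * (3 * T) := by
    have := congrArg (fun z : RR => (z : ℂ)) hk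
    push_cast at this
    have h3 : ((3 : RR) : ℂ) = 3 := rfl
    rw [h3] at this
    linear_combination T * this
  rwa [e]

section prod
variable {π : RR} (h : HL L Ω) (h0 : π ≠ 0) (h3 : (3 : RR) ∣ π - 1)

include h h0 in
lemma mulz {z : ℂ} (q : RR ⧸ sp π) (hz : z + Ω * q.out / π ∈ L.lattice) : π * z ∈ L.lattice := by
  have ha0 := coe_ne h0
  have h3 := h.toIsLat.mul π _ hz
  have e : (π : ℂ) * z = π * (z + Ω * q.out / π) - Ω * q.out := by
    field_simp
    ring
  rw [e]
  exact sub_mem h3 (h.toIsLat.mem_mul _)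

include h h0 in
/-- every point above -/
lemma exists_q {z : ℂ} (hz : π * z ∈ L.lattice) : ∃ q : RR ⧸ sp π, z + Ω * q.out / π ∈ L.lattice := by
  have ha0 := coe_ne h0
  obtain ⟨r, hr⟩ := (h.toIsLat.mem _).1 hz
  refine ⟨Ideal.Quotient.mk _ (-r), ?_⟩
  have h1 := out_mk (sp π) (-r)
  obtain ⟨k, hk⟩ := Ideal.mem_span_singleton.1 h1
  have e : z + Ω * (Ideal.Quotient.mk (sp π) (-r)).out / π = Ω * ((-k : RR) : ℂ) := by
    have h2 := congrArg (fun z : RR => (z : ℂ)) hk
    push_cast at h2
    have h4 : z = Ω * r / π := by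
      rw [← hr]
      field_simp
    rw [h4]
    have h5 : (((Ideal.Quotient.mk (sp π) (-r)).out : RR) : ℂ) = -r - π * k := by
      linear_combination -h2
    rw [h5]
    push_cast
    field_simp
    ring
  rw [e]
  exact h.toIsLat.mem_mul _

include h h0 h3 in
theorem prod_pi [Fintype (RR ⧸ sp π)] : ∃ c : ℂ, c ≠ 0 ∧ ∀ z : ℂ, (π : ℂ) * z ∉ L.lattice →
    ℘[L] (π * z) = c * ∏ q : RR ⧸ sp π, ℘[L] (z + Ω * q.out / π) := by
  have ha0 := coe_ne h0
  obtain ⟨T, hT, hT3, hT0⟩ := exists_T h
  have hπT := pi_T h h3 hT3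
  set S : Set ℂ := {z : ℂ | (π : ℂ) * z ∉ L.lattice ∧ (π : ℂ) * z + T ∉ L.lattice ∧
    (π : ℂ) * z - T ∉ L.lattice} with hS
  have hcl : IsClosed (L.lattice : Set ℂ) := L.isClosed_lattice
  have hcount : (L.lattice : Set ℂ).Countable := countable_of_Lindelof_of_discrete (X := L.lattice)
  have hSc : S = ((fun z : ℂ => π * z) ⁻¹' L.lattice ∪ ((fun z : ℂ => π * z + T) ⁻¹' L.lattice ∪
      (fun z : ℂ => π * z - T) ⁻¹' L.lattice))ᶜ := by
    ext z
    simp only [hS, Set.mem_ofPred_eq, Set.mem_compl_iff, Set.mem_union, Set.mem_preimage,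
      SetLike.mem_coe, not_or]
  have hopen : IsOpen S := by
    rw [hSc, isOpen_compl_iff]
    exact (hcl.preimage (by fun_prop)).union ((hcl.preimage (by fun_prop)).union
      (hcl.preimage (by fun_prop)))
  have hconn : IsConnected S := by
    rw [hSc]
    refine Set.Countable.isConnected_compl_of_one_lt_rank (by simp) ?_
    refine Set.Countable.union ?_ (Set.Countable.union ?_ ?_)
    · exact hcount.preimage fun a b hab => mul_left_cancel₀ ha0 hab
    · exact hcount.preimage fun a b hab => mul_left_cancel₀ ha0 (add_right_cancel hab)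
    · exact hcount.preimage fun a b hab => mul_left_cancel₀ ha0 (sub_left_injective hab)
  have hadd : ∀ z ∈ S, π * z + π * T ∉ L.lattice := by
    intro z hz h1
    apply hz.2.1
    have e : π * z + T = π * z + π * T - (π * T - T) := by ring
    rw [e]
    exact sub_mem h1 hπT
  have hsub : ∀ z ∈ S, π * z - π * T ∉ L.lattice := by
    intro z hz h1
    apply hz.2.2
    have e : π * z - T = π * z - π * T + (π * T - T) := by ring
    rw [e]
    exact add_mem h1 hπT
  have hT' : (π : ℂ) * T ∉ L.lattice := by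
    intro h1
    apply hT
    have e : T = π * T - (π * T - T) := by ring
    rw [e]
    exact sub_mem h1 hπT
  have hq1 : ∀ z ∈ S, ∀ q : RR ⧸ sp π, z + Ω * q.out / π ∉ L.lattice := fun z hz q hq =>
    hz.1 (mulz h h0 q hq)
  have hq2 : ∀ z ∈ S, ∀ q : RR ⧸ sp π, ℘[L] (z + Ω * q.out / π) ≠ 0 := by
    intro z hz q hq
    rw [← hT0, wp_eq_iff L (hq1 z hz q) hT] at hq
    rcases hq with hq | hq
    · refine hadd z hz ?_
      rw [← mul_add]
      refine mulz h h0 q ?_
      rwa [add_right_comm]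
    · refine hsub z hz ?_
      rw [← mul_sub]
      refine mulz h h0 q ?_
      rwa [sub_add_eq_add_sub]
  have hf0 : ∀ z ∈ S, ℘[L] (π * z) ≠ 0 := by
    intro z hz hq
    rw [← hT0, wp_eq_iff L hz.1 hT] at hq
    rcases hq with hq | hq
    · exact hz.2.1 hq
    · exact hz.2.2 hq
  have hd1 : ∀ z ∈ S, HasDerivAt (fun z => ℘[L] (π * z)) (℘'[L] (π * z) * π) z := by
    intro z hz
    have h1 : HasDerivAt (fun z : ℂ => (π : ℂ) * z) π z := by
      simpa using (hasDerivAt_id z).const_mul (π : ℂ)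
    exact (hasDerivAt_weierstrassP L hz.1).comp z h1
  have hd2 : ∀ z ∈ S, ∀ q : RR ⧸ sp π, HasDerivAt (fun z => ℘[L] (z + Ω * q.out / π))
      (℘'[L] (z + Ω * q.out / π)) z := by
    intro z hz q
    have := (hasDerivAt_weierstrassP L (hq1 z hz q)).comp_add_const z (Ω * q.out / π)
    exact this
  have hlog : Set.EqOn (logDeriv (fun z => ℘[L] (π * z)))
      (logDeriv (fun z => ∏ q : RR ⧸ sp π, ℘[L] (z + Ω * q.out / π))) S := by
    intro z hz
    rw [logDeriv_prod (f := fun (q : RR ⧸ sp π) z => ℘[L] (z + Ω * q.out / π))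
      (fun q _ => hq2 z hz q) fun q _ => (hd2 z hz q).differentiableAt]
    simp only [logDeriv_apply]
    rw [(hd1 z hz).deriv]
    have h1 := Dd_dist h.toIsLat π h0 hz.1 hT' (hadd z hz) (hsub z hz)
    unfold Dd at h1
    rw [wp_per hπT, hT0, sub_zero] at h1
    have e : ∀ q : RR ⧸ sp π, deriv (fun z => ℘[L] (z + Ω * q.out / π)) z /
        ℘[L] (z + Ω * q.out / π) = ℘'[L] (z + Ω * q.out / π) /
          (℘[L] (z + Ω * q.out / π) - ℘[L] T) := by
      intro q
      rw [(hd2 z hz q).deriv, hT0, sub_zero]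
    rw [Finset.sum_congr rfl fun q _ => e q, mul_div_right_comm, h1, hT0]
    field_simp
  have hdp : ∀ z ∈ S, DifferentiableAt ℂ (fun z => ∏ q : RR ⧸ sp π,
      ℘[L] (z + Ω * q.out / π)) z := fun z hz =>
    DifferentiableAt.fun_finsetProd (f := fun (q : RR ⧸ sp π) z => ℘[L] (z + Ω * q.out / π))
      fun q _ => (hd2 z hz q).differentiableAt
  obtain ⟨c, hc0, hc⟩ := (logDeriv_eqOn_iff (𝕜 := ℂ) (fun z hz =>
    (hd1 z hz).differentiableAt.differentiableWithinAt) (fun z hz =>
      (hdp z hz).differentiableWithinAt)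
    hopen hconn.isPreconnected (fun z hz => Finset.prod_ne_zero_iff.2 fun q _ => hq2 z hz q) hf0).1
    hlog
  refine ⟨c, hc0, fun z hz => ?_⟩
  by_cases hzS : z ∈ S
  · exact hc hzS
  · have h1 : π * (z + T) ∈ L.lattice ∨ π * (z - T) ∈ L.lattice := by
      simp only [hS, Set.mem_ofPred_eq, not_and_or, not_not] at hzS
      rcases hzS with h1 | h1 | h1
      · exact absurd h1 hz
      · left
        have e : π * (z + T) = π * z + T + (π * T - T) := by ring
        rw [e]
        exact add_mem h1 hπT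
      · right
        have e : π * (z - T) = π * z - T - (π * T - T) := by ring
        rw [e]
        exact sub_mem h1 hπT
    have h2 : ℘[L] (π * z) = 0 := by
      rw [← hT0, wp_eq_iff L hz hT]
      rcases h1 with h1 | h1
      · left
        have e : π * z + T = π * (z + T) - (π * T - T) := by ring
        rw [e]
        exact sub_mem h1 hπT
      · right
        have e : π * z - T = π * (z - T) + (π * T - T) := by ring
        rw [e]
        exact add_mem h1 hπT
    have h4 : ∃ q : RR ⧸ sp π, ℘[L] (z + Ω * q.out / π) = 0 := by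
      rcases h1 with h1 | h1
      · obtain ⟨q, hq⟩ := exists_q h h0 h1
        refine ⟨q, ?_⟩
        have e : z + T + Ω * q.out / π = z + Ω * q.out / π - -T := by ring
        rw [e] at hq
        rw [wp_per hq, L.weierstrassP_neg, hT0]
      · obtain ⟨q, hq⟩ := exists_q h h0 h1
        refine ⟨q, ?_⟩
        have e : z - T + Ω * q.out / π = z + Ω * q.out / π - T := by ring
        rw [e] at hq
        rw [wp_per hq, hT0]
    obtain ⟨q, hq⟩ := h4
    rw [h2, Finset.prod_eq_zero (Finset.mem_univ q) hq, mul_zero]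

end prod

end Pool.Agent.H508.D
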