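import Pool.Agent.H508.D.K1

/-!
# The constant of the product formula
-/

set_option autoImplicit false

open Complex Filter Topology
open scoped PeriodPair

namespace Pool.Agent.H508.D

open Pool.Agent.Y688 Pool.Agent.W192.HK Pool.Agent.TH936.CM Pool.Agent.TH936.PU Pool.Agent.R430
open Pool.Agent.W245.EB H667R3

variable {L : PeriodPair} {Ω : ℂ}

lemma cont_wp {z : ℂ} (hz : z ∉ L.lattice) : ContinuousAt ℘[L] z :=
  (hasDerivAt_weierstrassP L hz).continuousAt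

lemma lim_zero : Tendsto (fun z : ℂ => z ^ 2 * ℘[L] z) (𝓝[≠] 0) (𝓝 1) := by
  have h1 : Tendsto (fun z : ℂ => z ^ 2 * ℘[L - (0 : ℂ)] z + 1) (𝓝 0) (𝓝 (0 ^ 2 * ℘[L - (0 : ℂ)] 0 + 1)) := by
    have hc : ContinuousAt ℘[L - (0 : ℂ)] 0 := (L.analyticAt_weierstrassPExcept 0).continuousAt
    exact (((continuous_pow 2).tendsto (0 : ℂ)).mul hc).add_const 1
  have h2 := h1.mono_left (nhdsWithin_le_nhds (s := {0}ᶜ))
  have e : (0 : ℂ) ^ 2 * ℘[L - (0 : ℂ)] 0 + 1 = 1 := by ring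
  rw [e] at h2
  refine h2.congr' ?_
  filter_upwards [self_mem_nhdsWithin] with z (hz : z ≠ 0)
  have h3 := L.ite_eq_one_sub_sq_mul_weierstrassP 0 (zero_mem _) z
  rw [if_neg hz, sub_zero] at h3
  rw [h3]
  simp

lemma notMem_near : ∀ᶠ z : ℂ in 𝓝[≠] 0, z ∉ L.lattice := by
  have h1 := L.compl_lattice_sdiff_singleton_mem_nhds 0
  filter_upwards [mem_nhdsWithin_of_mem_nhds h1, self_mem_nhdsWithin] with z hz (hz0 : z ≠ 0) hc
  exact hz ⟨hc, hz0⟩

section cst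
variable {π : RR}

open scoped Classical in
/-- the classes different from zero -/
noncomputable def nz (π : RR) [Fintype (RR ⧸ sp π)] : Finset (RR ⧸ sp π) := Finset.univ.erase 0

lemma mem_nz [Fintype (RR ⧸ sp π)] {q : RR ⧸ sp π} : q ∈ nz π ↔ q ≠ 0 := by
  unfold nz
  simp

lemma card_nz [Fintype (RR ⧸ sp π)] : (nz π).card + 1 = Fintype.card (RR ⧸ sp π) := by
  classical
  unfold nz
  rw [Finset.card_erase_of_mem (Finset.mem_univ _), Finset.card_univ]
  exact Nat.sub_add_cancel Fintype.card_pos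

lemma Q_notMem (h : HL L Ω) (h0 : π ≠ 0) {q : RR ⧸ sp π} (hq : q ≠ 0) :
    Ω * q.out / π ∉ L.lattice := by
  rw [div_mem_iff h.toIsLat h0]
  intro hc
  apply hq
  rw [← Ideal.Quotient.mk_out q]
  exact Ideal.Quotient.eq_zero_iff_mem.2 hc

lemma Q0_mem (h : HL L Ω) (h0 : π ≠ 0) : Ω * (0 : RR ⧸ sp π).out / π ∈ L.lattice := by
  rw [div_mem_iff h.toIsLat h0, ← Ideal.Quotient.eq_zero_iff_mem, Ideal.Quotient.mk_out]

lemma prod_split [Fintype (RR ⧸ sp π)] (h : HL L Ω) (h0 : π ≠ 0) (z : ℂ) :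
    ∏ q : RR ⧸ sp π, ℘[L] (z + Ω * q.out / π) =
      ℘[L] z * ∏ q ∈ nz π, ℘[L] (z + Ω * q.out / π) := by
  classical
  rw [← Finset.mul_prod_erase Finset.univ _ (Finset.mem_univ (0 : RR ⧸ sp π))]
  congr 1
  refine wp_per ?_
  rw [add_sub_cancel_left]
  exact Q0_mem h h0

lemma lim_one [Fintype (RR ⧸ sp π)] (h : HL L Ω) (h0 : π ≠ 0) {c : ℂ} (hc : ∀ z : ℂ, (π : ℂ) * z ∉ L.lattice →
    ℘[L] (π * z) = c * ∏ q : RR ⧸ sp π, ℘[L] (z + Ω * q.out / π)) :
    c * (π : ℂ) ^ 2 * ∏ q ∈ nz π, ℘[L] (Ω * q.out / π) = 1 := by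
  have ha0 := coe_ne h0
  have l1 : Tendsto (fun z : ℂ => (π * z) ^ 2 * ℘[L] (π * z)) (𝓝[≠] 0) (𝓝 1) := by
    refine (lim_zero (L := L)).comp (f := fun z : ℂ => (π : ℂ) * z) ?_
    rw [tendsto_nhdsWithin_iff]
    constructor
    · have h7 : Continuous (fun z : ℂ => (π : ℂ) * z) := by fun_prop
      have h8 := (h7.tendsto 0).mono_left (nhdsWithin_le_nhds (s := {0}ᶜ))
      simpa using h8
    · filter_upwards [self_mem_nhdsWithin] with z (hz : z ≠ 0)
      exact mul_ne_zero ha0 hz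
  have l2 : Tendsto (fun z : ℂ => ∏ q ∈ nz π, ℘[L] (z + Ω * q.out / π)) (𝓝[≠] 0)
      (𝓝 (∏ q ∈ nz π, ℘[L] (Ω * q.out / π))) := by
    refine tendsto_finsetProd _ fun q hq => ?_
    have h1 : ContinuousAt ℘[L] (0 + Ω * q.out / π) := by
      rw [zero_add]
      exact cont_wp (Q_notMem h h0 (mem_nz.1 hq))
    have h2 : Tendsto (fun z : ℂ => z + Ω * q.out / π) (𝓝 0) (𝓝 (0 + Ω * q.out / π)) := by
      have h7 : Continuous (fun z : ℂ => z + Ω * q.out / π) := by fun_prop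
      exact h7.tendsto 0
    have h3 := (h1.tendsto.comp h2).mono_left (nhdsWithin_le_nhds (s := {0}ᶜ))
    rw [zero_add] at h3
    exact h3
  have l3 := (((lim_zero (L := L)).mul l2).const_mul (c * (π : ℂ) ^ 2))
  have l4 : ∀ᶠ z : ℂ in 𝓝[≠] 0, c * (π : ℂ) ^ 2 * (z ^ 2 * ℘[L] z *
      ∏ q ∈ nz π, ℘[L] (z + Ω * q.out / π)) = (π * z) ^ 2 * ℘[L] (π * z) := by
    have h5 : ∀ᶠ z : ℂ in 𝓝[≠] 0, (π : ℂ) * z ∉ L.lattice := by
      have h6 : Tendsto (fun z : ℂ => (π : ℂ) * z) (𝓝[≠] 0) (𝓝[≠] 0) := by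
        rw [tendsto_nhdsWithin_iff]
        constructor
        · have h7 : Continuous (fun z : ℂ => (π : ℂ) * z) := by fun_prop
          have h8 := (h7.tendsto 0).mono_left (nhdsWithin_le_nhds (s := {0}ᶜ))
          simpa using h8
        · filter_upwards [self_mem_nhdsWithin] with z (hz : z ≠ 0)
          exact mul_ne_zero ha0 hz
      exact h6.eventually notMem_near
    filter_upwards [h5] with z hz
    rw [hc z hz, prod_split h h0]
    ring
  have := tendsto_nhds_unique (l3.congr' l4) l1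
  rw [one_mul] at this
  exact this

lemma T_two {T : ℂ} (hT : T ∉ L.lattice) (h3 : 3 * T ∈ L.lattice) : 2 * T ∉ L.lattice := by
  intro h2
  apply hT
  have e : T = 3 * T - 2 * T := by ring
  rw [e]
  exact sub_mem h3 h2

lemma T_der (h : HL L Ω) {T : ℂ} (hT : T ∉ L.lattice) (h0 : ℘[L] T = 0) : ℘'[L] T * ℘'[L] T = 1 := by
  have h1 := h.curve hT
  rw [h0] at h1
  linear_combination h1

lemma lim_T [Fintype (RR ⧸ sp π)] (h : HL L Ω) (h0 : π ≠ 0) (h3 : (3 : RR) ∣ π - 1) {c : ℂ}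
    (hc : ∀ z : ℂ, (π : ℂ) * z ∉ L.lattice →
      ℘[L] (π * z) = c * ∏ q : RR ⧸ sp π, ℘[L] (z + Ω * q.out / π))
    {T : ℂ} (hT : T ∉ L.lattice) (hT3 : 3 * T ∈ L.lattice) (hT0 : ℘[L] T = 0) :
    c * ∏ q ∈ nz π, ℘[L] (T + Ω * q.out / π) = π := by
  have ha0 := coe_ne h0
  have hπT := pi_T h h3 hT3
  have hT' : (π : ℂ) * T ∉ L.lattice := by
    intro h1
    apply hT
    have e : T = π * T - (π * T - T) := by ring
    rw [e]
    exact sub_mem h1 hπT
  have hy : ℘'[L] T ≠ 0 := by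
    intro h1
    have := T_der h hT hT0
    rw [h1, zero_mul] at this
    exact zero_ne_one this
  have hnq : ∀ q : RR ⧸ sp π, T + Ω * q.out / π ∉ L.lattice := fun q hq => hT' (mulz h h0 q hq)
  have d1 : HasDerivAt (fun z : ℂ => ℘[L] (π * z)) (℘'[L] T * π) T := by
    have h1 : HasDerivAt (fun z : ℂ => (π : ℂ) * z) π T := by
      simpa using (hasDerivAt_id T).const_mul (π : ℂ)
    have h2 := (hasDerivAt_weierstrassP L hT').comp T h1
    rwa [dwp_per hπT] at h2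
  have d2 := hasDerivAt_weierstrassP L hT
  have s1 := hasDerivAt_iff_tendsto_slope.1 d1
  have s2 := hasDerivAt_iff_tendsto_slope.1 d2
  have l2 : Tendsto (fun z : ℂ => ∏ q ∈ nz π, ℘[L] (z + Ω * q.out / π)) (𝓝[≠] T)
      (𝓝 (∏ q ∈ nz π, ℘[L] (T + Ω * q.out / π))) := by
    refine tendsto_finsetProd _ fun q hq => ?_
    have h1 : ContinuousAt ℘[L] (T + Ω * q.out / π) := cont_wp (hnq q)
    have h2 : Tendsto (fun z : ℂ => z + Ω * q.out / π) (𝓝 T) (𝓝 (T + Ω * q.out / π)) := by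
      have h7 : Continuous (fun z : ℂ => z + Ω * q.out / π) := by fun_prop
      exact h7.tendsto T
    exact (h1.tendsto.comp h2).mono_left (nhdsWithin_le_nhds (s := {T}ᶜ))
  have l3 := (s2.mul l2).const_mul c
  have l4 : ∀ᶠ z : ℂ in 𝓝[≠] T, c * (slope ℘[L] T z * ∏ q ∈ nz π, ℘[L] (z + Ω * q.out / π)) =
      slope (fun z : ℂ => ℘[L] (π * z)) T z := by
    have h5 : ∀ᶠ z : ℂ in 𝓝[≠] T, (π : ℂ) * z ∉ L.lattice := by
      have h6 : ∀ᶠ z : ℂ in 𝓝 T, (π : ℂ) * z ∈ (L.lattice : Set ℂ)ᶜ := by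
        have h7 : Continuous (fun z : ℂ => (π : ℂ) * z) := by fun_prop
        exact (h7.tendsto T).eventually (L.isClosed_lattice.isOpen_compl.mem_nhds hT')
      exact h6.filter_mono nhdsWithin_le_nhds
    filter_upwards [h5] with z hz
    rw [slope_def_field, slope_def_field, hT0, wp_per hπT, hT0, hc z hz, prod_split h h0]
    ring
  have h8 := tendsto_nhds_unique (l3.congr' l4) s1
  have h9 : ℘'[L] T * (c * ∏ q ∈ nz π, ℘[L] (T + Ω * q.out / π)) = ℘'[L] T * π := by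
    linear_combination h8
  exact mul_left_cancel₀ hy h9

/-- the negative of a class -/
lemma Q_neg (h : HL L Ω) (h0 : π ≠ 0) (q : RR ⧸ sp π) :
    Ω * (-q).out / π - -(Ω * q.out / π) ∈ L.lattice := by
  have e : Ω * (-q).out / π - -(Ω * q.out / π) = Ω * (((-q).out + q.out : RR) : ℂ) / π := by
    push_cast
    ring
  rw [e, div_mem_iff h.toIsLat h0, ← Ideal.Quotient.eq_zero_iff_mem, map_add, Ideal.Quotient.mk_out,
    Ideal.Quotient.mk_out]
  simp

theorem cube_c [Fintype (RR ⧸ sp π)] (h : HL L Ω) (h0 : π ≠ 0) (h3 : (3 : RR) ∣ π - 1)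
    (hodd : Odd (Fintype.card (RR ⧸ sp π))) {c : ℂ}
    (hc : ∀ z : ℂ, (π : ℂ) * z ∉ L.lattice →
      ℘[L] (π * z) = c * ∏ q : RR ⧸ sp π, ℘[L] (z + Ω * q.out / π)) : c ^ 3 = 1 := by
  have ha0 := coe_ne h0
  obtain ⟨T, hT, hT3, hT0⟩ := exists_T h
  have hπT := pi_T h h3 hT3
  have h2T := T_two hT hT3
  have hT' : (π : ℂ) * T ∉ L.lattice := by
    intro h1
    apply hT
    have e : T = π * T - (π * T - T) := by ring
    rw [e]
    exact sub_mem h1 hπT
  have k1 := lim_one h h0 hc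
  have k2 := lim_T h h0 h3 hc hT hT3 hT0
  have ky := T_der h hT hT0
  set y0 := ℘'[L] T with hy0
  set N0 := ∏ q ∈ nz π, ℘[L] (Ω * q.out / π) with hN0
  set W0 := ∏ q ∈ nz π, (1 - y0 * ℘'[L] (Ω * q.out / π)) with hW0
  have hnq : ∀ q : RR ⧸ sp π, T + Ω * q.out / π ∉ L.lattice := fun q hq => hT' (mulz h h0 q hq)
  have hnq' : ∀ q : RR ⧸ sp π, T - Ω * q.out / π ∉ L.lattice := by
    intro q hq
    apply hT'
    have h4 := h.toIsLat.mul π _ hq
    have e : (π : ℂ) * T = π * (T - Ω * q.out / π) + Ω * q.out := by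
      field_simp
      ring
    rw [e]
    exact add_mem h4 (h.toIsLat.mem_mul _)
  have hX0 : ∀ q ∈ nz π, ℘[L] (Ω * q.out / π) ≠ 0 := by
    intro q hq h4
    rw [← hT0, wp_eq_iff L (Q_notMem h h0 (mem_nz.1 hq)) hT] at h4
    rcases h4 with h4 | h4
    · exact hnq q (by rwa [add_comm])
    · exact hnq' q (by simpa using neg_mem h4)
  have e1 : ∏ q ∈ nz π, ℘[L] (T + Ω * q.out / π) = W0 / (2 ^ (nz π).card * N0 ^ 2) := by
    have e2 : ∀ q ∈ nz π, ℘[L] (T + Ω * q.out / π) =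
        (1 - y0 * ℘'[L] (Ω * q.out / π)) / (2 * ℘[L] (Ω * q.out / π) ^ 2) := by
      intro q hq
      have h4 := wp_add L h2T (Q_notMem h h0 (mem_nz.1 hq)) (hnq q) (hnq' q)
      rw [hT0, h.g2, ← hy0] at h4
      rw [h4]
      set X := ℘[L] (Ω * q.out / π)
      set Y := ℘'[L] (Ω * q.out / π)
      have e3 : (6 * 0 ^ 2 - 0 / 2) * (0 - X) - (y0 - Y) * y0 = -(1 - y0 * Y) := by
        linear_combination -ky
      rw [e3]
      ring
    rw [Finset.prod_congr rfl e2, Finset.prod_div_distrib, Finset.prod_mul_distrib,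
      Finset.prod_const, Finset.prod_pow]
  have e3 : W0 ^ 2 = (-4) ^ (nz π).card * N0 ^ 3 := by
    have h4 : W0 = ∏ q ∈ nz π, (1 + y0 * ℘'[L] (Ω * q.out / π)) := by
      rw [hW0]
      refine Finset.prod_nbij' (fun q => -q) (fun q => -q) ?_ ?_ ?_ ?_ ?_
      · intro q hq
        rw [mem_nz] at hq ⊢
        exact neg_ne_zero.2 hq
      · intro q hq
        rw [mem_nz] at hq ⊢
        exact neg_ne_zero.2 hq
      · intro q _
        exact neg_neg q
      · intro q _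
        exact neg_neg q
      · intro q _
        rw [dwp_per (Q_neg h h0 q), L.derivWeierstrassP_neg]
        ring
    have h5 : W0 ^ 2 = W0 * ∏ q ∈ nz π, (1 + y0 * ℘'[L] (Ω * q.out / π)) := by
      rw [← h4]
      ring
    rw [h5, hW0, ← Finset.prod_mul_distrib]
    have e4 : ∀ q ∈ nz π, (1 - y0 * ℘'[L] (Ω * q.out / π)) * (1 + y0 * ℘'[L] (Ω * q.out / π)) =
        (-4) * ℘[L] (Ω * q.out / π) ^ 3 := by
      intro q hq
      have h6 := h.curve (Q_notMem h h0 (mem_nz.1 hq))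
      linear_combination -(℘'[L] (Ω * q.out / π)) ^ 2 * ky - h6
    rw [Finset.prod_congr rfl e4, Finset.prod_mul_distrib, Finset.prod_const, Finset.prod_pow]
  have heven : Even (nz π).card := by
    have h4 := card_nz (π := π)
    rw [← h4] at hodd
    rcases Nat.even_or_odd (nz π).card with h5 | h5
    · exact h5
    · exact absurd h5.add_one (Nat.not_even_iff_odd.2 hodd)
  obtain ⟨m, hm⟩ := heven
  have hN00 : N0 ≠ 0 := Finset.prod_ne_zero_iff.2 hX0
  have hc0 : c ≠ 0 := by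
    rintro rfl
    rw [zero_mul, zero_mul] at k1
    exact zero_ne_one k1
  rw [e1, hm] at k2
  rw [hm] at e3
  have e5 : ((-4 : ℂ)) ^ (m + m) = ((2 : ℂ) ^ (m + m)) ^ 2 := by
    have a1 : (-4 : ℂ) ^ (m + m) = 16 ^ m := by
      rw [← two_mul, pow_mul]
      norm_num
    have a2 : ((2 : ℂ) ^ (m + m)) ^ 2 = 16 ^ m := by
      rw [← pow_mul, show (m + m) * 2 = 4 * m by ring, pow_mul]
      norm_num
    rw [a1, a2]
  rw [e5] at e3
  have h2 : ((2 : ℂ) ^ (m + m)) ≠ 0 := pow_ne_zero _ two_ne_zero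
  set B := (2 : ℂ) ^ (m + m) with hB
  have k3 : c * W0 = π * (B * N0 ^ 2) := by
    rw [← k2]
    field_simp
  have k4 : c ^ 2 * (B ^ 2 * N0 ^ 3) = (π : ℂ) ^ 2 * (B * N0 ^ 2) ^ 2 := by
    rw [← e3]
    linear_combination (c * W0 + π * (B * N0 ^ 2)) * k3
  have k5 : c ^ 2 = (π : ℂ) ^ 2 * N0 := by
    have h6 : B ^ 2 * N0 ^ 3 ≠ 0 := mul_ne_zero (pow_ne_zero _ h2) (pow_ne_zero _ hN00)
    apply mul_right_cancel₀ h6
    linear_combination k4
  linear_combination c * k5 + k1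

end cst

end Pool.Agent.H508.D
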