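import Pool.Agent.H508.D.K2

/-!
# The congruence of Kronecker
-/

set_option autoImplicit false

open Complex Filter Topology
open scoped PeriodPair

namespace Pool.Agent.H508.D

open Pool.Agent.Y688 Pool.Agent.W192.HK Pool.Agent.TH936.CM Pool.Agent.TH936.PU Pool.Agent.R430
open Pool.Agent.W245.EB H667R3

variable {L : PeriodPair} {Ω : ℂ} {Γ : Type} [LinearOrderedCommGroupWithZero Γ] {v : Valuation ℂ Γ}

lemma no3 : ¬ (3 : RR) ∣ 1 := by
  rintro ⟨k, hk⟩
  have h1 : (1 : ℂ) = ((3 : ℝ) : ℂ) * k := by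
    have h2 := congrArg (fun z : RR => (z : ℂ)) hk
    have h3 : ((3 : ℝ) : ℂ) = ((3 : RR) : ℂ) := by
      rw [Complex.ofReal_ofNat]
      rfl
    rw [h3]
    exact h2
  obtain ⟨N, hN⟩ := normSq_RR k
  have h4 := congrArg Complex.normSq h1
  rw [map_mul, hN, map_one, Complex.normSq_ofReal] at h4
  have h5 : (1 : ℝ) = ((9 * N : ℕ) : ℝ) := by
    push_cast
    linear_combination h4
  have h6 : (1 : ℕ) = 9 * N := by exact_mod_cast h5
  omega

lemma gd_of (h : HL L Ω) (h2 : v 2 = 1) (h3 : v 3 = 1) : Gd v L where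
  two := h2
  g2 := by rw [h.g2, map_zero]; exact zero_le_one
  g3 := by rw [h.g3, v.map_neg, map_one]
  disc := by
    rw [h.g2, h.g3]
    have e : (0 : ℂ) ^ 3 - 27 * (-1) ^ 2 = -(3 ^ 3) := by norm_num
    rw [e, v.map_neg, map_pow, h3, one_pow]

section loc
variable {π : RR} [Fintype (RR ⧸ sp π)]

lemma exists_big (h : HL L Ω) (h0 : π ≠ 0) (h3 : (3 : RR) ∣ π - 1)
    (hodd : Odd (Fintype.card (RR ⧸ sp π))) {c : ℂ}
    (hc : ∀ z : ℂ, (π : ℂ) * z ∉ L.lattice →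
      ℘[L] (π * z) = c * ∏ q : RR ⧸ sp π, ℘[L] (z + Ω * q.out / π)) (hv : v (π : ℂ) < 1) :
    ∃ q : RR ⧸ sp π, q ≠ 0 ∧ 1 < v (℘[L] (Ω * q.out / π)) := by
  have h1 := lim_one h h0 hc
  have h2 := cube_c h h0 h3 hodd hc
  have h4 : v c = 1 := v_root (by norm_num) h2
  by_contra hcon
  push Not at hcon
  have h5 : v (∏ q ∈ nz π, ℘[L] (Ω * q.out / π)) ≤ 1 := by
    rw [map_prod]
    exact Finset.prod_le_one' fun q hq => hcon q (mem_nz.1 hq)
  have h6 := congrArg v h1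
  rw [map_mul, map_mul, h4, one_mul, map_pow, map_one] at h6
  have h7 : v (π : ℂ) ^ 2 < 1 := pow_lt_one₀ zero_le hv two_ne_zero
  have h8 : v (π : ℂ) ^ 2 * v (∏ q ∈ nz π, ℘[L] (Ω * q.out / π)) < 1 :=
    mul_lt_one_of_lt_of_le h7 h5
  exact h8.ne h6

lemma all_big (h : HL L Ω) (h0 : π ≠ 0) (h3 : (3 : RR) ∣ π - 1)
    (hp : (Fintype.card (RR ⧸ sp π)).Prime) (hodd : Odd (Fintype.card (RR ⧸ sp π))) {c : ℂ}
    (hc : ∀ z : ℂ, (π : ℂ) * z ∉ L.lattice →
      ℘[L] (π * z) = c * ∏ q : RR ⧸ sp π, ℘[L] (z + Ω * q.out / π)) (hv : v (π : ℂ) < 1)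
    (hG : Gd v L) {q : RR ⧸ sp π} (hq : q ≠ 0) : 1 < v (℘[L] (Ω * q.out / π)) := by
  obtain ⟨q1, hq1, hb⟩ := exists_big h h0 h3 hodd hc hv
  set p := Fintype.card (RR ⧸ sp π) with hpdef
  have : Fact p.Prime := ⟨hp⟩
  have hcard : Nat.card (RR ⧸ sp π) = p := by rw [Nat.card_eq_fintype_card]
  have hmem : q ∈ AddSubmonoid.multiples q1 := mem_multiples_of_prime_card hcard hq1
  obtain ⟨k, hk⟩ := (AddSubmonoid.mem_multiples_iff _ _).1 hmem
  have hpq : ∀ x : RR ⧸ sp π, p • x = 0 := fun x => by rw [← hcard]; exact card_nsmul_eq_zero'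
  have hk' : (k % p) • q1 = q := by
    rw [← hk]
    conv_rhs => rw [← Nat.mod_add_div k p]
    rw [add_nsmul, mul_comm, mul_nsmul, hpq, add_zero] 
  have hkp : 0 < k % p := by
    rcases Nat.eq_zero_or_pos (k % p) with h4 | h4
    · rw [h4, zero_nsmul] at hk'
      exact absurd hk'.symm hq
    · exact h4
  have hklt : k % p < p := Nat.mod_lt _ hp.pos
  have hlat : ∀ j : ℕ, ∀ x y : RR ⧸ sp π, j • x = y →
      (j : ℂ) * (Ω * x.out / π) - Ω * y.out / π ∈ L.lattice := by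
    intro j x y hj
    have e : (j : ℂ) * (Ω * x.out / π) - Ω * y.out / π = Ω * ((j * x.out - y.out : RR) : ℂ) / π := by
      push_cast
      ring
    rw [e, div_mem_iff h.toIsLat h0, ← Ideal.Quotient.eq_zero_iff_mem, map_sub, map_mul,
      Ideal.Quotient.mk_out, Ideal.Quotient.mk_out, map_natCast, ← nsmul_eq_mul, hj, sub_self]
  have hn : ∀ j : ℕ, 0 < j → j < p → (j : ℂ) * (Ω * q1.out / π) ∉ L.lattice := by
    intro j hj0 hjp hj
    have hjq : j • q1 ≠ 0 := by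
      intro h5
      have h6 := addOrderOf_dvd_of_nsmul_eq_zero h5
      have h7 : addOrderOf q1 = p := addOrderOf_eq_prime (hpq q1) hq1
      rw [h7] at h6
      exact absurd (Nat.le_of_dvd hj0 h6) (not_le.2 hjp)
    apply Q_notMem h h0 hjq
    have h5 := hlat j q1 _ rfl
    have e : Ω * (j • q1).out / π = (j : ℂ) * (Ω * q1.out / π) -
        ((j : ℂ) * (Ω * q1.out / π) - Ω * (j • q1).out / π) := by ring
    rw [e]
    exact sub_mem hj h5
  obtain ⟨a1, a2⟩ := near hG hb hn (k % p) hkp hklt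
  have h8 := wp_per (hlat (k % p) q1 q hk')
  rw [h8] at a1 a2
  have hs := v_inv_lt hb
  have h9 : v (℘[L] (Ω * q.out / π))⁻¹ < 1 := by
    have e : (℘[L] (Ω * q.out / π))⁻¹ = ((℘[L] (Ω * q.out / π))⁻¹ -
        ((k % p : ℕ) : ℂ) ^ 2 * (℘[L] (Ω * q1.out / π))⁻¹) +
        ((k % p : ℕ) : ℂ) ^ 2 * (℘[L] (Ω * q1.out / π))⁻¹ := by ring
    rw [e]
    refine v_add_lt (lt_of_le_of_lt a2 ?_) ?_
    · exact lt_of_le_of_lt (sq_le_self hs.le) hs
    · exact v_mul_lt (v_pow_le (Pool.Agent.TH936.PU.v_nat _) 2) hs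
  rw [map_inv₀] at h9
  have h10 : v (℘[L] (Ω * q.out / π)) ≠ 0 := (v.ne_zero_iff).2 a1
  exact (inv_lt_one₀ (zero_lt_iff.2 h10)).1 h9

omit [Fintype (RR ⧸ sp π)] in
/-- the translation by a point which reduces to zero -/
lemma shift (h : HL L Ω) {P Q : ℂ} (hx : v (℘[L] P) ≤ 1) (hX : 1 < v (℘[L] Q))
    (h2 : 2 * P ∉ L.lattice) (hQ : Q ∉ L.lattice) (h1 : P + Q ∉ L.lattice)
    (h1' : P - Q ∉ L.lattice) (hv2 : v 2 = 1) :
    v (℘[L] (P + Q) - ℘[L] P) < 1 := by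
  have hs := wp_sum h2 hQ h1 h1'
  have hp := wp_prod h2 hQ h1 h1'
  rw [h.g2, h.g3] at hs hp
  have hX0 := ne_of_one_lt hX
  have ht := v_inv_lt hX
  set x := ℘[L] P with hxd
  set X := ℘[L] Q with hXd
  set a := ℘[L] (P + Q) with ha
  set b := ℘[L] (P - Q) with hb
  set t := X⁻¹ with htd
  have hXt : X * t = 1 := mul_inv_cancel₀ hX0
  have e1 : (a + b) * (x * t - 1) ^ 2 = 2 * x * (x * t + 1) + t ^ 2 := by
    linear_combination t ^ 2 * hs + (-(a + b) * (-2 * x * t + X * t + 1) +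
      2 * x * (X * t + 1 + x * t)) * hXt
  have e2 : a * b * (x * t - 1) ^ 2 = x ^ 2 - t ^ 2 * x - t := by
    linear_combination t ^ 2 * hp + (-(a * b) * (-2 * x * t + X * t + 1) +
      x ^ 2 * (X * t + 1) - t) * hXt
  have hxt : v (x * t) < 1 := v_mul_lt hx ht
  have hD : v ((x * t - 1) ^ 2) = 1 := by
    have e : (x * t - 1) ^ 2 = (1 - x * t) ^ 2 := by ring
    rw [e, map_pow, v.map_one_sub_of_lt hxt, one_pow]
  set D := (x * t - 1) ^ 2 with hDd
  have hD0 : D ≠ 0 := by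
    intro h0
    rw [h0, map_zero] at hD
    exact zero_ne_one hD
  have hDx : v (D - 1) < 1 := by
    have e : D - 1 = (x * t) * (x * t - 2) := by rw [hDd]; ring
    rw [e, mul_comm]
    exact v_mul_lt (v_sub_le hxt.le hv2.le) hxt
  have key : ∀ y z : ℂ, y * D = z → v (z - x ^ 2) < 1 → v (y - x ^ 2) < 1 := by
    intro y z hy hz
    have e : (y - x ^ 2) = ((z - x ^ 2) - x ^ 2 * (D - 1)) / D := by
      rw [← hy]
      field_simp
      ring
    rw [e, map_div₀, hD, div_one]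
    exact v_sub_lt hz (v_mul_lt (v_pow_le hx 2) hDx)
  have hp2 : v (a * b - x ^ 2) < 1 := by
    refine key _ _ e2 ?_
    have e : x ^ 2 - t ^ 2 * x - t - x ^ 2 = -(t * (t * x + 1)) := by ring
    rw [e, v.map_neg, mul_comm]
    refine v_mul_lt (v_add_le ?_ (by rw [map_one])) ht
    rw [mul_comm]
    exact hxt.le
  have hs2 : v (a + b - 2 * x) < 1 := by
    have e : (a + b - 2 * x) = ((2 * x * (x * t + 1) + t ^ 2 - 2 * x) - 2 * x * (D - 1)) / D := by
      rw [← e1]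
      field_simp
      ring
    rw [e, map_div₀, hD, div_one]
    refine v_sub_lt ?_ (v_mul_lt (v_mul_le hv2.le hx) hDx)
    have e' : 2 * x * (x * t + 1) + t ^ 2 - 2 * x = (2 * x * x + t) * t := by ring
    rw [e']
    exact v_mul_lt (v_add_le (v_mul_le (v_mul_le hv2.le hx) hx) ht.le) ht
  have hquad : (a - x) ^ 2 = (a + b - 2 * x) * a - (a * b - x ^ 2) := by ring
  have ha1 : v a ≤ 1 := by
    by_contra hcon
    rw [not_le] at hcon
    have h5 : v (a ^ 2) ≤ v a := by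
      have e : a ^ 2 = (a + b) * a - a * b := by ring
      rw [e]
      have hab : v (a + b) ≤ 1 := by
        have e3 : a + b = (a + b - 2 * x) + 2 * x := by ring
        rw [e3]
        exact v_add_le hs2.le (v_mul_le hv2.le hx)
      have hab' : v (a * b) ≤ 1 := by
        have e3 : a * b = (a * b - x ^ 2) + x ^ 2 := by ring
        rw [e3]
        exact v_add_le hp2.le (v_pow_le hx 2)
      refine v_sub_le ?_ (hab'.trans hcon.le)
      rw [map_mul]
      exact (mul_le_mul' hab le_rfl).trans (one_mul _).le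
    rw [map_pow, pow_two] at h5
    have h6 : v a * 1 < v a * v a := mul_lt_mul_of_pos_left hcon (zero_lt_one.trans hcon)
    rw [mul_one] at h6
    exact absurd h5 (not_le.2 h6)
  refine lt_one_of_pow two_ne_zero ?_
  rw [hquad]
  refine v_sub_lt ?_ hp2
  rw [mul_comm]
  exact v_mul_lt ha1 hs2

omit [Fintype (RR ⧸ sp π)] in
lemma prod_cong {ι : Type*} (s : Finset ι) {f : ι → ℂ} {x : ℂ} (hx : v x ≤ 1)
    (h : ∀ i ∈ s, v (f i - x) < 1) : v (∏ i ∈ s, f i - x ^ s.card) < 1 ∧ v (∏ i ∈ s, f i) ≤ 1 := by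
  classical
  induction s using Finset.induction_on with
  | empty => simp
  | insert a s ha ih =>
    obtain ⟨i1, i2⟩ := ih fun i hi => h i (Finset.mem_insert_of_mem hi)
    have h1 := h a (Finset.mem_insert_self _ _)
    have h2 : v (f a) ≤ 1 := by
      have e : f a = (f a - x) + x := by ring
      rw [e]
      exact v_add_le h1.le hx
    rw [Finset.prod_insert ha, Finset.card_insert_of_notMem ha]
    refine ⟨?_, v_mul_le h2 i2⟩
    have e : f a * ∏ i ∈ s, f i - x ^ (s.card + 1) =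
        (∏ i ∈ s, f i) * (f a - x) + x * (∏ i ∈ s, f i - x ^ s.card) := by ring
    rw [e]
    exact v_add_lt (v_mul_lt i2 h1) (v_mul_lt hx i1)

theorem kron_c (h : HL L Ω) (h0 : π ≠ 0) (h3 : (3 : RR) ∣ π - 1)
    (hp : (Fintype.card (RR ⧸ sp π)).Prime) (hodd : Odd (Fintype.card (RR ⧸ sp π))) {c : ℂ}
    (hc : ∀ z : ℂ, (π : ℂ) * z ∉ L.lattice →
      ℘[L] (π * z) = c * ∏ q : RR ⧸ sp π, ℘[L] (z + Ω * q.out / π)) (hv : v (π : ℂ) < 1)
    (hG : Gd v L) {P : ℂ} (hP : Tp v L P) (h2 : 2 * P ∉ L.lattice) (hπ : (π : ℂ) * P ∉ L.lattice) :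
    v (℘[L] (π * P) - c * ℘[L] P ^ Fintype.card (RR ⧸ sp π)) < 1 := by
  have h4 : v c = 1 := v_root (by norm_num) (cube_c h h0 h3 hodd hc)
  rw [hc P hπ, ← mul_sub, map_mul, h4, one_mul]
  have ha0 := coe_ne h0
  have hx := hP.int hG
  refine (prod_cong Finset.univ hx fun q _ => ?_).1
  by_cases hq : q = 0
  · rw [hq]
    have h5 : P + Ω * (0 : RR ⧸ sp π).out / π - P ∈ L.lattice := by
      rw [add_sub_cancel_left]
      exact Q0_mem h h0
    rw [wp_per h5, sub_self, map_zero]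
    exact zero_lt_one
  · refine shift h hx (all_big h h0 h3 hp hodd hc hv hG hq) h2 (Q_notMem h h0 hq)
      (fun h5 => hπ (mulz h h0 q h5)) ?_ hG.two
    intro h5
    apply hπ
    have h6 := h.toIsLat.mul π _ h5
    have e : (π : ℂ) * P = π * (P - Ω * q.out / π) + Ω * q.out := by
      field_simp
      ring
    rw [e]
    exact add_mem h6 (h.toIsLat.mem_mul _)

omit [Fintype (RR ⧸ sp π)] in
/-- a point of order three with `℘ = -1` -/
lemma exists_P3 (h : HL L Ω) : ∃ P : ℂ, P ∉ L.lattice ∧ 3 * P ∈ L.lattice ∧ ℘[L] P = -1 := by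
  have hΩ := h.ne
  have h0 : Ω / 3 ∉ L.lattice := by
    have e : Ω / 3 = Ω * ((1 : RR) : ℂ) / ((3 : ℕ) : ℂ) := by
      push_cast
      rw [mul_one]
    rw [e, lat_iff h.toIsLat (by norm_num)]
    intro hk
    exact no3 (by exact_mod_cast hk)
  have h3 : 3 * (Ω / 3) ∈ L.lattice := by
    have e : 3 * (Ω / 3) = Ω * ((1 : RR) : ℂ) := by
      push_cast
      field_simp
    rw [e]
    exact h.toIsLat.mem_mul _
  have h2 : 2 * (Ω / 3) ∉ L.lattice := T_two h0 h3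
  have hd := h.dup h2
  have e1 : ℘[L] (2 * (Ω / 3)) = ℘[L] (Ω / 3) := by
    have e : 2 * (Ω / 3) = -(Ω / 3) + 3 * (Ω / 3) := by ring
    rw [e, wp_add_lattice L h3, L.weierstrassP_neg]
  have hy := wp'_ne_zero L h2
  rw [e1, sub_self] at hd
  have h4 : ℘[L] (Ω / 3) * (℘[L] (Ω / 3) ^ 3 + 1) = 0 := by
    have h4 : ℘[L] (Ω / 3) * (℘[L] (Ω / 3) ^ 3 + 1) / ℘'[L] (Ω / 3) ^ 2 = 0 := by
      linear_combination (1 / 3 : ℂ) * hd
    rcases div_eq_zero_iff.1 h4 with h5 | h5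
    · exact h5
    · exact absurd h5 (pow_ne_zero 2 hy)
  have hw0 : ∀ z : ℂ, z ∉ L.lattice → w * z ∉ L.lattice := by
    intro z hz hc
    apply hz
    have h1 := h.toIsLat.mul wR _ (h.toIsLat.mul wR _ hc)
    have e : (wR : ℂ) * ((wR : ℂ) * (w * z)) = z := by
      rw [wR_coe]
      linear_combination z * w3
    rwa [e] at h1
  have hw3 : ∀ z : ℂ, 3 * z ∈ L.lattice → 3 * (w * z) ∈ L.lattice := by
    intro z hz
    have h1 := h.toIsLat.mul wR _ hz
    have e : (wR : ℂ) * (3 * z) = 3 * (w * z) := by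
      rw [wR_coe]
      ring
    rwa [e] at h1
  rcases mul_eq_zero.1 h4 with h5 | h5
  · exfalso
    have h6 : ℘[L] (w * (Ω / 3)) = ℘[L] (Ω / 3) := by rw [wp_w h.toIsLat, h5, mul_zero]
    have h7 := pt_inj (hw0 _ h0) h0 h6 (wp'_w h.toIsLat _)
    have e : w * (Ω / 3) - Ω / 3 = Ω * ((wR - 1 : RR) : ℂ) / ((3 : ℕ) : ℂ) := by
      push_cast
      rw [wR_coe]
      ring
    rw [e, lat_iff h.toIsLat (by norm_num)] at h7
    obtain ⟨k, hk⟩ := h7
    have h8 : (3 : ℂ) * k = w - 1 := by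
      have := congrArg (fun z : RR => (z : ℂ)) hk
      push_cast at this
      rw [wR_coe] at this
      exact this.symm
    have h9 : (w - 1) * (w - 1) = (3 : ℂ) * (3 * (k * k)) := by
      rw [← h8]
      ring
    rw [lam_sq] at h9
    have h10 : -w = (3 : ℂ) * (k * k) := by
      have h11 : (3 : ℂ) * (-w) = 3 * (3 * (k * k)) := by linear_combination h9
      exact mul_left_cancel₀ (by norm_num) h11
    have h11 : (3 : RR) ∣ 1 := by
      refine ⟨-(k * k * (wR * wR)), Subtype.ext ?_⟩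
      push_cast
      rw [wR_coe]
      have h12 : ((3 : RR) : ℂ) = 3 := rfl
      rw [h12]
      linear_combination (-w * w) * h10 - w3
    exact no3 h11
  · have h6 : (℘[L] (Ω / 3) + 1) * ((℘[L] (Ω / 3) + w) * (℘[L] (Ω / 3) + w * w)) = 0 := by
      have hs := w_sq
      have e : (℘[L] (Ω / 3) + 1) * ((℘[L] (Ω / 3) + w) * (℘[L] (Ω / 3) + w * w)) =
          ℘[L] (Ω / 3) ^ 3 + (℘[L] (Ω / 3) ^ 2 + ℘[L] (Ω / 3)) * (1 + w + w * w) + w * (w * w) := by
        linear_combination ℘[L] (Ω / 3) * w3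
      rw [e, w3]
      linear_combination h5 + (℘[L] (Ω / 3) ^ 2 + ℘[L] (Ω / 3)) * hs
    rcases mul_eq_zero.1 h6 with h7 | h7
    · exact ⟨Ω / 3, h0, h3, eq_neg_of_add_eq_zero_left h7⟩
    rcases mul_eq_zero.1 h7 with h8 | h8
    · refine ⟨w * (w * (Ω / 3)), hw0 _ (hw0 _ h0), hw3 _ (hw3 _ h3), ?_⟩
      rw [wp_w h.toIsLat, wp_w h.toIsLat, eq_neg_of_add_eq_zero_left h8]
      linear_combination -w3
    · refine ⟨w * (Ω / 3), hw0 _ h0, hw3 _ h3, ?_⟩
      rw [wp_w h.toIsLat, eq_neg_of_add_eq_zero_left h8]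
      linear_combination -w3

theorem c_one (h : HL L Ω) (h0 : π ≠ 0) (h3 : (3 : RR) ∣ π - 1)
    (hp : (Fintype.card (RR ⧸ sp π)).Prime) (hodd : Odd (Fintype.card (RR ⧸ sp π))) {c : ℂ}
    (hc : ∀ z : ℂ, (π : ℂ) * z ∉ L.lattice →
      ℘[L] (π * z) = c * ∏ q : RR ⧸ sp π, ℘[L] (z + Ω * q.out / π)) (hv : v (π : ℂ) < 1)
    (hG : Gd v L) (hv3 : v 3 = 1) : c = 1 := by
  obtain ⟨P, hP, hP3, hP1⟩ := exists_P3 h
  have hπP := pi_T h h3 hP3
  have h2 := T_two hP hP3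
  have hπ : (π : ℂ) * P ∉ L.lattice := by
    intro h1
    apply hP
    have e : P = π * P - (π * P - P) := by ring
    rw [e]
    exact sub_mem h1 hπP
  have hT : Tp v L P := ⟨hP, 3, by exact_mod_cast hv3, by exact_mod_cast hP3⟩
  have h4 := kron_c h h0 h3 hp hodd hc hv hG hT h2 hπ
  rw [wp_per hπP, hP1, hodd.neg_one_pow] at h4
  have e : (-1 : ℂ) - c * -1 = c - 1 := by ring
  rw [e] at h4
  have h5 := cube_c h h0 h3 hodd hc
  by_contra hne
  have h6 : c ^ 2 + c + 1 = 0 := by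
    have h7 : (c - 1) * (c ^ 2 + c + 1) = 0 := by linear_combination h5
    exact (mul_eq_zero.1 h7).resolve_left (sub_ne_zero.2 hne)
  have h7 : (3 : ℂ) = -((c + 2) * (c - 1)) := by linear_combination h6
  have h8 : v (3 : ℂ) < 1 := by
    rw [h7, v.map_neg]
    refine v_mul_lt (v_add_le ?_ hG.two.le) h4
    exact (v_root (by norm_num) h5).le
  exact h8.ne hv3

end loc

/-- **The congruence of Kronecker.** -/
theorem kron {π : RR} (h : HL L Ω) (h3 : (3 : RR) ∣ π - 1) {p : ℕ} (hp : p.Prime) (hp2 : p ≠ 2)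
    (hcard : Nat.card (RR ⧸ sp π) = p) (hv : v (π : ℂ) < 1) (hv2 : v 2 = 1) (hv3 : v 3 = 1)
    {n : ℕ} (hn : 0 < n) (hn2 : Odd n) (hn3 : 3 ∣ n) (hvn : v (n : ℂ) = 1) {σ : ℂ ≃+* ℂ}
    (hσw : σ w = w) {u : RR} (hu : Act L Ω σ n u)
    (hσ : v (σ (℘[L] (Ω / n)) - ℘[L] (Ω / n) ^ p) < 1) (hcop : IsCoprime π (n : RR))
    (hun : IsCoprime u (n : RR)) : (n : RR) ∣ u - π := by
  have h0 : π ≠ 0 := by
    rintro rfl
    obtain ⟨k, hk⟩ := h3
    exact no3 ⟨-k, by linear_combination -hk⟩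
  have hfin : Finite (RR ⧸ sp π) := Nat.finite_of_card_ne_zero (by rw [hcard]; exact hp.ne_zero)
  let _ : Fintype (RR ⧸ sp π) := Fintype.ofFinite _
  have hcard' : Fintype.card (RR ⧸ sp π) = p := by rw [← Nat.card_eq_fintype_card, hcard]
  have hp' : (Fintype.card (RR ⧸ sp π)).Prime := by rw [hcard']; exact hp
  have hodd : Odd (Fintype.card (RR ⧸ sp π)) := by
    rw [hcard']
    exact hp.odd_of_ne_two hp2
  have hG := gd_of h hv2 hv3
  obtain ⟨c, _, hc⟩ := prod_pi h h0 h3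
  have hc1 := c_one h h0 h3 hp' hodd hc hv hG hv3
  have hn0 : (n : ℂ) ≠ 0 := by exact_mod_cast hn.ne'
  have e1 : Ω / n = Ω * ((1 : RR) : ℂ) / n := by push_cast; rw [mul_one]
  have hnu : ∀ {a : RR}, IsCoprime a (n : RR) → ¬ (n : RR) ∣ a := by
    intro a ha hd
    have h4 : IsUnit (n : RR) := ha.isUnit_of_dvd' hd dvd_rfl
    have h5 : (3 : RR) ∣ 1 := by
      have h6 : (3 : RR) ∣ (n : RR) := by exact_mod_cast Nat.cast_dvd_cast (α := RR) hn3
      exact h6.trans h4.dvd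
    exact no3 h5
  have htp : ∀ {a : RR}, IsCoprime a (n : RR) → Tp v L (Ω * a / n) := by
    intro a ha
    refine ⟨fun h4 => hnu ha ((lat_iff h.toIsLat hn a).1 h4), n, hvn, ?_⟩
    rw [mul_div_cancel₀ _ hn0]
    exact h.toIsLat.mem_mul _
  have h1 : Tp v L (Ω * ((1 : RR) : ℂ) / n) := htp isCoprime_one_left
  have h2 : 2 * (Ω * ((1 : RR) : ℂ) / n) ∉ L.lattice := by
    have e : 2 * (Ω * ((1 : RR) : ℂ) / n) = Ω * ((2 : RR) : ℂ) / n := by
      have : ((2 : RR) : ℂ) = 2 := rfl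
      rw [this]
      push_cast
      ring
    rw [e]
    refine (htp ?_).ne
    have h4 : IsCoprime (2 : ℤ) (n : ℤ) := by
      rw [Int.isCoprime_iff_gcd_eq_one]
      have := Nat.coprime_two_left.2 hn2
      exact_mod_cast this
    have h5 := h4.map (Int.castRingHom RR)
    simpa using h5
  have h4 : (π : ℂ) * (Ω * ((1 : RR) : ℂ) / n) = Ω * π / n := by
    push_cast
    ring
  have hπ : (π : ℂ) * (Ω * ((1 : RR) : ℂ) / n) ∉ L.lattice := by
    rw [h4]
    exact (htp hcop).ne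
  have k1 := kron_c h h0 h3 hp' hodd hc hv hG h1 h2 hπ
  rw [hc1, one_mul, hcard', h4] at k1
  have k2 := (hu 1).vals h1.ne
  rw [e1, k2.1, mul_one] at hσ
  have k3 : v (℘[L] (Ω * u / n) - ℘[L] (Ω * π / n)) < 1 := by
    have e : ℘[L] (Ω * u / n) - ℘[L] (Ω * π / n) =
        (℘[L] (Ω * u / n) - ℘[L] (Ω * ((1 : RR) : ℂ) / n) ^ p) -
          (℘[L] (Ω * π / n) - ℘[L] (Ω * ((1 : RR) : ℂ) / n) ^ p) := by ring
    rw [e]
    exact v_sub_lt hσ k1
  have hu3 := hu.three h hσw hn hn3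
  by_contra hcon
  have k4 : Ω * u / n - Ω * π / n ∉ L.lattice := by
    have e : Ω * u / n - Ω * π / n = Ω * ((u - π : RR) : ℂ) / n := by
      push_cast
      ring
    rw [e, lat_iff h.toIsLat hn]
    exact hcon
  have k5 : Ω * u / n + Ω * π / n ∉ L.lattice := by
    have e : Ω * u / n + Ω * π / n = Ω * ((u + π : RR) : ℂ) / n := by
      push_cast
      ring
    rw [e, lat_iff h.toIsLat hn]
    intro hd
    have h6 : (3 : RR) ∣ u + π := by
      have h6 : (3 : RR) ∣ (n : RR) := by exact_mod_cast Nat.cast_dvd_cast (α := RR) hn3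
      exact h6.trans hd
    obtain ⟨a, ha⟩ := h6
    obtain ⟨b, hb⟩ := hu3
    obtain ⟨c', hc'⟩ := h3
    have h7 : (3 : RR) ∣ 1 := ⟨1 - a + b + c', by linear_combination -ha + hb + hc'⟩
    exact no3 h7
  have k6 := (htp hun).diff hG (htp hcop) k5 k4
  exact k3.ne k6

end Pool.Agent.H508.D
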