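import Pool.Graph.R_pool_sql_team_seeded_35f281b4.K7.H70.EQ.Det

/-!
# Power sums and products
-/

set_option autoImplicit false
set_option linter.unusedSectionVars false

open Polynomial Filter

namespace Pool.Agent.H508.D

open Pool.Agent.K7.H70.EQ (exp_log inv_exp one_sub_ne exists_diag)

/-- the power sums of the roots of `z ^ f = c` -/
noncomputable def tf (f : ℕ) (c : ℂ) (m : ℕ) : ℂ := if f ∣ m then (f : ℂ) * c ^ (m / f) else 0

lemma tf_sum {f : ℕ} (hf : 0 < f) {c x : ℂ} (h : ‖c * x ^ f‖ < 1) :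
    HasSum (fun m : ℕ => tf f c (m + 1) * x ^ (m + 1) / (m + 1)) (-Complex.log (1 - c * x ^ f)) := by
  have h1 := exp_log h
  have hinj : Function.Injective (fun k : ℕ => f * (k + 1) - 1) := by
    intro a b hab
    have ha : 0 < f * (a + 1) := Nat.mul_pos hf (Nat.succ_pos _)
    have hb : 0 < f * (b + 1) := Nat.mul_pos hf (Nat.succ_pos _)
    have h2 : f * (a + 1) = f * (b + 1) := by
      have : f * (a + 1) - 1 = f * (b + 1) - 1 := hab
      omega
    have := Nat.eq_of_mul_eq_mul_left hf h2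
    omega
  refine (hinj.hasSum_iff fun m hm => ?_).1 (h1.congr_fun fun k => ?_)
  · unfold tf
    rw [if_neg, zero_mul, zero_div]
    rintro ⟨k, hk⟩
    apply hm
    have hk0 : k ≠ 0 := by
      rintro rfl
      omega
    refine ⟨k - 1, ?_⟩
    show f * (k - 1 + 1) - 1 = m
    rw [Nat.sub_add_cancel (Nat.pos_of_ne_zero hk0), ← hk]
    omega
  · have hp : 0 < f * (k + 1) := Nat.mul_pos hf (Nat.succ_pos _)
    have e1 : f * (k + 1) - 1 + 1 = f * (k + 1) := by omega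
    have e2 : (((f * (k + 1) - 1 : ℕ) : ℂ) + 1) = (f : ℂ) * ((k : ℂ) + 1) := by
      have : ((f * (k + 1) - 1 + 1 : ℕ) : ℂ) = ((f * (k + 1) : ℕ) : ℂ) := by rw [e1]
      push_cast at this
      exact this
    have hf0 : (f : ℂ) ≠ 0 := by exact_mod_cast hf.ne'
    have hk0 : ((k : ℂ) + 1) ≠ 0 := by exact_mod_cast Nat.succ_ne_zero k
    show tf f c (f * (k + 1) - 1 + 1) * x ^ (f * (k + 1) - 1 + 1) /
      (((f * (k + 1) - 1 : ℕ) : ℂ) + 1) = _
    rw [e1, e2]
    unfold tf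
    rw [if_pos (dvd_mul_right f (k + 1)), Nat.mul_div_cancel_left _ hf, mul_pow, ← pow_mul]
    field_simp

section
variable {J : Type} [Fintype J] (f : J → ℕ) (c : J → ℂ)

/-- the polynomial -/
noncomputable def Qp (j : J) : ℂ[X] := 1 - C (c j) * X ^ f j

variable {f c}

lemma Qp_eval (j : J) (x : ℂ) : (Qp f c j).eval x = 1 - c j * x ^ f j := by
  unfold Qp
  simp

lemma Qp_form {j : J} (hc : c j ≠ 0) : Qp f c j = C (-c j) * (X ^ f j + C (-(c j)⁻¹)) := by
  unfold Qp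
  rw [mul_add, ← C_mul, neg_mul_neg, mul_inv_cancel₀ hc, C_1, C_neg]
  ring

lemma Qp_lead {j : J} (hf : 0 < f j) (hc : c j ≠ 0) : (Qp f c j).leadingCoeff = -c j := by
  rw [Qp_form hc, leadingCoeff_mul, leadingCoeff_C, leadingCoeff_X_pow_add_C hf, mul_one]

lemma Qp_deg {j : J} (hc : c j ≠ 0) : (Qp f c j).natDegree = f j := by
  rw [Qp_form hc, natDegree_C_mul (neg_ne_zero.2 hc), natDegree_X_pow_add_C]

lemma Qp_ne {j : J} (hf : 0 < f j) (hc : c j ≠ 0) : Qp f c j ≠ 0 := by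
  intro h
  have := Qp_lead hf hc
  rw [h, leadingCoeff_zero] at this
  exact hc (neg_eq_zero.1 this.symm)

/-- **Power sums and products.** -/
theorem ps_prod (hf : ∀ j, 0 < f j) (hc : ∀ j, c j ≠ 0) (n : J → ℤ)
    (h : ∀ m : ℕ, 0 < m → ∑ j, (n j : ℂ) * tf (f j) (c j) m = 0) :
    ∏ j, ((-1) ^ (f j - 1) * c j) ^ (n j) = 1 := by
  classical
  set B : ℝ := 1 + ∑ j, ‖c j‖ with hB
  have hB1 : 1 ≤ B := by
    have : 0 ≤ ∑ j, ‖c j‖ := Finset.sum_nonneg fun _ _ => norm_nonneg _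
    linarith
  have hcB : ∀ j, ‖c j‖ ≤ B := by
    intro j
    have h1 : ‖c j‖ ≤ ∑ j, ‖c j‖ := Finset.single_le_sum (f := fun j => ‖c j‖)
      (fun _ _ => norm_nonneg _) (Finset.mem_univ j)
    linarith
  have hsmall : ∀ x : ℂ, ‖x‖ < B⁻¹ → ∀ j, ‖c j * x ^ f j‖ < 1 := by
    intro x hx j
    have hx1 : ‖x‖ ≤ 1 := hx.le.trans (inv_le_one_of_one_le₀ hB1)
    have h1 : ‖x ^ f j‖ ≤ ‖x‖ := by
      rw [norm_pow]
      exact pow_le_of_le_one (norm_nonneg _) hx1 (hf j).ne'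
    rw [norm_mul]
    have hB0 : 0 < B := by linarith
    calc ‖c j‖ * ‖x ^ f j‖ ≤ B * ‖x‖ := mul_le_mul (hcB j) h1 (norm_nonneg _) hB0.le
      _ < B * B⁻¹ := mul_lt_mul_of_pos_left hx hB0
      _ = 1 := mul_inv_cancel₀ hB0.ne'
  have hx : ∀ x : ℂ, ‖x‖ < B⁻¹ → ∏ j, (1 - c j * x ^ f j) ^ (n j) = 1 := by
    intro x hx
    have h1 := hasSum_sum (s := Finset.univ) fun j _ =>
      (tf_sum (hf j) (hsmall x hx j)).mul_left (n j : ℂ)
    have h2 : (fun m : ℕ => ∑ j, (n j : ℂ) * (tf (f j) (c j) (m + 1) * x ^ (m + 1) / (m + 1))) =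
        fun _ => 0 := by
      funext m
      have h3 := h (m + 1) (Nat.succ_pos _)
      have e : ∀ j, (n j : ℂ) * (tf (f j) (c j) (m + 1) * x ^ (m + 1) / (m + 1)) =
          ((n j : ℂ) * tf (f j) (c j) (m + 1)) * (x ^ (m + 1) / (m + 1)) := fun j => by ring
      rw [Finset.sum_congr rfl fun j _ => e j, ← Finset.sum_mul, h3, zero_mul]
    rw [h2] at h1
    have h3 := h1.unique hasSum_zero
    have h4 := congrArg Complex.exp h3
    rw [Complex.exp_sum, Complex.exp_zero] at h4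
    have e : ∀ j, Complex.exp ((n j : ℂ) * -Complex.log (1 - c j * x ^ f j)) =
        ((1 - c j * x ^ f j) ^ (n j))⁻¹ := by
      intro j
      rw [Complex.exp_int_mul, inv_exp (hsmall x hx j), inv_zpow]
    rw [Finset.prod_congr rfl fun j _ => e j, Finset.prod_inv_distrib, inv_eq_one] at h4
    exact h4
  set a : J → ℕ := fun j => (-(n j)).toNat with ha
  set b : J → ℕ := fun j => (n j).toNat with hb
  have hab : ∀ j, n j = (b j : ℤ) - (a j : ℤ) := by
    intro j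
    simp only [ha, hb]
    omega
  have hpoly : ∏ j, Qp f c j ^ b j = ∏ j, Qp f c j ^ a j := by
    refine eq_of_infinite_eval_eq _ _ ?_
    have hinf : (Metric.ball (0 : ℂ) B⁻¹).Infinite := by
      have hpos : 0 < B⁻¹ := by positivity
      exact infinite_of_mem_nhds (0 : ℂ) (Metric.ball_mem_nhds 0 hpos)
    refine hinf.mono fun x hxb => ?_
    rw [Metric.mem_ball, dist_zero_right] at hxb
    show eval x (∏ j, Qp f c j ^ b j) = eval x (∏ j, Qp f c j ^ a j)
    rw [eval_prod, eval_prod]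
    simp only [eval_pow, Qp_eval]
    have hne : ∀ j, (1 - c j * x ^ f j) ≠ 0 := fun j => one_sub_ne (hsmall x hxb j)
    have h1 := hx x hxb
    have h2 : ∏ j, (1 - c j * x ^ f j) ^ (n j) =
        (∏ j, (1 - c j * x ^ f j) ^ b j) / ∏ j, (1 - c j * x ^ f j) ^ a j := by
      rw [← Finset.prod_div_distrib]
      refine Finset.prod_congr rfl fun j _ => ?_
      rw [hab j, zpow_sub₀ (hne j), zpow_natCast, zpow_natCast]
    rw [h2, div_eq_one_iff_eq (Finset.prod_ne_zero_iff.2 fun j _ => pow_ne_zero _ (hne j))] at h1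
    exact h1
  have hlead : ∀ a : J → ℕ, (∏ j, Qp f c j ^ a j).leadingCoeff = ∏ j, (-c j) ^ a j := by
    intro a
    rw [leadingCoeff_prod]
    refine Finset.prod_congr rfl fun j _ => ?_
    rw [leadingCoeff_pow, Qp_lead (hf j) (hc j)]
  have hdeg : ∀ a : J → ℕ, (∏ j, Qp f c j ^ a j).natDegree = ∑ j, a j * f j := by
    intro a
    rw [natDegree_prod _ _ fun j _ => pow_ne_zero _ (Qp_ne (hf j) (hc j))]
    refine Finset.sum_congr rfl fun j _ => ?_
    rw [natDegree_pow, Qp_deg (hc j)]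
  have h5 : ∏ j, (-c j) ^ b j = ∏ j, (-c j) ^ a j := by rw [← hlead, ← hlead, hpoly]
  have h6 : ∑ j, b j * f j = ∑ j, a j * f j := by rw [← hdeg, ← hdeg, hpoly]
  have h7 : ∀ a : J → ℕ, ∏ j, ((-1) ^ (f j - 1) * c j) ^ a j =
      (-1) ^ (∑ j, a j * f j) * ∏ j, (-c j) ^ a j := by
    intro a
    rw [← Finset.prod_pow_eq_pow_sum, ← Finset.prod_mul_distrib]
    refine Finset.prod_congr rfl fun j _ => ?_
    have e : (-1 : ℂ) ^ (f j - 1) * c j = (-1) ^ f j * -c j := by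
      obtain ⟨k, hk⟩ := Nat.exists_eq_succ_of_ne_zero (hf j).ne'
      rw [hk, Nat.succ_sub_one, pow_succ]
      ring
    rw [e, mul_pow, ← pow_mul, mul_comm (f j)]
  have hy : ∀ j, ((-1 : ℂ) ^ (f j - 1) * c j) ≠ 0 := fun j =>
    mul_ne_zero (pow_ne_zero _ (neg_ne_zero.2 one_ne_zero)) (hc j)
  have h8 : ∏ j, ((-1) ^ (f j - 1) * c j) ^ (n j) =
      (∏ j, ((-1) ^ (f j - 1) * c j) ^ b j) / ∏ j, ((-1) ^ (f j - 1) * c j) ^ a j := by
    rw [← Finset.prod_div_distrib]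
    refine Finset.prod_congr rfl fun j _ => ?_
    rw [hab j, zpow_sub₀ (hy j), zpow_natCast, zpow_natCast]
  rw [h8, h7, h7, h5, h6, div_self]
  exact mul_ne_zero (pow_ne_zero _ (neg_ne_zero.2 one_ne_zero))
    (Finset.prod_ne_zero_iff.2 fun j _ => pow_ne_zero _ (neg_ne_zero.2 (hc j)))

end

/-- **The determinant from the traces of the powers.** -/
theorem det_ps {V : Type} [AddCommGroup V] [Module ℂ V] [FiniteDimensional ℂ V]
    (A : Module.End ℂ V) {N : ℕ} (hN : 0 < N) (hA : A ^ N = 1) {J : Type} [Fintype J] {f : J → ℕ}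
    {c : J → ℂ} (hf : ∀ j, 0 < f j) (hc : ∀ j, c j ≠ 0) (n : J → ℤ)
    (h : ∀ m : ℕ, 0 < m → LinearMap.trace ℂ V (A ^ m) = ∑ j, (n j : ℂ) * tf (f j) (c j) m) :
    LinearMap.det A = ∏ j, ((-1) ^ (f j - 1) * c j) ^ (n j) := by
  obtain ⟨ι, _, z, hz, hp⟩ := exists_diag A hN (by rw [pow_succ, hA, one_mul])
  have h1 : LinearMap.det A = ∏ i, z i := by
    have := (hp X).2
    rw [aeval_X] at this
    rw [this]
    exact Finset.prod_congr rfl fun i _ => eval_X
  have h2 : ∀ m, LinearMap.trace ℂ V (A ^ m) = ∑ i, z i ^ m := by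
    intro m
    have := (hp (X ^ m)).1
    rw [map_pow, aeval_X] at this
    rw [this]
    exact Finset.sum_congr rfl fun i _ => by rw [eval_pow, eval_X]
  have hdet : LinearMap.det A ≠ 0 := by
    intro h0
    have h3 : LinearMap.det (A ^ N) = 1 := by rw [hA, map_one]
    rw [map_pow, h0, zero_pow hN.ne'] at h3
    exact zero_ne_one h3
  have hz0 : ∀ i, z i ≠ 0 := by
    intro i hi
    apply hdet
    rw [h1]
    exact Finset.prod_eq_zero (Finset.mem_univ i) hi
  have h3 := ps_prod (J := ι ⊕ J) (f := Sum.elim (fun _ => 1) f) (c := Sum.elim z c)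
    (by rintro (i | j); exacts [one_pos, hf j]) (by rintro (i | j); exacts [hz0 i, hc j])
    (Sum.elim (fun _ => -1) n) (fun m hm => by
      rw [Fintype.sum_sum_type]
      simp only [Sum.elim_inl, Sum.elim_inr]
      rw [← h m hm, h2]
      have e : ∀ i, ((-1 : ℤ) : ℂ) * tf 1 (z i) m = -(z i ^ m) := by
        intro i
        unfold tf
        rw [if_pos (one_dvd _), Nat.div_one, Nat.cast_one, one_mul]
        push_cast
        ring
      rw [Finset.sum_congr rfl fun i _ => e i, Finset.sum_neg_distrib]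
      ring)
  rw [Fintype.prod_sum_type] at h3
  simp only [Sum.elim_inl, Sum.elim_inr] at h3
  have e : ∀ i, (((-1 : ℂ)) ^ (1 - 1) * z i) ^ (-1 : ℤ) = (z i)⁻¹ := by
    intro i
    rw [Nat.sub_self, pow_zero, one_mul, zpow_neg_one]
  rw [Finset.prod_congr rfl fun i _ => e i, Finset.prod_inv_distrib, ← h1] at h3
  rw [inv_mul_eq_one₀ hdet] at h3
  exact h3

end Pool.Agent.H508.D
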