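import Pool.Agent.H508.D.C2
import Pool.Agent.H508.D.P

/-!
# The sign of the permutation of the embeddings
-/

set_option autoImplicit false
set_option linter.unusedSectionVars false

open NumberField

namespace Pool.Agent.H508.D

open Pool.Agent.Y688 (RR wR w)
open Pool.Agent.K7.H73.GN (Em emF τf τf_w card_em)
open Equiv (Perm)

section perm
variable {X : Type} [Fintype X] [DecidableEq X]

lemma permMatrix_pow (π : Perm X) (m : ℕ) :
    (π ^ m).permMatrix ℂ = (π.permMatrix ℂ) ^ m := by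
  induction m with
  | zero => rw [pow_zero, pow_zero, Matrix.permMatrix_one]
  | succ m ih => rw [pow_succ, Matrix.permMatrix_mul, ih, pow_succ']

/-- the sign from the numbers of the fixed points of the powers -/
theorem sign_ps (π : Perm X) {J : Type} [Fintype J] {f : J → ℕ} (hf : ∀ j, 0 < f j)
    (h : ∀ m : ℕ, 0 < m → (((Function.fixedPoints ⇑(π ^ m)).ncard : ℕ) : ℂ) = ∑ j, tf (f j) 1 m) :
    ((Perm.sign π : ℤ) : ℂ) = ∏ j, (-1) ^ (f j - 1) := by
  have h1 := det_ps (V := X → ℂ) (Matrix.toLin' (π.permMatrix ℂ)) (N := orderOf π) (orderOf_pos π)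
    (by
      rw [← Matrix.toLin'_pow, ← permMatrix_pow, pow_orderOf_eq_one, Matrix.permMatrix_one,
        Matrix.toLin'_one]
      rfl) (J := J) (f := f) (c := fun _ => 1) hf (fun _ => one_ne_zero) (fun _ => 1)
    (fun m hm => by
      rw [← Matrix.toLin'_pow, ← permMatrix_pow, Matrix.trace_toLin'_eq, Matrix.trace_permutation,
        h m hm]
      exact Finset.sum_congr rfl fun j _ => by rw [Int.cast_one, one_mul])
  rw [LinearMap.det_toLin', Matrix.det_permutation] at h1
  rw [h1]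
  exact Finset.prod_congr rfl fun j _ => by rw [mul_one, zpow_one]

end perm

section emb
variable {N : Type} [Field N] [NumberField N] (ι : RR →+* 𝓞 N)

/-- the permutation of the embeddings -/
noncomputable def pe {σ : ℂ ≃+* ℂ} (hw : σ w = w) : Perm (Em ι) where
  toFun τ := ⟨(σ : ℂ →+* ℂ).comp τ.1, by
    show σ (τ.1 _) = w
    rw [τ.2, hw]⟩
  invFun τ := ⟨(σ.symm : ℂ →+* ℂ).comp τ.1, by
    show σ.symm (τ.1 _) = w
    rw [τ.2, RingEquiv.symm_apply_eq, hw]⟩
  left_inv τ := Subtype.ext (RingHom.ext fun x => σ.symm_apply_apply _)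
  right_inv τ := Subtype.ext (RingHom.ext fun x => σ.apply_symm_apply _)

lemma pe_apply {σ : ℂ ≃+* ℂ} (hw : σ w = w) (τ : Em ι) (x : N) : (pe ι hw τ).1 x = σ (τ.1 x) := rfl

open Classical in
/-- the sign of the automorphism -/
noncomputable def sg [Fintype (Em ι)] {σ : ℂ ≃+* ℂ} (hw : σ w = w) : ℂ :=
  ((Perm.sign (pe ι hw) : ℤ) : ℂ)

theorem dlt_sg [Fintype (Em ι)] {r : ℕ} (hN : Module.finrank ℚ N = 2 * (r + 1)) {σ : ℂ ≃+* ℂ}
    (hw : σ w = w) : σ (dlt ι hN) = sg ι hw * dlt ι hN := by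
  classical
  unfold dlt sg
  set e := emF ι hN with he
  have h1 : ((Matrix.of fun i j => τf ι hN i ((bN ι hN j : 𝓞 N) : N)).map σ) =
      (Matrix.of fun i j => τf ι hN i ((bN ι hN j : 𝓞 N) : N)).submatrix
        (e.symm.permCongr (pe ι hw)) id := by
    ext i j
    rw [Matrix.map_apply, Matrix.of_apply, Matrix.submatrix_apply, Matrix.of_apply]
    show σ ((e i).1 _) = (e (e.symm (pe ι hw (e i)))).1 _
    rw [Equiv.apply_symm_apply]
    rfl
  have h2 := RingEquiv.map_det σ (Matrix.of fun i j => τf ι hN i ((bN ι hN j : 𝓞 N) : N))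
  rw [h2]
  show ((Matrix.of fun i j => τf ι hN i ((bN ι hN j : 𝓞 N) : N)).map σ).det = _
  rw [h1, Matrix.det_permute, Perm.sign_permCongr]

lemma sg_sq [Fintype (Em ι)] {σ : ℂ ≃+* ℂ} (hw : σ w = w) : sg ι hw * sg ι hw = 1 := by
  unfold sg
  rw [← Int.cast_mul, ← Units.val_mul, Int.units_mul_self, Units.val_one, Int.cast_one]

end emb

end Pool.Agent.H508.D
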