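import Pool.Agent.H508.D.X2
import Pool.Agent.H508.D.S
import Pool.Agent.H508.D.E

/-!
# The characters at an unramified prime, the embeddings
-/

set_option autoImplicit false
set_option linter.unusedSectionVars false
set_option linter.style.haveILetI false

open Complex NumberField IsDedekindDomain

namespace Pool.Agent.H508.D

open Pool.Agent.K7.H70.SE (GoodG und0_tower rd)
open Pool.Agent.K7.H70.AR (Unr)
open Pool.Agent.Y696 (nK und0)
open Pool.Agent.Y688 (RR wR w)
open Pool.Agent.K7.H70.AW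
open Pool.Agent.K7.H73.GN (Em card_em)
open IntermediateField (fixedField subgroupEquivAlgEquiv)
open Equiv (Perm)
open scoped Classical

section emb

/-- two embeddings which agree on `K` -/
lemma exists_aut {K F : Type} [Field K] [Field F] [Algebra K F] [Normal K F]
    (e e' : F →+* ℂ) (h : ∀ x : K, e (algebraMap K F x) = e' (algebraMap K F x)) :
    ∃ g : Gal(F/K), ∀ x, e' x = e (g x) := by
  letI : Algebra F ℂ := e.toAlgebra
  letI : Algebra K ℂ := (e.comp (algebraMap K F)).toAlgebra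
  have : IsScalarTower K F ℂ := IsScalarTower.of_algebraMap_eq fun x => rfl
  let e'' : F →ₐ[K] ℂ := { e' with commutes' := fun x => (h x).symm }
  refine ⟨Normal.algHomEquivAut K ℂ F e'', fun x => ?_⟩
  have h1 := (Normal.algHomEquivAut K ℂ F).symm_apply_apply e''
  have h2 := congrArg (fun f : F →ₐ[K] ℂ => f x) h1
  exact h2.symm

lemma exists_ext {M F : Type} [Field M] [Field F] [Algebra M F] [Algebra.IsAlgebraic M F]
    (τ : M →+* ℂ) : ∃ τ' : F →+* ℂ, ∀ x : M, τ' (algebraMap M F x) = τ x := by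
  letI : Algebra M ℂ := τ.toAlgebra
  exact ⟨(IsAlgClosed.lift : F →ₐ[M] ℂ), fun x => (IsAlgClosed.lift : F →ₐ[M] ℂ).commutes x⟩

variable {K : Type} [Field K] [NumberField K]

/-- the quadratic field is generated by the Eisenstein integers -/
lemma K_ext (ι : RR →+* 𝓞 K) (hK : Module.finrank ℚ K = 2) {f g : K →+* ℂ}
    (hf : f ((ι wR : 𝓞 K) : K) = w) (hg : g ((ι wR : 𝓞 K) : K) = w) : f = g := by
  have h1 : Nat.card (Em ι) = 1 := by
    have := card_em ι (r := 0) (by rw [hK])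
    exact this
  have h2 : Subsingleton (Em ι) := (Nat.card_eq_one_iff_unique.1 h1).1
  exact congrArg Subtype.val (h2.elim (⟨f, hf⟩ : Em ι) ⟨g, hg⟩)

end emb

section
variable {K F : Type} [Field K] [NumberField K] [Field F] [NumberField F] [Algebra K F]

/-- a Frobenius element at an unramified prime -/
structure Pl (K : Type) [Field K] [NumberField K] [Algebra K F] (W : HeightOneSpectrum (𝓞 F))
    (N : ℕ) (g : Gal(F/K)) : Prop where
  unr : Unr K F N
  nW : (N : 𝓞 F) ∉ W.asIdeal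
  fr : ∀ x : 𝓞 F, g • x - x ^ nK (und0 K W) ∈ W.asIdeal

variable {W : HeightOneSpectrum (𝓞 F)} {N : ℕ} {g : Gal(F/K)}

lemma Pl.av (h : Pl K W N g) (χ : Gal(F/K) → ℂ) (m : ℕ) : av K χ W m = χ (g ^ m) := by
  have hI : ∀ i : W.asIdeal.inertia Gal(F/K), i = 1 := fun i =>
    Subtype.ext (h.unr W h.nW i.1 i.2)
  have hsub : Unique (W.asIdeal.inertia Gal(F/K)) := ⟨⟨1⟩, hI⟩
  rw [av_eq h.fr, Fintype.sum_unique, Nat.card_unique]
  rw [hI default, Nat.cast_one, inv_one, one_mul]
  show χ (g ^ m * (1 : Gal(F/K))) = _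
  rw [mul_one]

/-- the prime below contains the same natural numbers -/
lemma und_nat {M : Type} [Field M] [NumberField M] [Algebra M F] (u : HeightOneSpectrum (𝓞 F))
    (N : ℕ) : (N : 𝓞 M) ∈ (und0 M u).asIdeal ↔ (N : 𝓞 F) ∈ u.asIdeal := by
  show algebraMap (𝓞 M) (𝓞 F) (N : 𝓞 M) ∈ u.asIdeal ↔ _
  rw [map_natCast]

variable [IsGalois K F]

/-- the primes of the intermediate field -/
lemma Pl.up (h : Pl K W N g) (C : Subgroup Gal(F/K))
    {wf : HeightOneSpectrum (𝓞 (fixedField C)) → HeightOneSpectrum (𝓞 F)}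
    (hwf : ∀ u, und0 (fixedField C) (wf u) = u)
    {φ : HeightOneSpectrum (𝓞 (fixedField C)) → Gal(F/fixedField C)}
    (hφ : ∀ u, ∀ x : 𝓞 F, φ u • x - x ^ nK u ∈ (wf u).asIdeal)
    {u : HeightOneSpectrum (𝓞 (fixedField C))} (hu : und0 K u = und0 K W) :
    Pl (fixedField C) (wf u) N (φ u) where
  unr w hw σ hσ := by
    have h1 := h.unr w hw (σ.restrictScalars K) hσ
    ext x
    exact congrArg (fun f : Gal(F/K) => f x) h1
  nW hN := by
    apply h.nW
    rw [← und_nat (M := K), ← hu, ← hwf u, und0_tower, und_nat]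
    exact hN
  fr x := by
    rw [hwf u]
    exact hφ u x

/-- **the class function induced by a linear character at an unramified prime** -/
theorem Pl.jj (h : Pl K W N g) (C : Subgroup Gal(F/K)) (X : Gal(F/fixedField C) →* ℂˣ)
    {wf : HeightOneSpectrum (𝓞 (fixedField C)) → HeightOneSpectrum (𝓞 F)}
    (hwf : ∀ u, und0 (fixedField C) (wf u) = u)
    {φ : HeightOneSpectrum (𝓞 (fixedField C)) → Gal(F/fixedField C)}
    (hφ : ∀ u, ∀ x : 𝓞 F, φ u • x - x ^ nK u ∈ (wf u).asIdeal) {m : ℕ} (hm : 0 < m) :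
    (Nat.card C : ℂ)⁻¹ * JJ C (fun c => ((X (subgroupEquivAlgEquiv C c) : ℂˣ) : ℂ)) (g ^ m) =
      ∑ u : {u : HeightOneSpectrum (𝓞 (fixedField C)) // und0 K u = und0 K W},
        tf (rd K u.1) ((X (φ u.1) : ℂˣ) : ℂ) m := by
  have h0 : (Nat.card C : ℂ) ≠ 0 := Nat.cast_ne_zero.2 Nat.card_pos.ne'
  rw [← h.av (JJ C (fun c => ((X (subgroupEquivAlgEquiv C c) : ℂˣ) : ℂ))) m, LOC.t_loc K F C (fun g => ((X g : ℂˣ) : ℂ)) (fun a b => by
    rw [map_mul, map_mul, map_inv, mul_right_comm, mul_inv_cancel, one_mul]) wf hwf W m hm,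
    inv_mul_cancel_left₀ h0]
  refine Finset.sum_congr rfl fun u _ => ?_
  unfold tf
  rw [(h.up C hwf hφ u.2).av, map_pow, Units.val_pow_eq_pow_val]

/-- the restrictions of the embeddings -/
noncomputable def rE (ι : RR →+* 𝓞 K) (C : Subgroup Gal(F/K)) {e : F →+* ℂ}
    (he : e (algebraMap K F ((ι wR : 𝓞 K) : K)) = w) (h : Gal(F/K)) :
    Em (upι (fixedField C) ι) :=
  ⟨(e.comp (h : F →+* F)).comp (algebraMap (fixedField C) F), by
    show e (h (algebraMap (fixedField C) F (algebraMap K (fixedField C) ((ι wR : 𝓞 K) : K)))) = w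
    rw [← IsScalarTower.algebraMap_apply, h.commutes, he]⟩

variable (ι : RR →+* 𝓞 K) (C : Subgroup Gal(F/K)) {e : F →+* ℂ}
    (he : e (algebraMap K F ((ι wR : 𝓞 K) : K)) = w)

lemma rE_surj (hK : Module.finrank ℚ K = 2) : Function.Surjective (rE ι C he) := by
  intro τ
  obtain ⟨τ', hτ'⟩ := exists_ext (F := F) τ.1
  have h1 : e.comp (algebraMap K F) = τ'.comp (algebraMap K F) := by
    refine K_ext ι hK he ?_
    have h2 := hτ' (algebraMap K (fixedField C) ((ι wR : 𝓞 K) : K))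
    rw [← IsScalarTower.algebraMap_apply] at h2
    exact h2.trans τ.2
  obtain ⟨g, hg⟩ := exists_aut e τ' fun x => congrArg (fun f : K →+* ℂ => f x) h1
  refine ⟨g, Subtype.ext (RingHom.ext fun x => ?_)⟩
  show e (g (algebraMap (fixedField C) F x)) = τ.1 x
  rw [← hg, hτ']

lemma rE_eq (h h' : Gal(F/K)) : rE ι C he h = rE ι C he h' ↔ h⁻¹ * h' ∈ C := by
  have h1 : rE ι C he h = rE ι C he h' ↔ ∀ x : fixedField C, h (x : F) = h' (x : F) := by
    constructor
    · intro heq x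
      have h2 := congrArg (fun τ : Em (upι (fixedField C) ι) => τ.1 x) heq
      exact e.injective h2
    · intro heq
      exact Subtype.ext (RingHom.ext fun x => congrArg e (heq x))
  rw [h1]
  have h2 : h⁻¹ * h' ∈ C ↔ h⁻¹ * h' ∈ (fixedField C).fixingSubgroup := by
    rw [IntermediateField.fixingSubgroup_fixedField]
  rw [h2, IntermediateField.mem_fixingSubgroup_iff]
  constructor
  · intro h3 x hx
    rw [AlgEquiv.mul_apply, ← h3 ⟨x, hx⟩, ← AlgEquiv.mul_apply, inv_mul_cancel]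
    rfl
  · intro h3 x
    have h4 := h3 x.1 x.2
    rw [AlgEquiv.mul_apply] at h4
    have h5 := congrArg h h4
    rw [← AlgEquiv.mul_apply, mul_inv_cancel] at h5
    exact h5.symm

lemma rE_card (hK : Module.finrank ℚ K = 2) (τ : Em (upι (fixedField C) ι)) :
    (Finset.univ.filter fun h : Gal(F/K) => rE ι C he h = τ).card = Nat.card C := by
  obtain ⟨h₀, rfl⟩ := rE_surj ι C he hK τ
  rw [Nat.card_eq_fintype_card, ← Finset.card_univ]
  symm
  refine Finset.card_bij (fun c _ => h₀ * (c : Gal(F/K))) ?_ ?_ ?_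
  · intro c _
    rw [Finset.mem_filter]
    refine ⟨Finset.mem_univ _, ?_⟩
    rw [eq_comm, rE_eq, inv_mul_cancel_left]
    exact c.2
  · intro c _ c' _ hcc
    exact Subtype.ext (mul_left_cancel hcc)
  · intro h hh
    rw [Finset.mem_filter, eq_comm, rE_eq] at hh
    exact ⟨⟨h₀⁻¹ * h, hh.2⟩, Finset.mem_univ _, mul_inv_cancel_left _ _⟩

lemma pe_rE {σ : ℂ ≃+* ℂ} (hw : σ w = w) {g : Gal(F/K)} (hg : ∀ x, e (g x) = σ (e x)) (m : ℕ)
    (h : Gal(F/K)) : ((pe (upι (fixedField C) ι) hw) ^ m) (rE ι C he h) = rE ι C he (g ^ m * h) := by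
  induction m with
  | zero => rw [pow_zero, pow_zero, one_mul]; rfl
  | succ m ih =>
    rw [pow_succ', Perm.mul_apply, ih, pow_succ', mul_assoc]
    refine Subtype.ext (RingHom.ext fun x => ?_)
    exact (hg _).symm

include he in
/-- **the fixed embeddings** -/
theorem fix_eq (hK : Module.finrank ℚ K = 2) {σ : ℂ ≃+* ℂ} (hw : σ w = w) {g : Gal(F/K)}
    (hg : ∀ x, e (g x) = σ (e x)) (m : ℕ) :
    (((Function.fixedPoints ⇑((pe (upι (fixedField C) ι) hw) ^ m)).ncard : ℕ) : ℂ) =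
      (Nat.card C : ℂ)⁻¹ * JJ C (fun _ => (1 : ℂ)) (g ^ m) := by
  have h0 : (Nat.card C : ℂ) ≠ 0 := Nat.cast_ne_zero.2 Nat.card_pos.ne'
  have hfin : Finite (Em (upι (fixedField C) ι)) := Finite.of_surjective _ (rE_surj ι C he hK)
  have : Fintype (Em (upι (fixedField C) ι)) := Fintype.ofFinite _
  have h1 : JJ C (fun _ => (1 : ℂ)) (g ^ m) = ∑ h : Gal(F/K),
      if ((pe (upι (fixedField C) ι) hw) ^ m) (rE ι C he h) = rE ι C he h then (1 : ℂ) else 0 := by
    unfold JJ
    refine Finset.sum_congr rfl fun h _ => ?_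
    rw [pe_rE ι C he hw hg]
    have h2 : rE ι C he (g ^ m * h) = rE ι C he h ↔ h⁻¹ * g ^ m * h ∈ C := by
      rw [eq_comm, rE_eq, mul_assoc]
    by_cases h3 : h⁻¹ * g ^ m * h ∈ C
    · rw [dif_pos h3, if_pos (h2.2 h3)]
    · rw [dif_neg h3, if_neg (fun h4 => h3 (h2.1 h4))]
  have h2 : ∀ τ : Em (upι (fixedField C) ι), (∑ h : Gal(F/K) with rE ι C he h = τ,
      if ((pe (upι (fixedField C) ι) hw) ^ m) (rE ι C he h) = rE ι C he h then (1 : ℂ) else 0) =
      if ((pe (upι (fixedField C) ι) hw) ^ m) τ = τ then (Nat.card C : ℂ) else 0 := by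
    intro τ
    rw [Finset.sum_congr rfl (g := fun _ => if ((pe (upι (fixedField C) ι) hw) ^ m) τ = τ then
      (1 : ℂ) else 0) (fun h hh => by rw [(Finset.mem_filter.1 hh).2]), Finset.sum_const, rE_card ι C he
      hK τ, nsmul_eq_mul]
    split_ifs
    · rw [mul_one]
    · rw [mul_zero]
  rw [h1, ← Finset.sum_fiberwise Finset.univ (rE ι C he), Finset.sum_congr rfl fun τ _ => h2 τ,
    ← Finset.sum_filter, Finset.sum_const, nsmul_eq_mul]
  have h3 : (Function.fixedPoints ⇑((pe (upι (fixedField C) ι) hw) ^ m)).ncard =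
      (Finset.univ.filter fun τ => ((pe (upι (fixedField C) ι) hw) ^ m) τ = τ).card := by
    rw [← Set.ncard_coe_finset]
    congr 1
    ext τ
    simp [Function.mem_fixedPoints, Function.IsFixedPt]
  rw [h3]
  field_simp

end

end Pool.Agent.H508.D
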