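import Pool.Agent.H508.D.M1

/-!
# Families of characters, the decomposition of a prime
-/

set_option autoImplicit false
set_option linter.unusedSectionVars false
set_option linter.style.haveILetI false

open Complex NumberField IsDedekindDomain

namespace Pool.Agent.H508.D

open Pool.Agent.K7.H70.EQ (HH)
open Pool.Agent.K7.H70.SE (GoodG und0_tower rd exists_above ps)
open Pool.Agent.K7.H70.AR (Unr)
open Pool.Agent.Y696 (nK und0 card_nm)
open Pool.Agent.Y688 (RR wR w)
open Pool.Agent.K7.H70.AW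
open Pool.Agent.K7.H70.TW (Fam)
open Pool.Agent.K7.H73.GN (Em card_em fin_RR free_RR finrank_RR)
open IntermediateField (fixedField subgroupEquivAlgEquiv)
open Equiv (Perm)
open scoped Classical

/-- powers of a continuation -/
lemma Ct.zp {R Λ : ℂ → ℂ} (h : Ct R Λ) (h0 : R 1 ≠ 0) (n : ℤ) :
    Ct (fun s => R s ^ n) (fun s => n * Λ s) where
  mero := fun z hz => (h.mero z hz).zpow n
  an := h.an.zpow h0
  eq s hs := by rw [h.eq s hs, ← Complex.exp_int_mul]

section
variable {K F : Type} [Field K] [NumberField K] [Field F] [NumberField F] [Algebra K F]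
  [IsGalois K F]

/-- the chosen primes above -/
noncomputable def wU (M F : Type) [Field M] [NumberField M] [Field F] [NumberField F] [Algebra M F]
    (u : HeightOneSpectrum (𝓞 M)) : HeightOneSpectrum (𝓞 F) := (exists_above (F := F) u).choose

lemma wU_und (M : Type) [Field M] [NumberField M] [Algebra M F] (u : HeightOneSpectrum (𝓞 M)) :
    und0 M (wU M F u) = u := (exists_above (F := F) u).choose_spec

/-- the character of the Galois group over the fixed field -/
noncomputable def upX (C : Subgroup Gal(F/K)) (X : C →* ℂˣ) : Gal(F/fixedField C) →* ℂˣ :=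
  X.comp (subgroupEquivAlgEquiv C).symm.toMonoidHom

lemma upX_eq (C : Subgroup Gal(F/K)) (X : C →* ℂˣ) (c : C) :
    upX C X (subgroupEquivAlgEquiv C c) = X c := by
  show X ((subgroupEquivAlgEquiv C).symm (subgroupEquivAlgEquiv C c)) = _
  rw [MulEquiv.symm_apply_apply]

lemma upX_sX (C : Subgroup Gal(F/K)) (X : C →* ℂˣ) (σ : ℂ ≃+* ℂ) :
    upX C (sX σ X) = sX σ (upX C X) := rfl

lemma upX_one (C : Subgroup Gal(F/K)) : upX C 1 = 1 := rfl

/-- the value at one for a character of a subgroup -/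
noncomputable def vC (ι : RR →+* 𝓞 K) (C : Subgroup Gal(F/K)) (X : C →* ℂˣ) : ℂ :=
  vv (LL (fixedField C) (PW (upι (fixedField C) ι)) (wU (fixedField C) F)
    (fun g => ((upX C X g : ℂˣ) : ℂ)))

variable {wf : HeightOneSpectrum (𝓞 K) → HeightOneSpectrum (𝓞 F)}
variable {L : Type} [Field L] [NumberField L] [Algebra F L]

lemma LL_JJ (ι : RR →+* 𝓞 K) (hwf : ∀ v, und0 K (wf v) = v) (C : Subgroup Gal(F/K)) (X : C →* ℂˣ)
    {s : ℂ} (hs : s ∈ HH) :
    LL K (PW ι) wf (fun g => (Nat.card C : ℂ)⁻¹ * JJ C (fun c => ((X c : ℂˣ) : ℂ)) g) s =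
      LL (fixedField C) (PW (upι (fixedField C) ι)) (wU (fixedField C) F)
        (fun g => ((upX C X g : ℂˣ) : ℂ)) s := by
  have h1 := LL_ind (wf := wf) LOC.t_loc Sum.t_sum C (fun g => ((upX C X g : ℂˣ) : ℂ)) (fun a b => by
    rw [map_mul, map_mul, map_inv, mul_right_comm, mul_inv_cancel, one_mul]) PW_bd PW_bd
    (PW_cmp ι) hwf (wU_und (fixedField C)) hs
  rw [← h1]
  simp only [upX_eq]

/-- **the function of a family of characters** -/
theorem ct_fam (hf : Fam L) (hr : Rays L) (ι : RR →+* 𝓞 K) (hwf : ∀ v, und0 K (wf v) = v)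
    {κ : Type} [Fintype κ] (C : κ → Subgroup Gal(F/K)) (X : ∀ i, C i →* ℂˣ) (n : κ → ℤ)
    {θ : Gal(F/K) → ℂ} (h : ∀ g, θ g = ∑ i, (n i : ℂ) * ((Nat.card (C i) : ℂ)⁻¹ *
      JJ (C i) (fun c => ((X i c : ℂˣ) : ℂ)) g)) :
    (∀ i, vC ι (C i) (X i) ≠ 0) ∧ ∃ R : ℂ → ℂ, Ct R (LL K (PW ι) wf θ) ∧
      R 1 = ∏ i, vC ι (C i) (X i) ^ n i := by
  have h1 : ∀ i, ∃ R : ℂ → ℂ, Ct R (LL (fixedField (C i)) (PW (upι (fixedField (C i)) ι))
      (wU (fixedField (C i)) F) (fun g => ((upX (C i) (X i) g : ℂˣ) : ℂ))) ∧ R 1 ≠ 0 := fun i => by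
    let _ : Algebra (fixedField (C i)) L :=
      ((algebraMap F L).comp (algebraMap (fixedField (C i)) F)).toAlgebra
    exact ct_PW hf hr (upι (fixedField (C i)) ι) (wU_und (fixedField (C i))) (upX (C i) (X i))
  choose R hR hR1 using h1
  have h2 : ∀ i, vC ι (C i) (X i) = R i 1 := fun i => vv_eq (hR i)
  refine ⟨fun i => by rw [h2]; exact hR1 i, _, Ct.congr (NV.Ct.prod fun i => Ct.zp (hR i) (hR1 i) (n i))
    fun s hs => ?_, ?_⟩
  · rw [funext h, LL_lin PW_bd (fun i => (n i : ℂ)) _ hs]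
    exact Finset.sum_congr rfl fun i _ => by rw [LL_JJ ι hwf (C i) (X i) hs]
  · exact Finset.prod_congr rfl fun i _ => by rw [h2]

end

section
variable {K F : Type} [Field K] [NumberField K] [Field F] [NumberField F] [Algebra K F]

/-- the Eisenstein integers are the integers of the quadratic field -/
lemma iota_surj (ι : RR →+* 𝓞 K) (hK : Module.finrank ℚ K = 2) : Function.Surjective ι := by
  letI := ι.toAlgebra
  haveI := fin_RR ι
  haveI := free_RR ι
  have h1 : Module.finrank RR (𝓞 K) = 1 := finrank_RR ι (r := 0) (by rw [hK])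
  obtain ⟨b, hb0, hb⟩ := (finrank_eq_one_iff' (K := RR) (V := 𝓞 K)).1 h1
  have hsm : ∀ (r : RR) (α : 𝓞 K), r • α = ι r * α := fun r α => Algebra.smul_def r α
  obtain ⟨d, hd⟩ := hb (b * b)
  rw [hsm] at hd
  have hbd : b = ι d := (mul_right_cancel₀ hb0 hd).symm
  intro x
  obtain ⟨r, hr⟩ := hb x
  exact ⟨r * d, by rw [← hr, hsm, map_mul, ← hbd]⟩

lemma iota_inj (ι : RR →+* 𝓞 K) : Function.Injective ι := by
  letI := ι.toAlgebra
  haveI := fin_RR ι
  have : Module.IsTorsionFree RR (𝓞 K) := Pool.Agent.K7.H73.GN.tf_RR ι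
  intro a b hab
  have h1 : ι (a - b) = 0 := by rw [map_sub, hab, sub_self]
  have h2 : (a - b) • (1 : 𝓞 K) = 0 := by
    rw [Algebra.smul_def, mul_one]
    exact h1
  rcases smul_eq_zero.1 h2 with h3 | h3
  · exact sub_eq_zero.1 h3
  · exact absurd h3 one_ne_zero

/-- the prime of the quadratic field -/
lemma prime_K (ι : RR →+* 𝓞 K) (hK : Module.finrank ℚ K = 2) {π : RR} (hπ : Prime π) {p : ℕ}
    (hp : Nat.card (RR ⧸ Ideal.span {π}) = p) {Q : HeightOneSpectrum (𝓞 K)}
    (hQ : ι π ∈ Q.asIdeal) : Ideal.span {ι π} = Q.asIdeal ∧ nK Q = p := by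
  let e : RR ≃+* 𝓞 K := RingEquiv.ofBijective ι ⟨iota_inj ι, iota_surj ι hK⟩
  have hmap : Ideal.span {ι π} = (Ideal.span {π}).map (e : RR →+* 𝓞 K) := by
    rw [Ideal.map_span, Set.image_singleton]
    rfl
  have hp1 : (Ideal.span {π} : Ideal RR).IsPrime :=
    (Ideal.span_singleton_prime hπ.ne_zero).2 hπ
  have hp2 : (Ideal.span {ι π} : Ideal (𝓞 K)).IsPrime := by
    rw [hmap]
    exact Ideal.map_isPrime_of_equiv e
  have hne : (Ideal.span {ι π} : Ideal (𝓞 K)) ≠ ⊥ := by
    rw [Ne, Ideal.span_singleton_eq_bot]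
    intro h0
    exact hπ.ne_zero (iota_inj ι (by rw [h0, map_zero]))
  have hmax := hp2.isMaximal hne
  have heq : Ideal.span {ι π} = Q.asIdeal := hmax.eq_of_le Q.isPrime.ne_top
    ((Ideal.span_singleton_le_iff_mem _).2 hQ)
  refine ⟨heq, ?_⟩
  rw [← card_nm, ← heq, hmap, ← hp]
  exact (Nat.card_congr (Ideal.quotientEquiv _ _ e rfl).toEquiv).symm

variable [IsGalois K F] {W : HeightOneSpectrum (𝓞 F)} {N : ℕ} {g : Gal(F/K)}

lemma JJ_at_one (C : Subgroup Gal(F/K)) : JJ C (fun _ => (1 : ℂ)) 1 = Nat.card Gal(F/K) := by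
  unfold JJ
  rw [Finset.sum_congr rfl (g := fun _ => (1 : ℂ)) (fun h _ => by
    rw [dif_pos]
    rw [mul_one, inv_mul_cancel]
    exact C.one_mem), Finset.sum_const, Finset.card_univ, nsmul_eq_mul, mul_one,
    Nat.card_eq_fintype_card]

lemma deg_fixed (C : Subgroup Gal(F/K)) :
    Module.finrank K (fixedField C) * Nat.card C = Nat.card Gal(F/K) := by
  rw [← IntermediateField.finrank_fixedField_eq_card, IsGalois.card_aut_eq_finrank]
  exact Module.finrank_mul_finrank K (fixedField C) F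

/-- the sum of the residue degrees -/
lemma Pl.sum_rd (h : Pl K W N g) (C : Subgroup Gal(F/K)) :
    ∑ u : {u : HeightOneSpectrum (𝓞 (fixedField C)) // und0 K u = und0 K W}, rd K u.1 =
      Module.finrank K (fixedField C) := by
  have hrd : ∀ u : {u : HeightOneSpectrum (𝓞 (fixedField C)) // und0 K u = und0 K W},
      0 < rd K u.1 := fun u => (rdOk_all (K := K)).pos u.1
  choose φ hφ using fun u : HeightOneSpectrum (𝓞 (fixedField C)) =>
    exists_frob' (K := fixedField C) (wU (fixedField C) F u)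
  have hφ' : ∀ u, ∀ x : 𝓞 F, φ u • x - x ^ nK u ∈ (wU (fixedField C) F u).asIdeal := fun u x => by
    have := hφ u x
    rwa [wU_und] at this
  set m : ℕ := orderOf g * ∏ u : {u : HeightOneSpectrum (𝓞 (fixedField C)) // und0 K u = und0 K W},
    rd K u.1 with hm
  have hm0 : 0 < m := Nat.mul_pos (orderOf_pos g) (Finset.prod_pos fun u _ => hrd u)
  have h1 := h.jj C 1 (wU_und (fixedField C)) hφ' hm0
  have hgm : g ^ m = 1 := by rw [hm, pow_mul, pow_orderOf_eq_one, one_pow]
  have hC0 : (Nat.card C : ℂ) ≠ 0 := Nat.cast_ne_zero.2 Nat.card_pos.ne'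
  rw [hgm] at h1
  have h2 : JJ C (fun c => (((1 : Gal(F/fixedField C) →* ℂˣ) (subgroupEquivAlgEquiv C c) : ℂˣ) : ℂ))
      1 = Nat.card Gal(F/K) := JJ_at_one C
  rw [h2, ← deg_fixed C, Nat.cast_mul, mul_comm (Module.finrank K (fixedField C) : ℂ),
    inv_mul_cancel_left₀ hC0] at h1
  have h3 : ∀ u : {u : HeightOneSpectrum (𝓞 (fixedField C)) // und0 K u = und0 K W},
      tf (rd K u.1) (((1 : Gal(F/fixedField C) →* ℂˣ) (φ u.1) : ℂˣ) : ℂ) m = rd K u.1 := by
    intro u
    have hdm : rd K u.1 ∣ m := by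
      have h4 : rd K u.1 ∣ ∏ u : {u : HeightOneSpectrum (𝓞 (fixedField C)) //
          und0 K u = und0 K W}, rd K u.1 := Finset.dvd_prod_of_mem
        (fun u : {u : HeightOneSpectrum (𝓞 (fixedField C)) // und0 K u = und0 K W} => rd K u.1)
        (Finset.mem_univ u)
      exact h4.trans (dvd_mul_left _ _)
    unfold tf
    rw [if_pos hdm, MonoidHom.one_apply, Units.val_one, one_pow, mul_one]
  rw [Finset.sum_congr rfl fun u _ => h3 u, ← Nat.cast_sum] at h1
  exact_mod_cast h1.symm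

/-- **the decomposition of an unramified prime** -/
theorem Pl.split (h : Pl K W N g) (C : Subgroup Gal(F/K)) {x : 𝓞 K}
    (hx : Ideal.span {x} = (und0 K W).asIdeal) :
    Ideal.span {algebraMap (𝓞 K) (𝓞 (fixedField C)) x} =
      ∏ u : {u : HeightOneSpectrum (𝓞 (fixedField C)) // und0 K u = und0 K W}, u.1.asIdeal := by
  have hmap : Ideal.span {algebraMap (𝓞 K) (𝓞 (fixedField C)) x} =
      (und0 K W).asIdeal.map (algebraMap (𝓞 K) (𝓞 (fixedField C))) := by
    rw [← hx, Ideal.map_span, Set.image_singleton]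
  rw [hmap]
  set I := (und0 K W).asIdeal.map (algebraMap (𝓞 K) (𝓞 (fixedField C))) with hI
  have hinj : ∀ u v : {u : HeightOneSpectrum (𝓞 (fixedField C)) // und0 K u = und0 K W},
      u.1.asIdeal = v.1.asIdeal → u = v := fun u v huv => Subtype.ext (HeightOneSpectrum.ext huv)
  have hdvd : (∏ u : {u : HeightOneSpectrum (𝓞 (fixedField C)) // und0 K u = und0 K W},
      u.1.asIdeal) ∣ I := by
    have h1 := Finset.prod_primes_dvd (s := Finset.univ.image
      (fun u : {u : HeightOneSpectrum (𝓞 (fixedField C)) // und0 K u = und0 K W} => u.1.asIdeal)) I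
      (fun a ha => by
        obtain ⟨u, -, rfl⟩ := Finset.mem_image.1 ha
        exact u.1.prime) (fun a ha => by
        obtain ⟨u, -, rfl⟩ := Finset.mem_image.1 ha
        rw [Ideal.dvd_iff_le, hI, Ideal.map_le_iff_le_comap]
        have := congrArg HeightOneSpectrum.asIdeal u.2
        exact this.ge)
    rwa [Finset.prod_image fun u _ v _ huv => hinj u v huv] at h1
  have hR := rdOk_all (K := K) (M := fixedField C)
  have hn1 : Ideal.absNorm I = nK (und0 K W) ^ Module.finrank K (fixedField C) := by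
    rw [hI, Ideal.absNorm_algebraMap, IsFractionRing.finrank_eq (𝓞 K) K (𝓞 (fixedField C))
      (fixedField C)]
    rfl
  have hn2 : Ideal.absNorm (∏ u : {u : HeightOneSpectrum (𝓞 (fixedField C)) //
      und0 K u = und0 K W}, u.1.asIdeal) = nK (und0 K W) ^ Module.finrank K (fixedField C) := by
    rw [map_prod, ← h.sum_rd C, ← Finset.prod_pow_eq_pow_sum]
    refine Finset.prod_congr rfl fun u _ => ?_
    have := hR.norm u.1
    rw [u.2] at this
    exact this
  obtain ⟨J, hJ⟩ := hdvd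
  have hJ1 : Ideal.absNorm J = 1 := by
    have h1 := congrArg Ideal.absNorm hJ
    rw [map_mul, hn1, hn2] at h1
    have h2 : 0 < nK (und0 K W) ^ Module.finrank K (fixedField C) :=
      pow_pos (Nat.pos_of_ne_zero (nK_ne _)) _
    exact Nat.eq_of_mul_eq_mul_left h2 (by rw [mul_one]; exact h1.symm)
  rw [Ideal.absNorm_eq_one_iff] at hJ1
  rw [hJ, hJ1, Ideal.mul_top]

end

end Pool.Agent.H508.D
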