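import Pool.Agent.H508.D.V
import Pool.Agent.H508.D.K3
import Pool.Graph.R_seed8.Y688.F1

/-!
# The choice of the place
-/

set_option autoImplicit false

open Complex NumberField
open scoped PeriodPair

namespace Pool.Agent.H508.D

open Pool.Agent.Y688 Pool.Agent.W192.HK Pool.Agent.TH936.CM Pool.Agent.R430
open Pool.Agent.W245.EB H667R3
open Polynomial (X C)

lemma card_fix {k : Type} [Field k] {p : ℕ} (hp : p.Prime) (h0 : (p : k) = 0)
    (h : ∀ x : k, x ^ p = x) : Nat.card k = p := by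
  classical
  set P : Polynomial k := Polynomial.X ^ p - Polynomial.X with hP
  have hdeg : P.natDegree = p := FiniteField.X_pow_card_sub_X_natDegree_eq k hp.one_lt
  have hne : P ≠ 0 := FiniteField.X_pow_card_sub_X_ne_zero k hp.one_lt
  have hroot : ∀ x : k, x ∈ P.roots.toFinset := fun x => by
    rw [Multiset.mem_toFinset, Polynomial.mem_roots hne, Polynomial.IsRoot.def, hP,
      Polynomial.eval_sub, Polynomial.eval_pow, Polynomial.eval_X, h x, sub_self]
  have hfin : Finite k := Set.finite_univ_iff.1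
    (Set.Finite.subset (Finset.finite_toSet P.roots.toFinset) fun x _ => hroot x)
  have : Fintype k := Fintype.ofFinite k
  rw [Nat.card_eq_fintype_card]
  apply le_antisymm
  · calc Fintype.card k = (Finset.univ : Finset k).card := rfl
      _ ≤ P.roots.toFinset.card := Finset.card_le_card fun x _ => hroot x
      _ ≤ Multiset.card P.roots := Multiset.toFinset_card_le _
      _ ≤ P.natDegree := Polynomial.card_roots' P
      _ = p := hdeg
  · have : Fact p.Prime := ⟨hp⟩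
    have h1 : addOrderOf (1 : k) = p := addOrderOf_eq_prime (by rw [nsmul_one, h0]) one_ne_zero
    have h2 := addOrderOf_dvd_card (x := (1 : k))
    rw [h1] at h2
    exact Nat.le_of_dvd Fintype.card_pos h2

section
variable {Γ : Type} [LinearOrderedCommGroupWithZero Γ] {v : Valuation ℂ Γ}

lemma v_integral {x : ℂ} (hx : IsIntegral ℤ x) : v x ≤ 1 :=
  Valuation.Integers.mem_of_integral (Valuation.integer.integers v) hx.tower_top

lemma v_unit {p : ℕ} (hp : p.Prime) (hv : v (p : ℂ) < 1) {k : ℤ} (hk : ¬ (p : ℤ) ∣ k) :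
    v (k : ℂ) = 1 := by
  refine le_antisymm (v_int k) (not_lt.1 fun h => ?_)
  obtain ⟨a, b, hab⟩ := (Int.isCoprime_iff_gcd_eq_one.2 (by
    rw [Int.gcd_comm]
    exact (Nat.Prime.coprime_iff_not_dvd hp).2 (fun hd => hk (Int.natCast_dvd.2 hd))) :
      IsCoprime k (p : ℤ))
  have h1 : ((a : ℂ) * k + b * p) = 1 := by exact_mod_cast hab
  have h2 : v ((a : ℂ) * k + b * p) < 1 := by
    refine v.map_add_lt ?_ ?_
    · rw [map_mul]
      exact mul_lt_one_of_nonneg_of_lt_one_right (v_int a) zero_le h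
    · rw [map_mul]
      exact mul_lt_one_of_nonneg_of_lt_one_right (v_int b) zero_le hv
  rw [h1, map_one] at h2
  exact lt_irrefl _ h2

end

variable {L : PeriodPair} {Ω : ℂ}

lemma wp_alg (h : HL L Ω) {n : ℕ} (hn : 0 < n) (hn1 : 1 < n) : IsAlgebraic ℚ (℘[L] (Ω / n)) := by
  have h2 : IsAlgebraic ℚ L.g₂ := by rw [h.g2]; exact isAlgebraic_zero
  have h3 : IsAlgebraic ℚ L.g₃ := by rw [h.g3]; exact isAlgebraic_one.neg
  have hn0 : (n : ℂ) ≠ 0 := by exact_mod_cast hn.ne'
  have hΩ : (n : ℂ) * (Ω / n) ∈ L.lattice := by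
    have e : (n : ℂ) * (Ω / n) = Ω * ((n * 1 : RR) : ℂ) / n := by
      push_cast
      field_simp
    rw [e, lat_iff h.toIsLat hn]
    exact dvd_mul_right _ _
  refine (torsion_EL h2 h3 hn hΩ).resolve_left fun hc => ?_
  have e : Ω / n = Ω * ((1 : RR) : ℂ) / n := by push_cast; rw [mul_one]
  rw [e, lat_iff h.toIsLat hn] at hc
  obtain ⟨k, hk⟩ := hc
  have h4 := congrArg (fun z : RR => Complex.normSq (z : ℂ)) hk
  push_cast at h4
  obtain ⟨N, hN⟩ := normSq_RR k
  rw [map_one, map_mul, hN, Complex.normSq_natCast] at h4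
  have h5 : n * n * N = 1 := by exact_mod_cast h4.symm
  have h6 := Nat.eq_one_of_mul_eq_one_right h5
  nlinarith [h6, Nat.eq_one_of_mul_eq_one_right h6]

/-- **the choice of the place** -/
theorem exists_pv (h : HL L Ω) {σ : ℂ ≃+* ℂ} (hw : σ w = w) {n : ℕ} (hn2 : Odd n) (hn3 : 3 ∣ n)
    {u : RR} (hun : IsCoprime u (n : RR)) (hu : Act L Ω σ n u) (K₀ : IntermediateField ℚ ℂ)
    [FiniteDimensional ℚ K₀] (N : ℕ) :
    ∃ p : ℕ, p.Prime ∧ N < p ∧ ∃ (Γ : Type) (_ : LinearOrderedCommGroupWithZero Γ)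
      (v : Valuation ℂ Γ), v (p : ℂ) < 1 ∧ (∀ x ∈ K₀, IsIntegral ℤ x → v (σ x - x ^ p) < 1) ∧
      ∃ π : RR, Prime π ∧ v (π : ℂ) < 1 ∧ Nat.card (RR ⧸ sp π) = p ∧ IsCoprime π (n : RR) ∧
        (n : RR) ∣ u - π := by
  have hn : 0 < n := hn2.pos
  have hn1 : 1 < n := lt_of_lt_of_le (by norm_num) (Nat.le_of_dvd hn hn3)
  have halg := wp_alg h hn hn1
  have hwint : IsIntegral ℤ w := RR_int (QR.om_mem qr)
  have hwalg : IsIntegral ℚ w := hwint.tower_top
  obtain ⟨m, hm0, hm⟩ := ((IsFractionRing.isAlgebraic_iff ℤ ℚ ℂ).2 halg).exists_integral_multiple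
  rw [zsmul_eq_mul] at hm
  let K₁ : IntermediateField ℚ ℂ := IntermediateField.adjoin ℚ {w}
  let K₂ : IntermediateField ℚ ℂ := IntermediateField.adjoin ℚ {℘[L] (Ω / n)}
  have f1 : FiniteDimensional ℚ K₁ := IntermediateField.adjoin.finiteDimensional hwalg
  have f2 : FiniteDimensional ℚ K₂ := IntermediateField.adjoin.finiteDimensional halg.isIntegral
  have hwK : w ∈ K₀ ⊔ K₁ ⊔ K₂ := (le_sup_right.trans le_sup_left : K₁ ≤ K₀ ⊔ K₁ ⊔ K₂)
    (IntermediateField.mem_adjoin_simple_self ℚ w)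
  have hpK : ℘[L] (Ω / n) ∈ K₀ ⊔ K₁ ⊔ K₂ := (le_sup_right : K₂ ≤ K₀ ⊔ K₁ ⊔ K₂)
    (IntermediateField.mem_adjoin_simple_self ℚ _)
  obtain ⟨p, hp, hpN, Γ, _, v, hv, hfr⟩ := exists_val σ (K₀ ⊔ K₁ ⊔ K₂) (N + m.natAbs + n + 3)
  refine ⟨p, hp, by omega, Γ, inferInstance, v, hv, fun x hx => hfr x
    ((le_sup_left.trans le_sup_left : K₀ ≤ K₀ ⊔ K₁ ⊔ K₂) hx), ?_⟩
  have hun' : ∀ k : ℤ, k ≠ 0 → k.natAbs < p → v (k : ℂ) = 1 := fun k hk0 hk => v_unit hp hv
    fun hd => by
      have h1 := Nat.le_of_dvd (Int.natAbs_pos.2 hk0) (Int.natCast_dvd.1 hd)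
      omega
  have hv2 : v (2 : ℂ) = 1 := by
    have := hun' 2 (by norm_num) (by norm_num; omega)
    exact_mod_cast this
  have hv3 : v (3 : ℂ) = 1 := by
    have := hun' 3 (by norm_num) (by norm_num; omega)
    exact_mod_cast this
  have hvn : v (n : ℂ) = 1 := by
    have := hun' n (by exact_mod_cast hn.ne') (by simp; omega)
    exact_mod_cast this
  have hvm : v (m : ℂ) = 1 := hun' m hm0 (by omega)
  -- the ideal
  let I : Ideal RR :=
    { carrier := {x : RR | v (x : ℂ) < 1}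
      add_mem' := fun {a b} ha hb => by
        show v ((a + b : RR) : ℂ) < 1
        push_cast
        exact v.map_add_lt ha hb
      zero_mem' := by
        show v ((0 : RR) : ℂ) < 1
        push_cast
        rw [map_zero]
        exact zero_lt_one
      smul_mem' := fun c x hx => by
        show v ((c * x : RR) : ℂ) < 1
        push_cast
        rw [map_mul]
        exact mul_lt_one_of_nonneg_of_lt_one_right (v_RR c) zero_le hx }
  have hI : ∀ x : RR, x ∈ I ↔ v (x : ℂ) < 1 := fun x => Iff.rfl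
  obtain ⟨q, hq⟩ : ∃ q : RR, I = Ideal.span {q} := ⟨_, (Submodule.IsPrincipal.span_singleton_generator
    (I : Submodule RR RR)).symm⟩
  have hqI : ∀ x : RR, q ∣ x ↔ v (x : ℂ) < 1 := fun x => by
    rw [← hI, hq, Ideal.mem_span_singleton]
  have hp0 : (p : RR) ≠ 0 := Nat.cast_ne_zero.2 hp.ne_zero
  have hq0 : q ≠ 0 := by
    rintro rfl
    have h1 := (hqI (p : RR)).2 (by push_cast; exact hv)
    exact hp0 (zero_dvd_iff.1 h1)
  have hqp : Prime q := by
    refine ⟨hq0, fun hu => ?_, fun a b hab => ?_⟩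
    · have h1 := (hqI 1).1 hu.dvd
      push_cast at h1
      rw [map_one] at h1
      exact lt_irrefl _ h1
    · rw [hqI] at hab
      push_cast at hab
      rw [map_mul] at hab
      by_contra hcon
      push Not at hcon
      rw [hqI, hqI, not_lt, not_lt] at hcon
      rw [le_antisymm (v_RR a) hcon.1, le_antisymm (v_RR b) hcon.2, one_mul] at hab
      exact lt_irrefl _ hab
  -- normalisation
  obtain ⟨π, hass, hπ3⟩ : ∃ π : RR, Associated q π ∧ (3 : RR) ∣ π - 1 := by
    rcases three_cases q with hl | ⟨e, t, het⟩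
    · exfalso
      have h1 : q ∣ 3 := by
        have h2 : Associated q lam := by
          obtain ⟨c, hc⟩ := hl
          rcases hqp.irreducible.isUnit_or_isUnit hc with h3 | h3
          · exact absurd h3 not_unit_lam
          · obtain ⟨c', rfl⟩ := h3
            exact ⟨c'⁻¹, by rw [hc, mul_assoc, Units.mul_inv, mul_one]⟩
        exact h2.dvd.trans lam_dvd_three
      rw [hqI] at h1
      push_cast at h1
      have h3 : v ((3 : RR) : ℂ) = v 3 := rfl
      rw [h3, hv3] at h1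
      exact lt_irrefl _ h1
    · refine ⟨q * ((e⁻¹ : RRˣ) : RR), ⟨e⁻¹, rfl⟩, ⟨t * ((e⁻¹ : RRˣ) : RR), ?_⟩⟩
      rw [het]
      have h1 : (e : RR) * ((e⁻¹ : RRˣ) : RR) = 1 := e.mul_inv
      linear_combination h1
  have hπI : ∀ x : RR, π ∣ x ↔ v (x : ℂ) < 1 := fun x => by
    rw [← hqI, hass.dvd_iff_dvd_left]
  have hπp : Prime π := hass.prime hqp
  have hcop : IsCoprime π (n : RR) := by
    refine (hπp.irreducible.coprime_iff_not_dvd).2 fun hd => ?_
    rw [hπI] at hd
    push_cast at hd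
    rw [hvn] at hd
    exact lt_irrefl _ hd
  have hcard : Nat.card (RR ⧸ sp π) = p := by
    have hmax : (sp π).IsMaximal := by
      have h1 : (sp π).IsPrime := (Ideal.span_singleton_prime hπp.ne_zero).2 hπp
      exact h1.isMaximal (by rw [Ne, Ideal.span_singleton_eq_bot]; exact hπp.ne_zero)
    let _ : Field (RR ⧸ sp π) := Ideal.Quotient.field _
    refine card_fix hp ?_ ?_
    · have h1 : ((p : ℕ) : RR ⧸ sp π) = Ideal.Quotient.mk (sp π) (p : RR) := by rw [map_natCast]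
      rw [h1, Ideal.Quotient.eq_zero_iff_mem, Ideal.mem_span_singleton, hπI]
      push_cast
      exact hv
    · intro x
      obtain ⟨x, rfl⟩ := Ideal.Quotient.mk_surjective x
      rw [← map_pow, Ideal.Quotient.eq, Ideal.mem_span_singleton, hπI]
      have hxK : (x : ℂ) ∈ K₀ ⊔ K₁ ⊔ K₂ := by
        obtain ⟨a, b, hr⟩ := (qr.mem x).1 x.2
        rw [hr]
        exact add_mem (intCast_mem _ _) (mul_mem (intCast_mem _ _) hwK)
      have h1 := hfr x hxK (RR_int x.2)
      rw [fix_RR hw] at h1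
      push_cast
      rw [← neg_sub, Valuation.map_neg]
      exact h1
  refine ⟨π, hπp, (hπI π).1 dvd_rfl, hcard, hcop, ?_⟩
  refine kron h hπ3 hp (by omega) hcard ((hπI π).1 dvd_rfl) hv2 hv3 hn hn2 hn3 hvn hw hu ?_ hcop hun
  -- the congruence for the value
  have hx : (m : ℂ) * ℘[L] (Ω / n) ∈ K₀ ⊔ K₁ ⊔ K₂ := mul_mem (intCast_mem _ _) hpK
  have h1 := hfr _ hx hm
  have h2 : v (℘[L] (Ω / n)) ≤ 1 := by
    have := v_integral (v := v) hm
    rwa [map_mul, hvm, one_mul] at this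
  have h3 : v ((m : ℂ) ^ p - m) < 1 := by
    have : Fact p.Prime := ⟨hp⟩
    have h4 : (p : ℤ) ∣ m ^ p - m := by
      rw [← ZMod.intCast_zmod_eq_zero_iff_dvd]
      push_cast
      rw [ZMod.pow_card, sub_self]
    obtain ⟨k, hk⟩ := h4
    have h5 : ((m : ℂ) ^ p - m) = (p : ℂ) * k := by exact_mod_cast congrArg (fun z : ℤ => (z : ℂ)) hk
    rw [h5, map_mul]
    exact mul_lt_one_of_nonneg_of_lt_one_left zero_le hv (v_int k)
  have e : σ (℘[L] (Ω / n)) - ℘[L] (Ω / n) ^ p = (m : ℂ)⁻¹ *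
      ((σ ((m : ℂ) * ℘[L] (Ω / n)) - ((m : ℂ) * ℘[L] (Ω / n)) ^ p) +
        ((m : ℂ) ^ p - m) * ℘[L] (Ω / n) ^ p) := by
    have hmc : (m : ℂ) ≠ 0 := by exact_mod_cast hm0
    rw [map_mul, map_intCast, mul_pow]
    field_simp
    ring
  rw [e, map_mul, map_inv₀, hvm, inv_one, one_mul]
  refine v.map_add_lt h1 ?_
  rw [map_mul, map_pow]
  exact mul_lt_one_of_nonneg_of_lt_one_left zero_le h3 (pow_le_one₀ zero_le h2)

end Pool.Agent.H508.D
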