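import Pool.Agent.H508.D.M2
import Pool.Agent.H508.D.V2

/-!
# The value at one of the function of a representation and the automorphisms
-/

set_option autoImplicit false
set_option linter.unusedSectionVars false
set_option linter.style.haveILetI false

open Complex NumberField IsDedekindDomain

namespace Pool.Agent.H508.D

open Pool.Agent.K7.H70.EQ (HH)
open Pool.Agent.K7.H70.SE (GoodG und0_tower rd exists_above ps)
open Pool.Agent.K7.H70.AR (Unr)
open Pool.Agent.Y696 (nK und0 card_nm)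
open Pool.Agent.Y688 (RR wR w HL v_int)
open Pool.Agent.K7.H70.AW
open Pool.Agent.K7.H70.TW (Fam)
open Pool.Agent.K7.H73.GN (Em card_em)
open IntermediateField (fixedField subgroupEquivAlgEquiv)
open Equiv (Perm)
open scoped Classical

section
variable {K F : Type} [Field K] [NumberField K] [Field F] [NumberField F] [Algebra K F]
  [IsGalois K F] {W : HeightOneSpectrum (𝓞 F)} {N : ℕ} {g : Gal(F/K)}

lemma sg_prod (ι : RR →+* 𝓞 K) (hK : Module.finrank ℚ K = 2) (h : Pl K W N g)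
    {e : F →+* ℂ} (he : e (algebraMap K F ((ι wR : 𝓞 K) : K)) = w) {σ : ℂ ≃+* ℂ} (hw : σ w = w)
    (hg : ∀ x, e (g x) = σ (e x)) (C : Subgroup Gal(F/K)) :
    sg (upι (fixedField C) ι) hw = ∏ u : {u : HeightOneSpectrum (𝓞 (fixedField C)) //
      und0 K u = und0 K W}, (-1) ^ (rd K u.1 - 1) := by
  choose φ hφ using fun u : HeightOneSpectrum (𝓞 (fixedField C)) =>
    exists_frob' (K := fixedField C) (wU (fixedField C) F u)
  have hφ' : ∀ u, ∀ x : 𝓞 F, φ u • x - x ^ nK u ∈ (wU (fixedField C) F u).asIdeal := fun u x => by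
    have := hφ u x
    rwa [wU_und] at this
  unfold sg
  refine sign_ps _ (fun u => (rdOk_all (K := K)).pos u.1) fun m hm => ?_
  rw [fix_eq ι C he hK hw hg m]
  exact h.jj C 1 (wU_und (fixedField C)) hφ' hm

/-- **the determinant in terms of the characters** -/
theorem det_fam {V : Type} [AddCommGroup V] [Module ℂ V] [FiniteDimensional ℂ V]
    (ρ : Representation ℂ Gal(F/K) V) (ι : RR →+* 𝓞 K) (hK : Module.finrank ℚ K = 2)
    {κ : Type} [Fintype κ] (C : κ → Subgroup Gal(F/K)) (X : ∀ i, C i →* ℂˣ) (n : κ → ℤ)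
    (hθ : ∀ g, LinearMap.trace ℂ V (ρ g⁻¹) = ∑ i, (n i : ℂ) * ((Nat.card (C i) : ℂ)⁻¹ *
      JJ (C i) (fun c => ((X i c : ℂˣ) : ℂ)) g)) (h : Pl K W N g)
    {e : F →+* ℂ} (he : e (algebraMap K F ((ι wR : 𝓞 K) : K)) = w) {σ : ℂ ≃+* ℂ} (hw : σ w = w)
    (hg : ∀ x, e (g x) = σ (e x))
    (φ : ∀ i, HeightOneSpectrum (𝓞 (fixedField (C i))) → Gal(F/fixedField (C i)))
    (hφ : ∀ i u, ∀ x : 𝓞 F, φ i u • x - x ^ nK u ∈ (wU (fixedField (C i)) F u).asIdeal) :
    LinearMap.det (ρ g⁻¹) = ∏ i, (sg (upι (fixedField (C i)) ι) hw *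
      ∏ u : {u : HeightOneSpectrum (𝓞 (fixedField (C i))) // und0 K u = und0 K W},
        ((upX (C i) (X i) (φ i u.1) : ℂˣ) : ℂ)) ^ n i := by
  have h1 := det_ps (V := V) (ρ g⁻¹) (N := orderOf g) (orderOf_pos g)
    (by rw [← map_pow, inv_pow, pow_orderOf_eq_one, inv_one, map_one])
    (J := Σ i : κ, {u : HeightOneSpectrum (𝓞 (fixedField (C i))) // und0 K u = und0 K W})
    (f := fun j => rd K j.2.1) (c := fun j => ((upX (C j.1) (X j.1) (φ j.1 j.2.1) : ℂˣ) : ℂ))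
    (fun j => (rdOk_all (K := K)).pos j.2.1) (fun j => Units.ne_zero _) (fun j => n j.1)
    (fun m hm => by
      rw [← map_pow, inv_pow, hθ, Fintype.sum_sigma]
      refine Finset.sum_congr rfl fun i _ => ?_
      have h2 := h.jj (C i) (upX (C i) (X i)) (wU_und (fixedField (C i))) (hφ i) hm
      simp only [upX_eq] at h2
      rw [h2, Finset.mul_sum])
  rw [h1, Fintype.prod_sigma]
  refine Finset.prod_congr rfl fun i _ => ?_
  rw [sg_prod ι hK h he hw hg (C i), ← Finset.prod_mul_distrib, ← Finset.prod_zpow]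

end

section
variable {K F L : Type} [Field K] [NumberField K] [Field F] [NumberField F] [Algebra K F]
  [IsGalois K F] [Field L] [NumberField L] [Algebra F L]
  {wf : HeightOneSpectrum (𝓞 K) → HeightOneSpectrum (𝓞 F)}

lemma JJ_sX (C : Subgroup Gal(F/K)) (X : C →* ℂˣ) (σ : ℂ ≃+* ℂ) (g : Gal(F/K)) :
    σ (JJ C (fun c => ((X c : ℂˣ) : ℂ)) g) = JJ C (fun c => ((sX σ X c : ℂˣ) : ℂ)) g := by
  unfold JJ
  rw [map_sum]
  refine Finset.sum_congr rfl fun h _ => ?_
  split_ifs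
  · rfl
  · rw [map_zero]

/-- the degrees of the fixed fields -/
lemma exists_deg (hK : Module.finrank ℚ K = 2) (C : Subgroup Gal(F/K)) :
    ∃ r : ℕ, Module.finrank ℚ (fixedField C) = 2 * (r + 1) ∧
      ((r + 1 : ℕ) : ℂ) = (Nat.card C : ℂ)⁻¹ * Nat.card Gal(F/K) := by
  have h1 : 0 < Module.finrank K (fixedField C) := Module.finrank_pos
  have h2 := Module.finrank_mul_finrank ℚ K (fixedField C)
  have h3 := deg_fixed C
  have hC0 : (Nat.card C : ℂ) ≠ 0 := Nat.cast_ne_zero.2 Nat.card_pos.ne'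
  refine ⟨Module.finrank K (fixedField C) - 1, ?_, ?_⟩
  · rw [Nat.sub_add_cancel h1, ← h2, hK]
  · rw [Nat.sub_add_cancel h1, ← h3]
    push_cast
    field_simp

/-- the characters of the representation -/
lemma exists_fam {V : Type} [AddCommGroup V] [Module ℂ V] [FiniteDimensional ℂ V]
    (ρ : Representation ℂ Gal(F/K) V) :
    ∃ (κ : Type) (_ : Fintype κ) (C : κ → Subgroup Gal(F/K)) (X : ∀ i, C i →* ℂˣ) (n : κ → ℤ),
      ∀ g, LinearMap.trace ℂ V (ρ g⁻¹) = ∑ i, (n i : ℂ) * ((Nat.card (C i) : ℂ)⁻¹ *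
        JJ (C i) (fun c => ((X i c : ℂˣ) : ℂ)) g) := by
  obtain ⟨κ, _, C, X, n, h⟩ := brauer ρ
  refine ⟨κ, inferInstance, C, fun i => (X i)⁻¹, n, fun g => ?_⟩
  refine (h g⁻¹).trans (Finset.sum_congr rfl fun i _ => ?_)
  rw [JJ_inv]
  congr 3
  funext c
  rw [map_inv]
  rfl

lemma prod_zpow_sum {κ : Type} (s : Finset κ) (f : κ → ℤ) {a : ℂ} (ha : a ≠ 0) :
    ∏ i ∈ s, a ^ f i = a ^ ∑ i ∈ s, f i := by
  induction s using Finset.induction_on with
  | empty => rw [Finset.prod_empty, Finset.sum_empty, zpow_zero]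
  | insert i s hi ih => rw [Finset.prod_insert hi, Finset.sum_insert hi, zpow_add₀ ha, ih]

lemma e_RR (ι : RR →+* 𝓞 K) {e : F →+* ℂ} (he : e (algebraMap K F ((ι wR : 𝓞 K) : K)) = w)
    (r : RR) : e (algebraMap K F ((ι r : 𝓞 K) : K)) = r := by
  obtain ⟨a, b, hab⟩ := (Pool.Agent.Y688.qr.mem r).1 r.2
  have hr : r = (a : RR) + (b : RR) * wR := Subtype.ext (by
    push_cast
    rw [Pool.Agent.Y688.wR_coe]
    exact hab)
  rw [hr]
  have h1 : ((ι ((a : RR) + (b : RR) * wR) : 𝓞 K) : K) = a + b * ((ι wR : 𝓞 K) : K) := by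
    rw [map_add, map_mul, map_intCast, map_intCast]
    push_cast
    rfl
  rw [h1, map_add, map_mul, map_intCast, map_intCast, map_add, map_mul, map_intCast, map_intCast, he]
  push_cast
  rw [Pool.Agent.Y688.wR_coe]

lemma degΩ {V : Type} [AddCommGroup V] [Module ℂ V] [FiniteDimensional ℂ V]
    (ρ : Representation ℂ Gal(F/K) V) {κ : Type} [Fintype κ] (C : κ → Subgroup Gal(F/K))
    (X : ∀ i, C i →* ℂˣ) (n : κ → ℤ)
    (hθ : ∀ g, LinearMap.trace ℂ V (ρ g⁻¹) = ∑ i, (n i : ℂ) * ((Nat.card (C i) : ℂ)⁻¹ *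
      JJ (C i) (fun c => ((X i c : ℂˣ) : ℂ)) g)) {r : κ → ℕ}
    (hr2 : ∀ i, ((r i + 1 : ℕ) : ℂ) = (Nat.card (C i) : ℂ)⁻¹ * Nat.card Gal(F/K)) {Ω : ℂ}
    (hΩ0 : Ω ≠ 0) : Ω ^ Module.finrank ℂ V = ∏ i, (Ω ^ (r i + 1)) ^ n i := by
  have h1 := hθ 1
  rw [inv_one, map_one, LinearMap.trace_one] at h1
  have h2 : ∀ i, (Nat.card (C i) : ℂ)⁻¹ * JJ (C i) (fun c => ((X i c : ℂˣ) : ℂ)) 1 =
      ((r i + 1 : ℕ) : ℂ) := fun i => by
    rw [hr2 i]
    congr 1
    unfold JJ
    rw [Finset.sum_congr rfl (g := fun _ => (1 : ℂ)) (fun h _ => by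
      have h3 : h⁻¹ * 1 * h ∈ C i := by
        rw [mul_one, inv_mul_cancel]
        exact (C i).one_mem
      rw [dif_pos h3]
      have h4 : (⟨h⁻¹ * 1 * h, h3⟩ : C i) = 1 := Subtype.ext (by simp)
      rw [h4]
      show ((X i 1 : ℂˣ) : ℂ) = 1
      rw [map_one, Units.val_one]), Finset.sum_const, Finset.card_univ, nsmul_eq_mul, mul_one,
      Nat.card_eq_fintype_card]
  rw [Finset.sum_congr rfl fun i _ => by rw [h2 i]] at h1
  have h3 : ((Module.finrank ℂ V : ℕ) : ℤ) = ∑ i, ((r i + 1 : ℕ) : ℤ) * n i := by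
    have h4 : ((Module.finrank ℂ V : ℕ) : ℤ) = ∑ i, n i * ((r i + 1 : ℕ) : ℤ) := by
      exact_mod_cast h1
    rw [h4]
    exact Finset.sum_congr rfl fun i _ => mul_comm _ _
  rw [← zpow_natCast, h3, ← prod_zpow_sum _ _ hΩ0]
  refine Finset.prod_congr rfl fun i _ => ?_
  rw [zpow_mul, zpow_natCast]

/-- the place of the field -/
lemma exists_W {Γ : Type} [LinearOrderedCommGroupWithZero Γ] (v : Valuation ℂ Γ) (e : F →+* ℂ)
    {p : ℕ} (hp : p.Prime) (hv : v (p : ℂ) < 1) :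
    ∃ W : HeightOneSpectrum (𝓞 F), ∀ x : 𝓞 F, x ∈ W.asIdeal ↔ v (e (x : F)) < 1 := by
  have hint : ∀ x : 𝓞 F, v (e (x : F)) ≤ 1 := fun x => v_integral (x.2.map e.toIntAlgHom)
  let I : Ideal (𝓞 F) :=
    { carrier := {x | v (e (x : F)) < 1}
      add_mem' := fun {a b} ha hb => by
        show v (e ((a + b : 𝓞 F) : F)) < 1
        push_cast
        rw [map_add]
        exact v.map_add_lt ha hb
      zero_mem' := by
        show v (e ((0 : 𝓞 F) : F)) < 1
        push_cast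
        rw [map_zero, map_zero]
        exact zero_lt_one
      smul_mem' := fun c x hx => by
        show v (e ((c * x : 𝓞 F) : F)) < 1
        push_cast
        rw [map_mul, map_mul]
        exact mul_lt_one_of_nonneg_of_lt_one_right (hint c) zero_le hx }
  have hI : ∀ x : 𝓞 F, x ∈ I ↔ v (e (x : F)) < 1 := fun x => Iff.rfl
  have hpr : I.IsPrime := by
    refine ⟨fun h => ?_, fun {a b} hab => ?_⟩
    · have h1 : (1 : 𝓞 F) ∈ I := by rw [h]; trivial
      rw [hI] at h1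
      push_cast at h1
      rw [map_one, map_one] at h1
      exact lt_irrefl _ h1
    · rw [hI] at hab
      push_cast at hab
      rw [map_mul, map_mul] at hab
      by_contra hcon
      push Not at hcon
      rw [hI, hI, not_lt, not_lt] at hcon
      rw [le_antisymm (hint a) hcon.1, le_antisymm (hint b) hcon.2, one_mul] at hab
      exact lt_irrefl _ hab
  refine ⟨⟨I, hpr, fun h => ?_⟩, hI⟩
  have h1 : ((p : ℕ) : 𝓞 F) ∈ I := by
    rw [hI]
    push_cast
    rw [map_natCast]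
    exact hv
  rw [h, Ideal.mem_bot, Nat.cast_eq_zero] at h1
  exact hp.ne_zero h1

/-- **The functions of the representations and the automorphisms of the complex numbers.** -/
theorem main_K (hf : Fam L) (hr : Rays L) (ι : RR →+* 𝓞 K) (hK : Module.finrank ℚ K = 2)
    (hwf : ∀ v, und0 K (wf v) = v) {V : Type} [AddCommGroup V] [Module ℂ V]
    [FiniteDimensional ℂ V] (ρ : Representation ℂ Gal(F/K) V) :
    (∃ R : ℂ → ℂ, Ct R (LL K (PW ι) wf (fun g => LinearMap.trace ℂ V (ρ g⁻¹))) ∧ R 1 ≠ 0) ∧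
    ∀ (L' : PeriodPair) (Ω : ℂ), HL L' Ω → ∀ σ : ℂ ≃+* ℂ, σ w = w → ∀ e : F →+* ℂ,
      e (algebraMap K F ((ι wR : 𝓞 K) : K)) = w → ∀ g : Gal(F/K), (∀ x, e (g x) = σ (e x)) →
      vv (LL K (PW ι) wf (fun g => σ (LinearMap.trace ℂ V (ρ g⁻¹)))) / Ω ^ Module.finrank ℂ V =
        σ (LinearMap.det (ρ g⁻¹)) *
          σ (vv (LL K (PW ι) wf (fun g => LinearMap.trace ℂ V (ρ g⁻¹))) /
            Ω ^ Module.finrank ℂ V) := by
  obtain ⟨κ, _, C, X, n, hθ⟩ := exists_fam ρ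
  obtain ⟨hne, R, hR, hR1⟩ := ct_fam (wf := wf) hf hr ι hwf C X n hθ
  refine ⟨⟨R, hR, by rw [hR1]; exact Finset.prod_ne_zero_iff.2 fun i _ => zpow_ne_zero _ (hne i)⟩,
    fun L' Ω hL σ hw e he g hg => ?_⟩
  -- the conjugate family
  have hθ' : ∀ g, σ (LinearMap.trace ℂ V (ρ g⁻¹)) = ∑ i, (n i : ℂ) * ((Nat.card (C i) : ℂ)⁻¹ *
      JJ (C i) (fun c => ((sX σ (X i) c : ℂˣ) : ℂ)) g) := fun g => by
    rw [hθ, map_sum]
    exact Finset.sum_congr rfl fun i _ => by
      rw [map_mul, map_mul, map_inv₀, map_intCast, map_natCast, JJ_sX]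
  obtain ⟨hne', R', hR', hR1'⟩ := ct_fam (wf := wf) hf hr ι hwf C (fun i => sX σ (X i)) n hθ'
  rw [vv_eq hR, vv_eq hR', hR1, hR1']
  -- the degrees
  choose r hr1 hr2 using fun i => exists_deg hK (C i)
  have hΩ0 : Ω ≠ 0 := hL.ne
  rw [degΩ ρ C X n hθ hr2 hΩ0]
  -- the moduli
  choose n' hodd h3n key using fun i => eqv_gen (K := fixedField (C i)) (F := F) hf hr
    (upι (fixedField (C i)) ι) (wU_und (fixedField (C i))) (upX (C i) (X i)) (hr1 i)
  set N' : ℕ := 3 * ∏ i, n' i with hN'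
  have hNodd : Odd N' := Odd.mul (by decide)
    (Finset.prod_induction _ Odd (fun _ _ => Odd.mul) odd_one fun i _ => hodd i)
  have hN3 : 3 ∣ N' := dvd_mul_right _ _
  have hNi : ∀ i, n' i ∣ N' := fun i => (Finset.dvd_prod_of_mem n' (Finset.mem_univ i)).trans
    (dvd_mul_left _ _)
  obtain ⟨u, v', huv, hu⟩ := exists_act hL hw hNodd.pos
  have hun : IsCoprime u (N' : RR) := by
    obtain ⟨k, hk⟩ := huv
    exact ⟨v', -k, by linear_combination hk⟩
  have hU : Pool.Agent.K7.H56.Unr2 F := Pool.Agent.K7.H56.M.unr2_down (F := F) (K := L) hf.two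
  obtain ⟨N₀, hN1, -, -, hunr⟩ := exists_unr (M := K) (F := F) hU
  let K₀ : IntermediateField ℚ ℂ := e.toRatAlgHom.fieldRange
  have hfd : FiniteDimensional ℚ K₀ :=
    Module.Finite.equiv (AlgEquiv.ofInjectiveField e.toRatAlgHom).toLinearEquiv
  obtain ⟨p, hp, hpN, Γ, _, v, hv, hfr, π, hπ, hvπ, hcard, hcop, huπ⟩ :=
    exists_pv hL hw hNodd hN3 hun hu K₀ N₀
  obtain ⟨W, hW⟩ := exists_W v e hp hv
  have hmemK : ι π ∈ (und0 K W).asIdeal := by
    show algebraMap (𝓞 K) (𝓞 F) (ι π) ∈ W.asIdeal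
    rw [hW]
    show v (e (algebraMap K F ((ι π : 𝓞 K) : K))) < 1
    rw [e_RR ι he]
    exact hvπ
  obtain ⟨hspan, hnK⟩ := prime_K ι hK hπ hcard hmemK
  have hPl : Pl K W N₀ g := by
    refine ⟨hunr, fun hN => ?_, fun x => ?_⟩
    · rw [hW] at hN
      push_cast at hN
      rw [map_natCast] at hN
      have h1 := v_unit hp hv (k := (N₀ : ℤ)) (fun hd => by
        have h2 := Nat.le_of_dvd (by omega) (Int.natCast_dvd_natCast.1 hd)
        omega)
      rw [Int.cast_natCast] at h1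
      rw [h1] at hN
      exact lt_irrefl _ hN
    · rw [hnK, hW]
      have h1 : ((g • x - x ^ p : 𝓞 F) : F) = g (x : F) - (x : F) ^ p := by
        push_cast
        rfl
      rw [h1, map_sub, map_pow, hg]
      exact hfr _ ⟨(x : F), rfl⟩ (x.2.map e.toIntAlgHom)
  -- the Frobenius elements
  have hφ1 : ∀ i, ∀ u : HeightOneSpectrum (𝓞 (fixedField (C i))), ∃ φ : Gal(F/fixedField (C i)),
      ∀ x : 𝓞 F, φ • x - x ^ nK u ∈ (wU (fixedField (C i)) F u).asIdeal := fun i u => by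
    obtain ⟨φ, hφ⟩ := exists_frob' (K := fixedField (C i)) (wU (fixedField (C i)) F u)
    rw [wU_und] at hφ
    exact ⟨φ, hφ⟩
  choose φ hφ using hφ1
  have hdet := det_fam ρ ι hK C X n hθ hPl he hw hg φ hφ
  -- the identity for each field
  have hkey : ∀ i, vC ι (C i) (sX σ (X i)) / Ω ^ (r i + 1) = σ (sg (upι (fixedField (C i)) ι) hw *
      ∏ u : {u : HeightOneSpectrum (𝓞 (fixedField (C i))) // und0 K u = und0 K W},
        ((upX (C i) (X i) (φ i u.1) : ℂˣ) : ℂ)) * σ (vC ι (C i) (X i) / Ω ^ (r i + 1)) := by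
    intro i
    have hcopi : IsCoprime π (n' i : RR) := hcop.of_isCoprime_of_dvd_right (Nat.cast_dvd_cast (hNi i))
    have h1 := key i L' Ω hL σ hw u π (hu.dvd hNodd.pos (hNi i))
      ((Nat.cast_dvd_cast (hNi i)).trans huπ) hcopi
      (Finset.univ.map (Function.Embedding.subtype _)) (by
        rw [Finset.prod_map]
        exact hPl.split (C i) hspan) (φ i) (hφ i)
    rw [Finset.prod_map] at h1
    have hd0 := dlt_ne (upι (fixedField (C i)) ι) (hr1 i)
    have hsg : σ (sg (upι (fixedField (C i)) ι) hw) = sg (upι (fixedField (C i)) ι) hw := by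
      unfold sg
      rw [map_intCast]
    have e1 : dlt (upι (fixedField (C i)) ι) (hr1 i) * vC ι (C i) (X i) / Ω ^ (r i + 1) =
      dlt (upι (fixedField (C i)) ι) (hr1 i) * (vC ι (C i) (X i) / Ω ^ (r i + 1)) := by ring
    have e2 : dlt (upι (fixedField (C i)) ι) (hr1 i) * vC ι (C i) (sX σ (X i)) / Ω ^ (r i + 1) =
      dlt (upι (fixedField (C i)) ι) (hr1 i) * (vC ι (C i) (sX σ (X i)) / Ω ^ (r i + 1)) := by ring
    have h2 : σ (dlt (upι (fixedField (C i)) ι) (hr1 i) * vC ι (C i) (X i) / Ω ^ (r i + 1)) *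
        ∏ u : {u : HeightOneSpectrum (𝓞 (fixedField (C i))) // und0 K u = und0 K W},
          σ ((upX (C i) (X i) (φ i u.1) : ℂˣ) : ℂ) =
        dlt (upι (fixedField (C i)) ι) (hr1 i) * vC ι (C i) (sX σ (X i)) / Ω ^ (r i + 1) := h1
    rw [e1, e2, map_mul, dlt_sg _ _ hw] at h2
    apply mul_left_cancel₀ hd0
    rw [← h2, map_mul, hsg, map_prod]
    ring
  rw [hdet, ← Finset.prod_div_distrib, ← Finset.prod_div_distrib, map_prod, map_prod,
    ← Finset.prod_mul_distrib]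
  refine Finset.prod_congr rfl fun i _ => ?_
  rw [← div_zpow, ← div_zpow, map_zpow₀, map_zpow₀, ← mul_zpow, hkey i]

end

end Pool.Agent.H508.D
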