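import Pool.Agent.H508.D.Z4

/-!
# The existence of the bases
-/

set_option autoImplicit false
set_option linter.unusedSectionVars false
set_option linter.style.haveILetI false

open Complex NumberField IsDedekindDomain TensorProduct

namespace Pool.Agent.H508.D

open scoped Classical

section
variable {F : Type} [Field F] [NumberField F] [IsGalois ℚ F]

/-- dual generators of normal bases -/
lemma exists_dual : ∃ x y : F, ∀ k : Gal(F/ℚ), ∑ h : Gal(F/ℚ), h y * h (k x) =
    if k = 1 then 1 else 0 := by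
  let b := IsGalois.normalBasis ℚ F
  have hnd := traceForm_nondegenerate ℚ F
  let b' := (Algebra.traceForm ℚ F).dualBasis hnd b
  refine ⟨b 1, b' 1, fun k => ?_⟩
  have h1 : ∑ h : Gal(F/ℚ), h (b' 1) * h (k (b 1)) =
      algebraMap ℚ F (Algebra.trace ℚ F (b' 1 * k (b 1))) := by
    rw [trace_eq_sum_automorphisms]
    exact Finset.sum_congr rfl fun h _ => (map_mul h _ _).symm
  have h2 : k (b 1) = b k := (IsGalois.normalBasis_apply k).symm
  have h3 : Algebra.trace ℚ F (b' 1 * b k) = if k = 1 then 1 else 0 := by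
    have h4 := LinearMap.BilinForm.apply_dualBasis_left hnd b 1 k
    rw [Algebra.traceForm_apply] at h4
    exact h4
  rw [h1, h2, h3]
  split_ifs
  · exact map_one _
  · exact map_zero _

variable {T : Type} [Field T] [NumberField T] {d : ℕ}

/-- the basis of the de Rham realisation exists -/
theorem exists_DR (ρ : Gal(F/ℚ) →* Matrix (Fin d) (Fin d) T) :
    ∃ B : Matrix (Fin d) (Fin d) (F ⊗[ℚ] T), IsDR ρ B := by
  obtain ⟨x, y, hxy⟩ := exists_dual (F := F)
  let B : Matrix (Fin d) (Fin d) (F ⊗[ℚ] T) := fun i j => ∑ g : Gal(F/ℚ), (g x) ⊗ₜ (ρ g i j)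
  let B' : Matrix (Fin d) (Fin d) (F ⊗[ℚ] T) := fun i j => ∑ g : Gal(F/ℚ), (g y) ⊗ₜ (ρ g⁻¹ i j)
  have h1 : B' * B = 1 := by
    ext i j
    rw [Matrix.mul_apply]
    have h2 : ∀ k, B' i k * B k j = ∑ h : Gal(F/ℚ), ∑ g : Gal(F/ℚ),
        (h y * h (g x)) ⊗ₜ[ℚ] (ρ h⁻¹ i k * ρ (h * g) k j) := fun k => by
      show (∑ g : Gal(F/ℚ), (g y) ⊗ₜ (ρ g⁻¹ i k)) * (∑ g : Gal(F/ℚ), (g x) ⊗ₜ (ρ g k j)) = _
      rw [Finset.sum_mul_sum]
      refine Finset.sum_congr rfl fun h _ => ?_
      rw [← Equiv.sum_comp (Equiv.mulLeft h) (fun g : Gal(F/ℚ) =>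
        ((h y) ⊗ₜ[ℚ] (ρ h⁻¹ i k)) * ((g x) ⊗ₜ[ℚ] (ρ g k j)))]
      refine Finset.sum_congr rfl fun g _ => ?_
      rw [Algebra.TensorProduct.tmul_mul_tmul]
      rfl
    rw [Finset.sum_congr rfl fun k _ => h2 k, Finset.sum_comm]
    have h3 : ∀ h : Gal(F/ℚ), ∑ k, ∑ g : Gal(F/ℚ),
        (h y * h (g x)) ⊗ₜ[ℚ] (ρ h⁻¹ i k * ρ (h * g) k j) =
        ∑ g : Gal(F/ℚ), (h y * h (g x)) ⊗ₜ[ℚ] (ρ g i j) := fun h => by
      rw [Finset.sum_comm]
      refine Finset.sum_congr rfl fun g _ => ?_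
      rw [← TensorProduct.tmul_sum]
      congr 1
      rw [← Matrix.mul_apply, ← map_mul, inv_mul_cancel_left]
    rw [Finset.sum_congr rfl fun h _ => h3 h, Finset.sum_comm]
    have h4 : ∀ g : Gal(F/ℚ), ∑ h : Gal(F/ℚ), (h y * h (g x)) ⊗ₜ[ℚ] (ρ g i j) =
        if g = 1 then 1 ⊗ₜ[ℚ] (ρ g i j) else 0 := fun g => by
      rw [← TensorProduct.sum_tmul, hxy]
      split_ifs
      · rfl
      · exact TensorProduct.zero_tmul _ _
    rw [Finset.sum_congr rfl fun g _ => h4 g, Finset.sum_ite_eq' Finset.univ (1 : Gal(F/ℚ)),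
      if_pos (Finset.mem_univ _), map_one, Matrix.one_apply, Matrix.one_apply]
    split_ifs
    · rfl
    · exact TensorProduct.tmul_zero _ _
  refine ⟨B, ?_, fun g => ?_⟩
  · have h2 := congrArg Matrix.det h1
    rw [Matrix.det_mul, Matrix.det_one] at h2
    exact IsUnit.of_mul_eq_one _ (by rw [mul_comm]; exact h2)
  · ext i j
    rw [Matrix.mul_apply]
    simp only [Matrix.map_apply]
    have h2 : ∀ k, inT (ρ g i k) * gal g (B k j) = ∑ h : Gal(F/ℚ),
        ((g * h) x) ⊗ₜ[ℚ] (ρ g i k * ρ h k j) := fun k => by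
      show _ * gal g (∑ g : Gal(F/ℚ), (g x) ⊗ₜ (ρ g k j)) = _
      rw [map_sum, Finset.mul_sum]
      refine Finset.sum_congr rfl fun h _ => ?_
      rw [gal_tmul, inT_apply, Algebra.TensorProduct.tmul_mul_tmul, one_mul]
      rfl
    rw [Finset.sum_congr rfl fun k _ => h2 k, Finset.sum_comm]
    refine Eq.trans ?_ (Equiv.sum_comp (Equiv.mulLeft g) (fun h : Gal(F/ℚ) =>
      (h x) ⊗ₜ[ℚ] (ρ h i j)))
    refine Finset.sum_congr rfl fun h _ => ?_
    rw [← TensorProduct.tmul_sum, ← Matrix.mul_apply, ← map_mul]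
    rfl

end

/-- **Eigenvectors of an involution.** -/
theorem exists_eig {T : Type} [Field T] [CharZero T] {d : ℕ} {C : Matrix (Fin d) (Fin d) T}
    (hC : C * C = 1) : ∃ (P : Matrix (Fin d) (Fin d) T) (ε : Fin d → ℤ),
      (∀ j, ε j = 1 ∨ ε j = -1) ∧ IsUnit P.det ∧
      C * P = P * Matrix.diagonal (fun j => (ε j : T)) := by
  let V := Fin d → T
  let f : V →ₗ[T] V := Matrix.toLin' C
  have hf : ∀ v, f (f v) = v := fun v => by
    show Matrix.toLin' C (Matrix.toLin' C v) = v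
    rw [← Matrix.toLin'_mul_apply, hC, Matrix.toLin'_one]
    rfl
  let Vp : Submodule T V := LinearMap.ker (f - LinearMap.id)
  let Vm : Submodule T V := LinearMap.ker (f + LinearMap.id)
  have hp : ∀ v, v ∈ Vp ↔ f v = v := fun v => by
    rw [LinearMap.mem_ker, LinearMap.sub_apply, LinearMap.id_apply, sub_eq_zero]
  have hm : ∀ v, v ∈ Vm ↔ f v = -v := fun v => by
    rw [LinearMap.mem_ker, LinearMap.add_apply, LinearMap.id_apply, add_eq_zero_iff_eq_neg]
  have hcompl : IsCompl Vp Vm := by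
    constructor
    · rw [Submodule.disjoint_def]
      intro v h1 h2
      rw [hp] at h1
      rw [hm] at h2
      have h3 : (2 : T) • v = 0 := by
        rw [two_smul]
        nth_rewrite 1 [← h1]
        rw [h2, neg_add_cancel]
      exact (smul_eq_zero.1 h3).resolve_left two_ne_zero
    · rw [codisjoint_iff, eq_top_iff]
      intro v _
      rw [Submodule.mem_sup]
      refine ⟨(1 / 2 : T) • (v + f v), ?_, (1 / 2 : T) • (v - f v), ?_, ?_⟩
      · rw [hp, map_smul, map_add, hf, add_comm]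
      · rw [hm, map_smul, map_sub, hf, ← smul_neg, neg_sub]
      · rw [← smul_add, add_add_sub_cancel, ← two_smul T v, smul_smul]
        norm_num
  let bp := Module.finBasis T Vp
  let bm := Module.finBasis T Vm
  let b₀ := (bp.prod bm).map (Submodule.prodEquivOfIsCompl Vp Vm hcompl)
  have hcard : Fintype.card (Fin (Module.finrank T Vp) ⊕ Fin (Module.finrank T Vm)) =
      Fintype.card (Fin d) := by
    rw [← Module.finrank_eq_card_basis b₀, Module.finrank_fin_fun, Fintype.card_fin]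
  let en := Fintype.equivOfCardEq hcard
  let b := b₀.reindex en
  let ε : Fin d → ℤ := fun j => Sum.elim (fun _ => 1) (fun _ => -1) (en.symm j)
  have hε : ∀ j, ε j = 1 ∨ ε j = -1 := fun j => by
    show Sum.elim (fun _ => (1 : ℤ)) (fun _ => -1) (en.symm j) = 1 ∨
      Sum.elim (fun _ => (1 : ℤ)) (fun _ => -1) (en.symm j) = -1
    rcases en.symm j with i | i
    · exact Or.inl rfl
    · exact Or.inr rfl
  have hfb : ∀ j, f (b j) = (ε j : T) • b j := fun j => by
    have h1 : b j = b₀ (en.symm j) := b₀.reindex_apply en j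
    show f (b j) = ((Sum.elim (fun _ => (1 : ℤ)) (fun _ => -1) (en.symm j) : ℤ) : T) • b j
    rw [h1]
    rcases en.symm j with i | i
    · have h2 : b₀ (Sum.inl i) = ((bp i : Vp) : V) := by
        show Submodule.prodEquivOfIsCompl Vp Vm hcompl ((bp.prod bm) (Sum.inl i)) = _
        rw [Module.Basis.prod_apply]
        simp
      rw [h2, (hp _).1 (bp i).2]
      simp
    · have h2 : b₀ (Sum.inr i) = ((bm i : Vm) : V) := by
        show Submodule.prodEquivOfIsCompl Vp Vm hcompl ((bp.prod bm) (Sum.inr i)) = _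
        rw [Module.Basis.prod_apply]
        simp
      rw [h2, (hm _).1 (bm i).2]
      simp
  let P : Matrix (Fin d) (Fin d) T := (Pi.basisFun T (Fin d)).toMatrix b
  have hP : ∀ i j, P i j = b j i := fun i j => rfl
  refine ⟨P, ε, hε, ?_, ?_⟩
  · have h1 := (Pi.basisFun T (Fin d)).isUnit_det b
    rw [Module.Basis.det_apply] at h1
    exact h1
  · ext i j
    rw [Matrix.mul_apply, Matrix.mul_diagonal]
    have h1 := congrFun (hfb j) i
    have h2 : f (b j) i = ∑ k, C i k * b j k := by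
      show Matrix.toLin' C (b j) i = _
      rw [Matrix.toLin'_apply]
      rfl
    rw [h2, Pi.smul_apply, smul_eq_mul] at h1
    simp only [hP]
    rw [h1, mul_comm]

end Pool.Agent.H508.D
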