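import Pool.Agent.H508.D.Z1

/-!
# Real and imaginary periods
-/

set_option autoImplicit false
set_option linter.unusedSectionVars false
set_option linter.style.haveILetI false

open Complex

namespace Pool.Agent.H508.D

open Pool.Agent.Y688 (RR wR w HL mem_RR conj_w wR_coe G_lat)

lemma cR_coe (r : RR) : ((cR r : RR) : ℂ) = (starRingEnd ℂ) (r : ℂ) := rfl

/-- the conjugation as a bijection -/
noncomputable def cE : RR ≃ RR where
  toFun := cR
  invFun := cR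
  left_inv r := Subtype.ext (by rw [cR_coe, cR_coe, Complex.conj_conj])
  right_inv r := Subtype.ext (by rw [cR_coe, cR_coe, Complex.conj_conj])

lemma sum_real (n : ℕ) : (starRingEnd ℂ) (∑' r : RR, ((r : ℂ) ^ n)⁻¹) =
    ∑' r : RR, ((r : ℂ) ^ n)⁻¹ := by
  rw [Complex.conj_tsum]
  rw [← cE.tsum_eq]
  refine tsum_congr fun r => ?_
  show (starRingEnd ℂ) ((((cR r : RR) : ℂ)) ^ n)⁻¹ = _
  rw [cR_coe, map_inv₀, map_pow, Complex.conj_conj]

lemma six_root {u : ℂ} (hu : u ^ 6 = 1) : ∃ r : RR, (r : ℂ) = u := by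
  have hw := Pool.Agent.Y688.w_sq
  have h1 : (u - 1) * ((u + 1) * ((u - w) * ((u + w) * ((u - (-1 - w)) * (u + (-1 - w)))))) = 0 := by
    have h2 : (u - w) * (u - (-1 - w)) = u ^ 2 + u + 1 := by linear_combination -hw
    have h3 : (u + w) * (u + (-1 - w)) = u ^ 2 - u + 1 := by linear_combination -hw
    calc (u - 1) * ((u + 1) * ((u - w) * ((u + w) * ((u - (-1 - w)) * (u + (-1 - w)))))) =
        (u - 1) * (u + 1) * ((u - w) * (u - (-1 - w))) * ((u + w) * (u + (-1 - w))) := by ring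
      _ = u ^ 6 - 1 := by rw [h2, h3]; ring
      _ = 0 := by rw [hu, sub_self]
  have hc : ((wR : RR) : ℂ) = w := wR_coe
  rcases mul_eq_zero.1 h1 with h | h
  · exact ⟨1, by push_cast; linear_combination -h⟩
  rcases mul_eq_zero.1 h with h | h
  · exact ⟨-1, by push_cast; linear_combination -h⟩
  rcases mul_eq_zero.1 h with h | h
  · exact ⟨wR, by rw [hc]; linear_combination -h⟩
  rcases mul_eq_zero.1 h with h | h
  · exact ⟨-wR, by push_cast; rw [hc]; linear_combination -h⟩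
  rcases mul_eq_zero.1 h with h | h
  · exact ⟨-1 - wR, by push_cast; rw [hc]; linear_combination -h⟩
  · exact ⟨1 + wR, by push_cast; rw [hc]; linear_combination -h⟩

/-- the lattice is stable under complex conjugation -/
lemma lat_conj {L' : PeriodPair} {Ω : ℂ} (hL : HL L' Ω) {z : ℂ} (hz : z ∈ L'.lattice) :
    (starRingEnd ℂ) z ∈ L'.lattice := by
  have h1 : Ω ^ 6 = -(140 * ∑' r : RR, ((r : ℂ) ^ 6)⁻¹) := by
    have h2 := hL.g3
    rw [PeriodPair.g₃, G_lat hL.toIsLat] at h2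
    have h3 : Ω ^ 6 ≠ 0 := pow_ne_zero _ hL.ne
    have h4 : Ω ^ 6 * (140 * ((Ω ^ 6)⁻¹ * ∑' r : RR, ((r : ℂ) ^ 6)⁻¹)) =
        140 * ∑' r : RR, ((r : ℂ) ^ 6)⁻¹ := by
      rw [show Ω ^ 6 * (140 * ((Ω ^ 6)⁻¹ * ∑' r : RR, ((r : ℂ) ^ 6)⁻¹)) =
        (Ω ^ 6 * (Ω ^ 6)⁻¹) * (140 * ∑' r : RR, ((r : ℂ) ^ 6)⁻¹) by ring, mul_inv_cancel₀ h3, one_mul]
    rw [h2] at h4
    linear_combination -h4
  have h2 : (starRingEnd ℂ) Ω ^ 6 = Ω ^ 6 := by
    rw [← map_pow, h1, map_neg, map_mul, sum_real, map_ofNat]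
  have h3 : ((starRingEnd ℂ) Ω / Ω) ^ 6 = 1 := by
    rw [div_pow, h2, div_self (pow_ne_zero _ hL.ne)]
  obtain ⟨u, hu⟩ := six_root h3
  obtain ⟨r, rfl⟩ := (hL.mem z).1 hz
  rw [map_mul, ← cR_coe]
  have h4 : (starRingEnd ℂ) Ω = u * Ω := by
    rw [hu, div_mul_cancel₀ _ hL.ne]
  rw [h4, mul_assoc]
  exact hL.mul u _ (hL.mem_mul (cR r))

/-- a real and an imaginary period -/
theorem exists_per {L' : PeriodPair} {Ω : ℂ} (hL : HL L' Ω) :
    (∃ a ∈ L'.lattice, a ≠ 0 ∧ (starRingEnd ℂ) a = a) ∧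
    (∃ b ∈ L'.lattice, b ≠ 0 ∧ (starRingEnd ℂ) b = -b) := by
  have hΩ : Ω ∈ L'.lattice := by
    have := hL.mem_mul 1
    push_cast at this
    rwa [mul_one] at this
  have hs : ((1 + wR + wR : RR) : ℂ) = 1 + 2 * w := by push_cast; rw [wR_coe]; ring
  have hs0 : (1 : ℂ) + 2 * w ≠ 0 := by
    intro h
    have h1 : (1 + 2 * w) ^ 2 = -3 := by
      have := Pool.Agent.Y688.w_sq
      linear_combination 4 * this
    rw [h] at h1
    norm_num at h1
  have hsc : (starRingEnd ℂ) (1 + 2 * w) = -(1 + 2 * w) := by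
    rw [map_add, map_mul, map_one, map_ofNat, conj_w]
    ring
  have hsΩ : (1 + 2 * w) * Ω ∈ L'.lattice := by
    rw [← hs]
    exact hL.mul _ _ hΩ
  have hcΩ := lat_conj hL hΩ
  constructor
  · by_cases h : Ω + (starRingEnd ℂ) Ω = 0
    · refine ⟨_, hsΩ, mul_ne_zero hs0 hL.ne, ?_⟩
      rw [map_mul, hsc, eq_neg_of_add_eq_zero_right h]
      ring
    · refine ⟨_, add_mem hΩ hcΩ, h, ?_⟩
      rw [map_add, Complex.conj_conj, add_comm]
  · by_cases h : Ω - (starRingEnd ℂ) Ω = 0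
    · refine ⟨_, hsΩ, mul_ne_zero hs0 hL.ne, ?_⟩
      rw [map_mul, hsc, ← sub_eq_zero.1 h]
      ring
    · refine ⟨_, sub_mem hΩ hcΩ, h, ?_⟩
      rw [map_sub, Complex.conj_conj]
      ring

end Pool.Agent.H508.D
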