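import Pool.Agent.H508.D.Z5
import Pool.Agent.H508.D.Q1
import Pool.Agent.H508.D.Q2
import Pool.Graph.R_pool_sql_team_seeded_35f281b4.K7.H70.AW.EveryArtinTwoExtensions

/-!
# The Euler product
-/

set_option autoImplicit false
set_option linter.unusedSectionVars false
set_option linter.style.haveILetI false

open Complex NumberField IsDedekindDomain

namespace Pool.Agent.H508.D

open Pool.Agent.K7.H70.EQ Pool.Agent.K7.H70.SE Pool.Agent.K7.H70.AR
open Pool.Agent.Y696 (nK und0 E0 card_nm)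
open Pool.Agent.K7.H70.AW
open Pool.Agent.K7.H70.TW (Fam)
open Pool.Agent.W189.NF (aV eV)
open scoped Classical

section
variable {K F : Type} [Field K] [NumberField K] [Field F] [NumberField F] [Algebra K F]
  [IsGalois K F] {V : Type} [AddCommGroup V] [Module ℂ V] [FiniteDimensional ℂ V]

/-- **the Euler product** -/
theorem euler (hK : GoodG K) (ρ : Representation ℂ Gal(F/K) V)
    (w : HeightOneSpectrum (𝓞 K) → HeightOneSpectrum (𝓞 F)) (hw : ∀ v, und0 K (w v) = v)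
    {R : ℂ → ℂ} (hR : Ct R (LL K (ps hK) w (fun g => LinearMap.trace ℂ V (ρ g⁻¹)))) {s : ℂ}
    (hs : s ∈ HH) :
    HasProd (fun v : HeightOneSpectrum (𝓞 K) => EveryArtinTwoExtensions.factor ρ v (w v) s)
      (R s) := by
  choose φ hφ using fun v => Pool.Agent.K7.H70.SE.exists_frob (K := K) (w v)
  have hfac : (fun v : HeightOneSpectrum (𝓞 K) => EveryArtinTwoExtensions.factor ρ v (w v) s) = _ :=
    funext fun v => EveryArtinTwoExtensions.factor_eq ρ (congrArg HeightOneSpectrum.asIdeal (hw v))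
      (hφ v) hK s
  have hq : ∀ v, Nat.card (𝓞 K ⧸ (w v).asIdeal.under (𝓞 K)) = nK (und0 K (w v)) := fun v =>
    card_nm (und0 K (w v))
  have hφ' : ∀ v, ∀ x : 𝓞 F, φ v • x - x ^ nK (und0 K (w v)) ∈ (w v).asIdeal := fun v x => by
    rw [← hq v]
    exact hφ v x
  have hI : ∀ v, ∀ i ∈ (w v).asIdeal.inertia Gal(F/K),
      (φ v)⁻¹ * i * φ v ∈ (w v).asIdeal.inertia Gal(F/K) := by
    intro v
    have := (w v).isPrime
    exact frob_conj (nK_ne _) (hφ' v)
  rw [hfac]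
  have hloc : ∀ v, ∃ Lg : ℂ, HasSum (fun j : ℕ =>
      av K (fun g => LinearMap.trace ℂ V (ρ g⁻¹)) (w v) (j + 1) * lt hK (v, j) s) Lg ∧
      Complex.exp Lg = (LinearMap.det ((1 : Module.End ℂ V) -
      ((aV (E0 K) v : ℂ) * (nK v : ℂ) ^ (-s)) • avg ρ ((w v).asIdeal.inertia Gal(F/K)) (φ v) +
      ((eV (E0 K) v : ℂ) * ((nK v : ℂ) ^ (-s)) ^ 2) •
        avg ρ ((w v).asIdeal.inertia Gal(F/K)) (φ v) ^ 2))⁻¹ := by
    intro v
    obtain ⟨Lg, hL1, hL2⟩ := loc_exp hK v hs (avg ρ ((w v).asIdeal.inertia Gal(F/K)) (φ v))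
      (N := orderOf (φ v)) (orderOf_pos _) (avg_fin ρ _ (hI v))
    exact ⟨Lg, hasSum_congr' hL1 fun j => by rw [av_trace ρ (hφ' v)], hL2⟩
  choose Lg hL he using hloc
  have h3 := ls_prod hK
    (c := fun p => av K (fun g => LinearMap.trace ℂ V (ρ g⁻¹)) (w p.1) (p.2 + 1))
    (fun p => av_norm _ _ _) hs hL
  rw [funext he] at h3
  rw [hR.eq s hs]
  exact h3

end

end Pool.Agent.H508.D
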