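import Pool.Graph.R_seed8.W401.Cheb.Main

/-!
# A place of the complex numbers at which an automorphism is a Frobenius element
-/

set_option autoImplicit false

open NumberField

namespace Pool.Agent.H508.D

open Pool.Agent.W401.Cheb

/-- an automorphism of the complex numbers over the rational numbers -/
noncomputable def ratE (σ : ℂ ≃+* ℂ) : ℂ ≃ₐ[ℚ] ℂ :=
  AlgEquiv.ofRingEquiv (f := σ) (fun r => by
    rw [eq_ratCast, map_ratCast])

lemma ratE_apply (σ : ℂ ≃+* ℂ) (x : ℂ) : ratE σ x = σ x := rfl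

/-- **An automorphism of the complex numbers is, on a given number field, a Frobenius element at a
place of the complex numbers.** -/
theorem exists_val (σ : ℂ ≃+* ℂ) (K₀ : IntermediateField ℚ ℂ) [FiniteDimensional ℚ K₀] (N : ℕ) :
    ∃ p : ℕ, p.Prime ∧ N < p ∧ ∃ (Γ : Type) (_ : LinearOrderedCommGroupWithZero Γ)
      (v : Valuation ℂ Γ), v (p : ℂ) < 1 ∧ ∀ x ∈ K₀, IsIntegral ℤ x → v (σ x - x ^ p) < 1 := by
  let 𝔽 : IntermediateField ℚ ℂ := IntermediateField.normalClosure ℚ K₀ ℂ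
  have hle : K₀ ≤ 𝔽 := IntermediateField.le_normalClosure K₀
  have hnc : IsNormalClosure ℚ K₀ 𝔽 := Algebra.IsAlgebraic.isNormalClosure_normalClosure
    fun x => IsAlgClosed.splits _
  have hn : Normal ℚ 𝔽 := IsNormalClosure.normal (K := K₀)
  have hfd : FiniteDimensional ℚ 𝔽 := inferInstance
  have hnf : NumberField 𝔽 := ⟨⟩
  have hgal : IsGalois ℚ 𝔽 := ⟨⟩
  let g : Gal(𝔽/ℚ) := AlgEquiv.restrictNormal (ratE σ) 𝔽
  have hg : ∀ x : 𝔽, ((g x : 𝔽) : ℂ) = σ x := fun x =>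
    AlgEquiv.restrictNormal_commutes (ratE σ) 𝔽 x
  obtain ⟨p, ⟨hp, hx⟩, hpN⟩ := (infinite_frob 𝔽 g).exists_gt N
  have : Fact p.Prime := ⟨hp⟩
  unfold xp at hx
  rw [dif_pos hp] at hx
  obtain ⟨⟨φ, hφ⟩⟩ := (Nat.card_ne_zero.1 hx).1
  let f : 𝓞 𝔽 →+* ℂ := (algebraMap 𝔽 ℂ).comp (algebraMap (𝓞 𝔽) 𝔽)
  have hf : Function.Injective f :=
    (algebraMap 𝔽 ℂ).injective.comp RingOfIntegers.coe_injective
  let e : 𝓞 𝔽 ≃+* f.range := RingEquiv.ofBijective f.rangeRestrict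
    ⟨fun a b hab => hf (congrArg (fun z : f.range => (z : ℂ)) hab), f.rangeRestrict_surjective⟩
  let I : Ideal f.range := (RingHom.ker φ).comap (e.symm : f.range →+* 𝓞 𝔽)
  have hI : I ≠ ⊤ := by
    intro h
    have h1 : (1 : f.range) ∈ I := by rw [h]; trivial
    rw [Ideal.mem_comap, map_one, RingHom.mem_ker, map_one] at h1
    exact one_ne_zero h1
  obtain ⟨B, hB1, hB2⟩ := I.image_subset_nonunits_valuationSubring hI
  have key : ∀ y : 𝓞 𝔽, φ y = 0 → B.valuation (f y) < 1 := by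
    intro y hy
    have h1 : f y ∈ B.nonunits := by
      refine hB2 ⟨e y, ?_, rfl⟩
      show e.symm (e y) ∈ RingHom.ker φ
      rw [RingEquiv.symm_apply_apply]
      exact hy
    exact h1
  refine ⟨p, hp, hpN, B.ValueGroup, inferInstance, B.valuation, ?_, fun x hx hxi => ?_⟩
  · have h1 := key (p : 𝓞 𝔽) (by rw [map_natCast]; exact CharP.cast_eq_zero _ p)
    rwa [map_natCast] at h1
  · let y0 : 𝔽 := ⟨x, hle hx⟩
    have hy0 : IsIntegral ℤ y0 := by
      have h1 : IsIntegral ℤ (algebraMap 𝔽 ℂ y0) := hxi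
      exact (isIntegral_algebraMap_iff (algebraMap 𝔽 ℂ).injective).1 h1
    let y : 𝓞 𝔽 := ⟨y0, hy0⟩
    have h1 := key (g • y - y ^ p) (by rw [map_sub, hφ, map_pow, sub_self])
    rw [map_sub, map_pow] at h1
    have e1 : f (g • y) = σ x := hg y0
    have e2 : f y = x := rfl
    rwa [e1, e2] at h1

end Pool.Agent.H508.D
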