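import Pool.Agent.H508.D.C2
import Pool.Graph.R_pool_sql_team_seeded_35f281b4.K7.H70.AW.FinE

/-!
# The value at one of the function of a character
-/

set_option autoImplicit false
set_option linter.unusedSectionVars false

open Complex NumberField IsDedekindDomain
open scoped nonZeroDivisors

namespace Pool.Agent.H508.D

open Pool.Agent.K7.H70.EQ (HH)
open Pool.Agent.K7.H70.SE (bd_summable q_norm y_le mem_HH_iff)
open Pool.Agent.K7.H70.AR (Unr)
open Pool.Agent.K7.H56 (Unr2 VV)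
open Pool.Agent.K7.H56.P (IH core_gen2 gI_muly gI_topy)
open Pool.Agent.R430 (XX XX_mul XX_prime XX_phi PhiM frP frP_spec frob_all gI PN PN_sq PN_mem
  prime_cop_iff X0_key)
open Pool.Agent.Y696 (nK und0 ScN mem_ScN)
open Pool.Agent.Y688 (NI euler RR HL w)
open Pool.Agent.K7.H70.AW
open Pool.Agent.K7.H70.AW.Ana (XI XI_pos XI_neg XI_ih VV_prody tt tt_bd tt_good av_eq z_le lp_exp Ine)
open scoped Classical

/-- the value at one -/
noncomputable def vv (Λ : ℂ → ℂ) : ℂ := if h : ∃ R, Ct R Λ then h.choose 1 else 0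

lemma vv_eq {R Λ : ℂ → ℂ} (h : Ct R Λ) : vv Λ = R 1 := by
  have h' : ∃ R, Ct R Λ := ⟨R, h⟩
  unfold vv
  rw [dif_pos h']
  exact NV.Ct.eq_one h'.choose_spec h

/-- the conjugate character -/
noncomputable def sX {G : Type} [Group G] (σ : ℂ ≃+* ℂ) (X : G →* ℂˣ) : G →* ℂˣ :=
  (Units.map ((σ : ℂ →+* ℂ) : ℂ →* ℂ)).comp X

lemma sX_apply {G : Type} [Group G] (σ : ℂ ≃+* ℂ) (X : G →* ℂˣ) (g : G) :
    ((sX σ X g : ℂˣ) : ℂ) = σ ((X g : ℂˣ) : ℂ) := rfl

lemma sX_one {G : Type} [Group G] (σ : ℂ ≃+* ℂ) (X : G →* ℂˣ) (g : G) :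
    sX σ X g = 1 ↔ X g = 1 := by
  rw [← Units.val_inj, sX_apply, Units.val_one, map_eq_one_iff σ σ.injective, ← Units.val_one,
    Units.val_inj]

section
variable {M F : Type} [Field M] [NumberField M] [Field F] [NumberField F] [Algebra M F]
  [IsGalois M F]

lemma XX_sX (σ : ℂ ≃+* ℂ) (X : Gal(F/M) →* ℂˣ) (I : Ideal (𝓞 M)) :
    XX (sX σ X) I = σ (XX X I) := by
  unfold XX
  rw [map_multiset_prod, Multiset.map_map]
  rfl

lemma XI_sX (σ : ℂ ≃+* ℂ) (n : ℕ) (X : Gal(F/M) →* ℂˣ) (I : Ideal (𝓞 M)) :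
    XI n (sX σ X) I = σ (XI n X I) := by
  by_cases h : IsCoprime I (Ideal.span {(n : 𝓞 M)})
  · rw [XI_pos _ h, XI_pos _ h, XX_sX]
  · rw [XI_neg _ h, XI_neg _ h, map_zero]

lemma tt_sX (σ : ℂ ≃+* ℂ) (X : Gal(F/M) →* ℂˣ) (u : HeightOneSpectrum (𝓞 M))
    (w : HeightOneSpectrum (𝓞 F)) : tt (sX σ X) u w = σ (tt X u w) := by
  unfold tt
  simp only [sX_one]
  split_ifs
  · rw [sX_apply]
  · rw [map_zero]

variable {ι : RR →+* 𝓞 M}

/-- the Euler factors at the bad primes -/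
noncomputable def EB (ι : RR →+* 𝓞 M) {n : ℕ} (hn0 : (n : 𝓞 M) ≠ 0) (X : Gal(F/M) →* ℂˣ)
    (wf : HeightOneSpectrum (𝓞 M) → HeightOneSpectrum (𝓞 F)) (s : ℂ) : ℂ :=
  ∏ v ∈ ScN hn0, (1 - tt X v (wf v) * PN ι v.asIdeal * (nK v : ℂ) ^ (-s))⁻¹

lemma EB_sX {n : ℕ} (hn0 : (n : 𝓞 M) ≠ 0) (X : Gal(F/M) →* ℂˣ)
    (wf : HeightOneSpectrum (𝓞 M) → HeightOneSpectrum (𝓞 F)) {σ : ℂ ≃+* ℂ} (hw : σ w = w) :
    EB ι hn0 (sX σ X) wf 1 = σ (EB ι hn0 X wf 1) := by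
  unfold EB
  rw [map_prod]
  refine Finset.prod_congr rfl fun v _ => ?_
  obtain ⟨b, hb⟩ := PN_mem (ι := ι) v.asIdeal
  rw [Complex.cpow_neg_one, map_inv₀, map_sub, map_one, map_mul, map_mul, map_inv₀, map_natCast,
    tt_sX, hb, fix_RR hw b]

/-- the function of a character in terms of the function for the ideals prime to `n` -/
theorem ana_ct (hcomm : ∀ σ τ : Gal(F/M), σ * τ = τ * σ) {n : ℕ} (hn : 1 < n) (hn0 : (n : 𝓞 M) ≠ 0)
    (hun : Unr M F n) (X : Gal(F/M) →* ℂˣ)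
    (hX : ∀ α : 𝓞 M, α ≠ 0 → (n : 𝓞 M) ∣ α - 1 → XX X (Ideal.span {α}) = 1)
    {wf : HeightOneSpectrum (𝓞 M) → HeightOneSpectrum (𝓞 F)} (hwf : ∀ u, und0 M (wf u) = u)
    {f : ℂ → ℂ} (hf : VV ι (XI n X) f) :
    Ct (fun s => EB ι hn0 X wf s * f s) (LL M (PW ι) wf (fun g => ((X g : ℂˣ) : ℂ))) := by
  have hIH := XI_ih hcomm hn X hX
  set t : HeightOneSpectrum (𝓞 M) → ℂ := fun v => tt X v (wf v) with htd
  have ht : ∀ v, ‖t v‖ ≤ 1 := fun v => tt_bd X v (wf v)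
  have hN2 : ∀ v : HeightOneSpectrum (𝓞 M), (2 : ℝ) ≤ nK v := fun v => by
    exact_mod_cast Pool.Agent.H921R2.TatePole.two_le_nm v
  have hdif : ∀ v : HeightOneSpectrum (𝓞 M),
      Differentiable ℂ (fun s : ℂ => 1 - t v * PN ι v.asIdeal * (nK v : ℂ) ^ (-s)) := by
    intro v
    refine (differentiable_const _).sub (Differentiable.const_mul ?_ _)
    refine (differentiable_id.neg).const_cpow (Or.inl ?_)
    intro h0
    have h1 := hN2 v
    have h2 : (nK v : ℝ) = 0 := by exact_mod_cast h0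
    linarith
  have hone : ∀ v : HeightOneSpectrum (𝓞 M),
      1 - t v * PN ι v.asIdeal * (nK v : ℂ) ^ (-(1 : ℂ)) ≠ 0 := by
    intro v h0
    have h8 : t v * PN ι v.asIdeal * (nK v : ℂ) ^ (-(1 : ℂ)) = 1 := by linear_combination -h0
    have h2 := z_le (ι := ι) v (le_refl (1 : ℂ).re)
    have h3 : ‖t v * PN ι v.asIdeal * (nK v : ℂ) ^ (-(1 : ℂ))‖ < 1 := by
      rw [mul_assoc, norm_mul, norm_mul]
      calc ‖t v‖ * (‖PN ι v.asIdeal‖ * ‖(nK v : ℂ) ^ (-(1 : ℂ))‖) ≤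
            1 * (nK v : ℝ) ^ (-((1 : ℂ).re - 1 / 2)) :=
            mul_le_mul (ht v) h2 (by positivity) zero_le_one
        _ < 1 := by
            rw [one_mul]
            refine Real.rpow_lt_one_of_one_lt_of_neg (by linarith [hN2 v]) ?_
            rw [Complex.one_re]
            norm_num
    rw [h8, norm_one] at h3
    exact lt_irrefl _ h3
  refine ⟨?_, ?_, ?_⟩
  · intro z hz
    refine MeromorphicAt.mul ?_ (hf.mero z hz)
    refine MeromorphicAt.fun_prod fun v _ => ?_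
    exact ((hdif v).analyticAt z).meromorphicAt.inv
  · refine AnalyticAt.mul ?_ hf.an
    refine Finset.analyticAt_fun_prod _ fun v _ => ?_
    exact ((hdif v).analyticAt 1).inv (hone v)
  · intro s hs
    have hs' := mem_HH_iff.1 hs
    have h1 := VV_prody hIH hf hs'
    have h5 : HasProd (fun v : HeightOneSpectrum (𝓞 M) => if v ∈ ScN hn0 then
        (1 - t v * PN ι v.asIdeal * (nK v : ℂ) ^ (-s))⁻¹ else 1)
        (∏ v ∈ ScN hn0, (1 - t v * PN ι v.asIdeal * (nK v : ℂ) ^ (-s))⁻¹) := by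
      have h6 := hasProd_prod_of_ne_finset_one (L := .unconditional _) (s := ScN hn0)
        (f := fun v : HeightOneSpectrum (𝓞 M) => if v ∈ ScN hn0 then
          (1 - t v * PN ι v.asIdeal * (nK v : ℂ) ^ (-s))⁻¹ else 1) (fun v hv => if_neg hv)
      rw [Finset.prod_congr rfl (fun v hv => if_pos hv)] at h6
      exact h6
    have h2 := (h5.mul h1).congr_fun (g := fun v : HeightOneSpectrum (𝓞 M) =>
      (1 - t v * PN ι v.asIdeal * (nK v : ℂ) ^ (-s))⁻¹) fun v => by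
        by_cases hv : v ∈ ScN hn0
        · rw [if_pos hv]
          have h6 : gI ι (XI n X) s v.asIdeal = 0 := by
            unfold gI
            rw [XI_neg X, zero_mul, zero_mul]
            rw [prime_cop_iff, not_not]
            exact (mem_ScN hn0).1 hv
          rw [h6, sub_zero, inv_one, mul_one]
        · rw [if_neg hv, one_mul]
          have h6 : t v = XI n X v.asIdeal :=
            tt_good hun X (hwf v) fun hm => hv ((mem_ScN hn0).2 hm)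
          rw [h6]
          rfl
    have h3 := h2.unique (lp_exp (ι := ι) ht hs)
    show EB ι hn0 X wf s * f s = _
    unfold EB
    rw [h3]
    congr 1
    refine tsum_congr fun p => ?_
    rw [av_eq hcomm X (wf p.1) (p.2 + 1) (Nat.succ_pos _), hwf p.1]

/-- **the values of the conjugate characters** -/
theorem eqv_ab (hcomm : ∀ σ τ : Gal(F/M), σ * τ = τ * σ) {n : ℕ} (hn : 1 < n) (hodd : Odd n)
    (hun : Unr M F n)
    (hray : ∀ X : Gal(F/M) →* ℂˣ, ∀ α : 𝓞 M, α ≠ 0 → (n : 𝓞 M) ∣ α - 1 → XX X (Ideal.span {α}) = 1)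
    {wf : HeightOneSpectrum (𝓞 M) → HeightOneSpectrum (𝓞 F)} (hwf : ∀ u, und0 M (wf u) = u)
    {r : ℕ} (hd : Module.finrank ℚ M = 2 * (r + 1)) (hU : Unr2 M) :
    ∃ n' : ℕ, Odd n' ∧ n ∣ n' ∧ 3 ∣ n' ∧ ∀ (X : Gal(F/M) →* ℂˣ) (L : PeriodPair) (Ω : ℂ), HL L Ω →
      ∀ σ : ℂ ≃+* ℂ, σ w = w → ∀ u u' : RR, (n' : RR) ∣ u * u' - 1 → Act L Ω σ n' u →
      σ (dlt ι hd * vv (LL M (PW ι) wf (fun g => ((X g : ℂˣ) : ℂ))) / Ω ^ (r + 1)) =
        XX (sX σ X) (Ideal.span {ι u'}) *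
          (dlt ι hd * vv (LL M (PW ι) wf (fun g => ((sX σ X g : ℂˣ) : ℂ))) / Ω ^ (r + 1)) := by
  obtain ⟨n', hn', hnn, h3, key⟩ := core_gen3 M ι r hd hU n hodd
  refine ⟨n', hn', hnn, h3, fun X L Ω hL σ hw u u' huu hu => ?_⟩
  have hn0 : (n : 𝓞 M) ≠ 0 := by
    rw [Nat.cast_ne_zero]
    omega
  have hI1 := XI_ih hcomm hn X (hray X)
  have hI2 := XI_ih hcomm hn (sX σ X) (hray (sX σ X))
  obtain ⟨f, f', hf, hf', -⟩ := core_gen2 M ι (r + 1) hd hU n (XI n X) (XI n (sX σ X)) hI1 hI2 hodd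
  have h1 := key _ _ hI1 hI2 f f' hf hf' L Ω hL σ hw (fun I => XI_sX σ n X I) u u' huu hu
  have hcop : IsCoprime (Ideal.span {ι u'}) (Ideal.span {(n : 𝓞 M)}) := by
    rw [Ideal.isCoprime_span_singleton_iff]
    have hc : IsCoprime (ι u') (n' : 𝓞 M) := by
      obtain ⟨k, hk⟩ := huu
      refine ⟨ι u, -ι k, ?_⟩
      have h1 := congrArg ι hk
      rw [map_sub, map_mul, map_mul, map_one, map_natCast] at h1
      linear_combination h1
    exact hc.of_isCoprime_of_dvd_right (Nat.cast_dvd_cast hnn)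
  rw [XI_pos _ hcop] at h1
  rw [vv_eq (ana_ct hcomm hn hn0 hun X (hray X) hwf hf),
    vv_eq (ana_ct hcomm hn hn0 hun (sX σ X) (hray _) hwf hf')]
  have e1 : dlt ι hd * (EB ι hn0 X wf 1 * f 1) / Ω ^ (r + 1) =
      EB ι hn0 X wf 1 * (dlt ι hd * f 1 / Ω ^ (r + 1)) := by ring
  rw [e1, map_mul, h1, ← EB_sX hn0 X wf hw]
  ring

end

end Pool.Agent.H508.D
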