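import Pool.Agent.H508.D.X1

/-!
# The value at one for an arbitrary character
-/

set_option autoImplicit false
set_option linter.unusedSectionVars false

open Complex NumberField IsDedekindDomain
open scoped nonZeroDivisors

namespace Pool.Agent.H508.D

open Pool.Agent.K7.H70.EQ (HH)
open Pool.Agent.K7.H70.SE (GoodG und0_tower ps)
open Pool.Agent.K7.H70.AR (Unr frP_uniq)
open Pool.Agent.K7.H56 (Unr2 VV)
open Pool.Agent.K7.H56.M (unr2_down)
open Pool.Agent.K7.H56.P (IH core_gen2)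
open Pool.Agent.K7.H56.U (even_deg)
open Pool.Agent.R430 (XX XX_mul XX_prime frP PN)
open Pool.Agent.Y696 (nK und0)
open Pool.Agent.Y688 (RR HL w)
open Pool.Agent.K7.H70.TW (Fam)
open Pool.Agent.K7.H70.AW
open Pool.Agent.K7.H70.AW.Ana (XI_ih not_unit)
open Pool.Agent.K7.H70.AW.Inf (res res_smul mem_und)
open IntermediateField (fixedField subgroupEquivAlgEquiv)
open scoped Classical

lemma sq_of_ι {K : Type} [Field K] [NumberField K] (ι : RR →+* 𝓞 K) : ∃ a : K, a ^ 2 = -3 := by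
  refine ⟨((ι Pool.Agent.Y688.lam : 𝓞 K) : K), ?_⟩
  have h1 : Pool.Agent.Y688.lam ^ 2 = -3 := by
    rw [pow_two, Pool.Agent.Y688.lam_sq]
  have h2 := congrArg (fun z : RR => ((ι z : 𝓞 K) : K)) h1
  simp only [map_pow, map_neg, map_ofNat] at h2
  exact_mod_cast h2

section
variable {K F : Type} [Field K] [NumberField K] [Field F] [NumberField F] [Algebra K F]
  [IsGalois K F]

/-- a character is inflated from an abelian extension -/
lemma exists_ab (X : Gal(F/K) →* ℂˣ) : ∃ (F₀ : IntermediateField K F) (_ : IsGalois K F₀)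
    (X₀ : Gal(F₀/K) →* ℂˣ), (∀ g : Gal(F/K), X₀ (AlgEquiv.restrictNormalHom F₀ g) = X g) ∧
      ∀ σ τ : Gal(F₀/K), σ * τ = τ * σ := by
  set F₀ : IntermediateField K F := fixedField X.ker with hF₀
  have hnor : X.ker.Normal := inferInstance
  have hgal : IsGalois K F₀ := IsGalois.of_fixedField_normal_subgroup X.ker
  have hker : (AlgEquiv.restrictNormalHom (F := K) (K₁ := F) F₀).ker = X.ker := by
    rw [IntermediateField.restrictNormalHom_ker, hF₀, IntermediateField.fixingSubgroup_fixedField]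
  have hsurj : Function.Surjective (AlgEquiv.restrictNormalHom (F := K) (K₁ := F) F₀) :=
    AlgEquiv.restrictNormalHom_surjective F
  let X₀ : Gal(F₀/K) →* ℂˣ := (AlgEquiv.restrictNormalHom (F := K) (K₁ := F) F₀).liftOfSurjective
    hsurj ⟨X, hker.le⟩
  have hX₀ : ∀ g : Gal(F/K), X₀ (AlgEquiv.restrictNormalHom F₀ g) = X g := fun g =>
    MonoidHom.liftOfRightInverse_comp_apply _ _ _ ⟨X, hker.le⟩ g
  refine ⟨F₀, hgal, X₀, hX₀, fun σ τ => ?_⟩
  obtain ⟨g, rfl⟩ := hsurj σ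
  obtain ⟨h, rfl⟩ := hsurj τ
  have h1 : g * h * (h * g)⁻¹ ∈ X.ker := by
    rw [MonoidHom.mem_ker, map_mul, map_mul, map_inv, map_mul, mul_comm (X h), mul_inv_cancel]
  rw [← hker, MonoidHom.mem_ker, map_mul, map_inv, mul_inv_eq_one, map_mul, map_mul] at h1
  exact h1

variable {wf : HeightOneSpectrum (𝓞 K) → HeightOneSpectrum (𝓞 F)}

variable {L : Type} [Field L] [NumberField L] [Algebra F L]

lemma ex_PW (hf : Fam L) (hr : Rays L) (ι : RR →+* 𝓞 K)
    (hwf : ∀ v, und0 K (wf v) = v) (X : Gal(F/K) →* ℂˣ) :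
    ∃ R : ℂ → ℂ, Ct R (LL K (PW ι) wf (fun g => ((X g : ℂˣ) : ℂ))) := by
  obtain ⟨F₀, hgal, X₀, hX₀, hcomm⟩ := exists_ab X
  let _ : Algebra F₀ L := ((algebraMap F L).comp (algebraMap F₀ F)).toAlgebra
  let _ : Algebra K L := ((algebraMap F L).comp (algebraMap K F)).toAlgebra
  have hU : Unr2 K := unr2_down (F := K) (K := L) hf.two
  obtain ⟨n, hn, hno, hun, hX⟩ := hr K F₀ hcomm (sq_of_ι ι)
  have hwf₀ : ∀ v, und0 K (und0 F₀ (wf v)) = v := fun v => by rw [und0_tower, hwf]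
  obtain ⟨R, hR⟩ := ANA.t_ana K F₀ ι hU hcomm n hn hno hun X₀ (hX X₀) (fun v => und0 F₀ (wf v)) hwf₀
  refine ⟨R, Ct.congr hR fun s _ => ?_⟩
  have h1 := LL_inf (wf := wf) Inf.t_inf (PW ι) (fun v => rfl) (fun g => ((X₀ g : ℂˣ) : ℂ)) s
  simp only [hX₀] at h1
  exact h1

/-- **the function of a character, for the Hecke character** -/
theorem ct_PW (hf : Fam L) (hr : Rays L) (ι : RR →+* 𝓞 K)
    (hwf : ∀ v, und0 K (wf v) = v) (X : Gal(F/K) →* ℂˣ) :
    ∃ R : ℂ → ℂ, Ct R (LL K (PW ι) wf (fun g => ((X g : ℂˣ) : ℂ))) ∧ R 1 ≠ 0 := by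
  let _ : Algebra K L := ((algebraMap F L).comp (algebraMap K F)).toAlgebra
  have hK : GoodG K := hf.good K
  obtain ⟨R₁, h₁⟩ := ex_PW (wf := wf) hf hr ι hwf X
  obtain ⟨R₂, h₂⟩ := ex_PW (wf := wf) hf hr ι hwf X⁻¹
  obtain ⟨R, hR, hR1⟩ := ct_gen (wf := wf) ANA.t_ana (NV.t_nv Sum.t_sum) Inf.t_inf hf hr
    (sq_of_ι ι) hK hwf X
  refine ⟨R₁, h₁, fun h0 => hR1 ?_⟩
  have h3 : Ct (fun s => R₁ s * (starRingEnd ℂ) (R₂ ((starRingEnd ℂ) s)))
      (LL K (ps hK) wf (fun g => ((X g : ℂˣ) : ℂ))) := by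
    refine (h₁.mul h₂.conj).congr fun s hs => ?_
    rw [LL_ps hK ι _ hs, LL_conj]
    congr 3
    funext g
    rw [unit_conj, MonoidHom.inv_apply, MonoidHom.inv_apply, inv_inv]
  have h4 := NV.Ct.eq_one hR h3
  rw [h4]
  show R₁ 1 * _ = 0
  rw [h0, zero_mul]

lemma vv_PW (hf : Fam L) (hr : Rays L) (ι : RR →+* 𝓞 K)
    (hwf : ∀ v, und0 K (wf v) = v) (X : Gal(F/K) →* ℂˣ) :
    vv (LL K (PW ι) wf (fun g => ((X g : ℂˣ) : ℂ))) ≠ 0 := by
  obtain ⟨R, h, h0⟩ := ct_PW (wf := wf) hf hr ι hwf X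
  rw [vv_eq h]
  exact h0

end

section
variable {K F : Type} [Field K] [NumberField K] [Field F] [NumberField F] [Algebra K F]
  [IsGalois K F]

lemma XX_prod (X : Gal(F/K) →* ℂˣ) (S : Finset (HeightOneSpectrum (𝓞 K))) :
    (∏ v ∈ S, v.asIdeal) ≠ (0 : Ideal (𝓞 K)) ∧
    XX X (∏ v ∈ S, v.asIdeal) = ∏ v ∈ S, ((X (frP F v.asIdeal) : ℂˣ) : ℂ) := by
  induction S using Finset.induction_on with
  | empty =>
    rw [Finset.prod_empty, Finset.prod_empty]
    exact ⟨one_ne_zero, Pool.Agent.K7.H70.AR.XX_one X⟩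
  | insert v S hv ih =>
    rw [Finset.prod_insert hv, Finset.prod_insert hv]
    exact ⟨mul_ne_zero v.prime.ne_zero ih.1, by
      rw [XX_mul X v.prime.ne_zero ih.1, XX_prime X v.prime, ih.2]⟩

variable {wf : HeightOneSpectrum (𝓞 K) → HeightOneSpectrum (𝓞 F)}
variable {L : Type} [Field L] [NumberField L] [Algebra F L]

/-- **The values at one of the functions of the conjugate characters.** -/
theorem eqv_gen (hf : Fam L) (hr : Rays L) (ι : RR →+* 𝓞 K)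
    (hwf : ∀ v, und0 K (wf v) = v) (X : Gal(F/K) →* ℂˣ) {r : ℕ}
    (hd : Module.finrank ℚ K = 2 * (r + 1)) :
    ∃ n' : ℕ, Odd n' ∧ 3 ∣ n' ∧ ∀ (L' : PeriodPair) (Ω : ℂ), HL L' Ω → ∀ σ : ℂ ≃+* ℂ, σ w = w →
      ∀ u π : RR, Act L' Ω σ n' u → (n' : RR) ∣ u - π → IsCoprime π (n' : RR) →
      ∀ S : Finset (HeightOneSpectrum (𝓞 K)), Ideal.span {ι π} = ∏ v ∈ S, v.asIdeal →
      ∀ φ : HeightOneSpectrum (𝓞 K) → Gal(F/K),
        (∀ v, ∀ x : 𝓞 F, φ v • x - x ^ nK v ∈ (wf v).asIdeal) →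
      σ (dlt ι hd * vv (LL K (PW ι) wf (fun g => ((X g : ℂˣ) : ℂ))) / Ω ^ (r + 1)) *
        ∏ v ∈ S, σ ((X (φ v) : ℂˣ) : ℂ) =
          dlt ι hd * vv (LL K (PW ι) wf (fun g => ((sX σ X g : ℂˣ) : ℂ))) / Ω ^ (r + 1) := by
  obtain ⟨F₀, hgal, X₀, hX₀, hcomm⟩ := exists_ab X
  let _ : Algebra F₀ L := ((algebraMap F L).comp (algebraMap F₀ F)).toAlgebra
  let _ : Algebra K L := ((algebraMap F L).comp (algebraMap K F)).toAlgebra
  have hU : Unr2 K := unr2_down (F := K) (K := L) hf.two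
  obtain ⟨n, hn, hno, hun, hX⟩ := hr K F₀ hcomm (sq_of_ι ι)
  have hwf₀ : ∀ v, und0 K (und0 F₀ (wf v)) = v := fun v => by rw [und0_tower, hwf]
  obtain ⟨n', hn', hnn, h3, key⟩ := eqv_ab hcomm hn hno hun hX hwf₀ (ι := ι) hd hU
  refine ⟨n', hn', h3, fun L' Ω hL σ hw u π hu huπ hcop S hS φ hφ => ?_⟩
  obtain ⟨a, b, hab⟩ : IsCoprime u (n' : RR) := by
    obtain ⟨k, hk⟩ := huπ
    have e : u = π + (n' : RR) * k := by linear_combination hk
    rw [e]
    exact (IsCoprime.add_mul_left_left_iff).2 hcop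
  have huu : (n' : RR) ∣ u * a - 1 := ⟨-b, by linear_combination hab⟩
  have h1 := key X₀ L' Ω hL σ hw u a huu hu
  have e1 : ∀ s, LL K (PW ι) (fun v => und0 F₀ (wf v)) (fun g => ((X₀ g : ℂˣ) : ℂ)) s =
      LL K (PW ι) wf (fun g => ((X g : ℂˣ) : ℂ)) s := fun s => by
    have h1 := LL_inf (wf := wf) Inf.t_inf (PW ι) (fun v => rfl) (fun g => ((X₀ g : ℂˣ) : ℂ)) s
    simp only [hX₀] at h1
    exact h1.symm
  have e2 : ∀ s, LL K (PW ι) (fun v => und0 F₀ (wf v)) (fun g => ((sX σ X₀ g : ℂˣ) : ℂ)) s =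
      LL K (PW ι) wf (fun g => ((sX σ X g : ℂˣ) : ℂ)) s := fun s => by
    have h1 := LL_inf (wf := wf) Inf.t_inf (PW ι) (fun v => rfl)
      (fun g => ((sX σ X₀ g : ℂˣ) : ℂ)) s
    simp only [sX_apply, hX₀] at h1
    exact h1.symm
  rw [funext e1, funext e2] at h1
  -- the class of `a π`
  have hdvd : (n : 𝓞 K) ∣ ι (a * π) - 1 := by
    have h2 : (n' : RR) ∣ a * π - 1 := by
      obtain ⟨k, hk⟩ := huπ
      obtain ⟨k', hk'⟩ := huu
      exact ⟨k' - a * k, by linear_combination hk' - a * hk⟩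
    have h3 := map_dvd ι h2
    rw [map_natCast, map_sub, map_one] at h3
    exact (Nat.cast_dvd_cast hnn).trans h3
  have hne : ι (a * π) ≠ 0 := by
    intro h0
    rw [h0, zero_sub, dvd_neg] at hdvd
    exact not_unit hn (isUnit_of_dvd_one hdvd)
  have hray := hX (sX σ X₀) _ hne hdvd
  rw [map_mul] at hne
  have sp : ∀ γ : 𝓞 K, γ ≠ 0 → (Ideal.span {γ} : Ideal (𝓞 K)) ≠ 0 := by
    intro γ hγ
    rw [Ideal.zero_eq_bot, Ne, Ideal.span_singleton_eq_bot]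
    exact hγ
  rw [map_mul, ← Ideal.span_singleton_mul_span_singleton, XX_mul _ (sp _ (left_ne_zero_of_mul hne))
    (sp _ (right_ne_zero_of_mul hne))] at hray
  -- the Frobenius elements
  have hfr : XX (sX σ X₀) (Ideal.span {ι π}) = ∏ v ∈ S, σ ((X (φ v) : ℂˣ) : ℂ) := by
    rw [hS, (XX_prod (sX σ X₀) S).2]
    refine Finset.prod_congr rfl fun v hv => ?_
    rw [sX_apply]
    have hnv : (n : 𝓞 K) ∉ v.asIdeal := by
      intro hnv
      have hπv : ι π ∈ v.asIdeal := by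
        have h2 : v.asIdeal ∣ Ideal.span {ι π} := by
          rw [hS]
          exact Finset.dvd_prod_of_mem _ hv
        exact (Ideal.span_singleton_le_iff_mem _).1 (Ideal.le_of_dvd h2)
      obtain ⟨c, d, hcd⟩ := hcop
      have h2 := congrArg ι hcd
      rw [map_add, map_mul, map_mul, map_natCast, map_one] at h2
      apply v.isPrime.ne_top
      rw [Ideal.eq_top_iff_one, ← h2]
      obtain ⟨m, rfl⟩ := hnn
      refine v.asIdeal.add_mem (v.asIdeal.mul_mem_left _ hπv) (v.asIdeal.mul_mem_left _ ?_)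
      rw [Nat.cast_mul]
      exact v.asIdeal.mul_mem_right _ hnv
    have h4 : frP F₀ v.asIdeal = AlgEquiv.restrictNormalHom F₀ (φ v) := by
      refine frP_uniq hcomm hun (w := und0 F₀ (wf v)) (fun hw => hnv ?_) (hwf₀ v) fun x => ?_
      · have h5 := hwf₀ v
        rw [← h5]
        show algebraMap (𝓞 K) (𝓞 F₀) (n : 𝓞 K) ∈ (und0 F₀ (wf v)).asIdeal
        rw [map_natCast]
        exact hw
      · rw [mem_und, map_sub, map_pow]
        have h5 := res_smul (K := K) (F₀ := F₀) (F := F) (φ v) x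
        have h6 := hφ v (algebraMap (𝓞 F₀) (𝓞 F) x)
        rw [← h5] at h6
        exact h6
    rw [h4, hX₀]
  rw [h1, ← hfr]
  linear_combination (dlt ι hd * vv (LL K (PW ι) wf (fun g => ((sX σ X g : ℂˣ) : ℂ))) /
    Ω ^ (r + 1)) * hray

end

end Pool.Agent.H508.D
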