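import Pool.Agent.H508.D.M3

/-!
# Descent to the rational numbers
-/

set_option autoImplicit false
set_option linter.unusedSectionVars false
set_option linter.style.haveILetI false

open Complex NumberField IsDedekindDomain

namespace Pool.Agent.H508.D

open Pool.Agent.K7.H70.EQ (HH)
open Pool.Agent.K7.H70.SE (GoodG und0_tower exists_above ps rt)
open Pool.Agent.Y696 (nK und0 card_nm)
open Pool.Agent.Y688 (RR wR w HL mem_RR conj_w wR_coe)
open Pool.Agent.R430 (emb_w)
open Pool.Agent.K7.H70.AW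
open Pool.Agent.K7.H70.TW (Fam)
open IntermediateField (fixedField subgroupEquivAlgEquiv)
open scoped Classical

lemma vv_congr {Λ Λ' : ℂ → ℂ} (h : ∀ s ∈ HH, Λ s = Λ' s) : vv Λ = vv Λ' := by
  by_cases h1 : ∃ R, Ct R Λ
  · obtain ⟨R, hR⟩ := h1
    rw [vv_eq hR, vv_eq (hR.congr fun s hs => (h s hs).symm)]
  · have h2 : ¬ ∃ R, Ct R Λ' := by
      rintro ⟨R, hR⟩
      exact h1 ⟨R, hR.congr h⟩
    unfold vv
    rw [dif_neg h1, dif_neg h2]

/-- complex conjugation on the ring -/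
noncomputable def cR : RR →+* RR := (starRingEnd ℂ).restrict RR RR (by
  intro x hx
  obtain ⟨a, b, rfl⟩ := (mem_RR x).1 hx
  rw [mem_RR]
  refine ⟨a - b, -b, ?_⟩
  rw [map_add, map_mul, map_intCast, map_intCast, conj_w]
  push_cast
  ring)

lemma cR_w : cR wR = -1 - wR := by
  apply Subtype.ext
  push_cast
  rw [wR_coe]
  exact conj_w

section
variable {K : Type} [Field K] [NumberField K]

/-- the embedding of the Eisenstein integers, compatible with an embedding in the complex numbers -/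
lemma exists_iota_e (h3 : ∃ a : K, a ^ 2 = -3) (e : K →+* ℂ) :
    ∃ ι : RR →+* 𝓞 K, e ((ι wR : 𝓞 K) : K) = w := by
  obtain ⟨ι⟩ := exists_iota' h3
  rcases emb_w (ι := ι) e with h | h
  · exact ⟨ι, h⟩
  · refine ⟨ι.comp cR, ?_⟩
    have h1 : ((ι (cR wR) : 𝓞 K) : K) = -1 - ((ι wR : 𝓞 K) : K) := by
      rw [cR_w, map_sub, map_neg, map_one]
      push_cast
      rfl
    show e ((ι (cR wR) : 𝓞 K) : K) = w
    rw [h1, map_sub, map_neg, map_one, h, conj_w]
    ring

end

/-- the square roots of `-3` are fixed -/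
lemma fix_sq {σ : ℂ ≃+* ℂ} (hw : σ w = w) {z : ℂ} (hz : z ^ 2 = -3) : σ z = z := by
  have h1 : (z - (1 + 2 * w)) * (z + (1 + 2 * w)) = 0 := by
    have := Pool.Agent.Y688.w_sq
    linear_combination hz - 4 * this
  have h2 : σ (1 + 2 * w) = 1 + 2 * w := by
    rw [map_add, map_mul, map_one, map_ofNat, hw]
  rcases mul_eq_zero.1 h1 with h3 | h3
  · rw [sub_eq_zero.1 h3, h2]
  · rw [eq_neg_of_add_eq_zero_left h3, map_neg, h2]

/-- the degree of the fixed field of a square root -/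
lemma deg_two {F : Type} [Field F] [NumberField F] [IsGalois ℚ F] {b : F} (hb : b ^ 2 = -3) :
    Module.finrank ℚ (fixedField (MulAction.stabilizer Gal(F/ℚ) b)) = 2 := by
  have hQ : ∀ x : ℚ, x ^ 2 ≠ -3 := fun x hx => by nlinarith [sq_nonneg x]
  have hb0 : b ≠ 0 := by
    rintro rfl
    rw [zero_pow two_ne_zero] at hb
    norm_num at hb
  have hg : ∀ g : Gal(F/ℚ), g b = b ∨ g b = -b := by
    intro g
    have h2 : (g b - b) * (g b + b) = 0 := by
      have h3 : g b ^ 2 = -3 := by rw [← map_pow, hb, map_neg, map_ofNat]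
      linear_combination h3 - hb
    rcases mul_eq_zero.1 h2 with h3 | h3
    · exact Or.inl (sub_eq_zero.1 h3)
    · exact Or.inr (eq_neg_of_add_eq_zero_left h3)
  obtain ⟨g, hgb⟩ : ∃ g : Gal(F/ℚ), g b = -b := by
    by_contra hcon
    push Not at hcon
    obtain ⟨q, hq⟩ := (IsGalois.mem_bot_iff_fixed (F := ℚ) (E := F) b).2
      fun g => (hg g).resolve_right (hcon g)
    apply hQ q
    apply (algebraMap ℚ F).injective
    rw [map_pow, map_neg, map_ofNat]
    have : algebraMap ℚ F q = b := hq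
    rw [this, hb]
  have horb : MulAction.orbit Gal(F/ℚ) b = {b, -b} := by
    ext x
    rw [MulAction.mem_orbit_iff, Set.mem_insert_iff, Set.mem_singleton_iff]
    constructor
    · rintro ⟨h, rfl⟩
      exact hg h
    · rintro (rfl | rfl)
      · exact ⟨1, rfl⟩
      · exact ⟨g, hgb⟩
  have hne : b ≠ -b := by
    intro h
    apply hb0
    have : (2 : F) * b = 0 := by linear_combination h
    exact (mul_eq_zero.1 this).resolve_left two_ne_zero
  have hfin : Finite (MulAction.orbit Gal(F/ℚ) b) := Set.finite_range _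
  have hft : Fintype (MulAction.orbit Gal(F/ℚ) b) := Fintype.ofFinite _
  have h1 := MulAction.card_orbit_mul_card_stabilizer_eq_card_group Gal(F/ℚ) b
  have h2 : Fintype.card (MulAction.orbit Gal(F/ℚ) b) = 2 := by
    rw [← Nat.card_eq_fintype_card, Nat.card_coe_set_eq, horb, Set.ncard_pair hne]
  rw [h2] at h1
  have h3 := deg_fixed (MulAction.stabilizer Gal(F/ℚ) b)
  rw [Nat.card_eq_fintype_card, Nat.card_eq_fintype_card, ← h1] at h3
  exact Nat.eq_of_mul_eq_mul_right Fintype.card_pos h3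

section
variable {F L : Type} [Field F] [NumberField F] [IsGalois ℚ F] [Field L] [NumberField L]
  [Algebra F L] {wf : HeightOneSpectrum (𝓞 ℚ) → HeightOneSpectrum (𝓞 F)}

/-- **The functions of the representations of the Galois group over the rational numbers**, for the
automorphisms which fix the cube roots of unity. -/
theorem main_Q (hf : Fam L) (hr : Rays L) (h3 : ∃ a : L, a ^ 2 = -3) (hQ : GoodG ℚ)
    (hwf : ∀ v, und0 ℚ (wf v) = v) {V : Type} [AddCommGroup V] [Module ℂ V]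
    [FiniteDimensional ℂ V] (ρ : Representation ℂ Gal(F/ℚ) V) :
    (∃ R : ℂ → ℂ, Ct R (LL ℚ (ps hQ) wf (fun g => LinearMap.trace ℂ V (ρ g⁻¹))) ∧ R 1 ≠ 0) ∧
    ∀ (L' : PeriodPair) (Ω : ℂ), HL L' Ω → ∀ σ : ℂ ≃+* ℂ, σ w = w → ∀ e : F →+* ℂ,
      ∀ g : Gal(F/ℚ), (∀ x, e (g x) = σ (e x)) →
      vv (LL ℚ (ps hQ) wf (fun g => σ (LinearMap.trace ℂ V (ρ g⁻¹)))) / Ω ^ Module.finrank ℂ V =
        σ (LinearMap.det (ρ g⁻¹)) *
          σ (vv (LL ℚ (ps hQ) wf (fun g => LinearMap.trace ℂ V (ρ g⁻¹))) /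
            Ω ^ Module.finrank ℂ V) := by
  obtain ⟨a, ha⟩ := h3
  obtain ⟨F', _, _, iQ, _, _, b, ht, hg', hb, hgen⟩ := exists_comp' (K := ℚ) (F := F) ha
  obtain rfl : iQ = DivisionRing.toRatAlgebra := Subsingleton.elim _ _
  choose wf₁ hwf₁ using fun v : HeightOneSpectrum (𝓞 ℚ) => exists_above (F := F') (wf v)
  have hwf₁' : ∀ v, und0 ℚ (wf₁ v) = v := fun v => by
    rw [← und0_tower (M := F) (wf₁ v), hwf₁, hwf]
  let C : Subgroup Gal(F'/ℚ) := MulAction.stabilizer Gal(F'/ℚ) b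
  have hC : ∀ σ : Gal(F'/ℚ), σ ∈ C ↔ σ b = b := fun σ => Iff.rfl
  have hdeg : Module.finrank ℚ (fixedField C) = 2 := deg_two hb
  let _ : Algebra (fixedField C) L :=
    ((algebraMap F' L).comp (algebraMap (fixedField C) F')).toAlgebra
  have hM : GoodG (fixedField C) := hf.good _
  have h3M : ∃ c : fixedField C, c ^ 2 = -3 :=
    ⟨⟨b, fun σ => (hC σ).1 σ.2⟩, Subtype.ext hb⟩
  have hns : ∀ x : ℚ, x ^ 2 ≠ -3 := fun x hx => by nlinarith [sq_nonneg x]
  have hwf' := wU_und (F := F') (fixedField C)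
  let ρ' : Representation ℂ Gal(F'/ℚ) V := ρ.comp (AlgEquiv.restrictNormalHom F)
  let ρ'' : Representation ℂ Gal(F'/fixedField C) V :=
    ρ'.comp (C.subtype.comp (subgroupEquivAlgEquiv C).symm.toMonoidHom)
  have key : ∀ (ι : RR →+* 𝓞 (fixedField C)) (θ : Gal(F/ℚ) → ℂ), (∀ g h, θ (g * h * g⁻¹) = θ h) →
      ∀ s ∈ HH, LL ℚ (ps hQ) wf θ s = LL (fixedField C) (PW ι) (wU (fixedField C) F')
        (fun g => θ (AlgEquiv.restrictNormalHom F ((subgroupEquivAlgEquiv C).symm g : Gal(F'/ℚ)))) s := by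
    intro ι θ hθ s hs
    have e1 := LL_inf (wf := wf₁) Inf.t_inf (ps hQ) hwf₁ θ s
    have e2 := SYM.t_sym (Two.t_two LOC.t_loc Sum.t_sum) ℚ F' b hb hns C hC hQ hM ι
      (fun g => θ (AlgEquiv.restrictNormalHom F g)) (fun g h => by
        rw [map_mul, map_mul, map_inv, hθ]) wf₁ hwf₁' (wU (fixedField C) F') hwf' s hs
    rw [← e1]
    exact e2
  have hcl : ∀ g h : Gal(F/ℚ), LinearMap.trace ℂ V (ρ (g * h * g⁻¹)⁻¹) =
      LinearMap.trace ℂ V (ρ h⁻¹) := fun g h => by
    have : (g * h * g⁻¹)⁻¹ = g * (h⁻¹ * g⁻¹) := by group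
    rw [this, map_mul, LinearMap.trace_mul_comm, ← map_mul, inv_mul_cancel_right]
  have hθ'' : ∀ g : Gal(F'/fixedField C), LinearMap.trace ℂ V (ρ
      ((AlgEquiv.restrictNormalHom F ((subgroupEquivAlgEquiv C).symm g : Gal(F'/ℚ)))⁻¹)) =
      LinearMap.trace ℂ V (ρ'' g⁻¹) := fun g => by
    show _ = LinearMap.trace ℂ V (ρ (AlgEquiv.restrictNormalHom F
      (((subgroupEquivAlgEquiv C).symm g⁻¹ : C) : Gal(F'/ℚ))))
    rw [map_inv (subgroupEquivAlgEquiv C).symm, Subgroup.coe_inv,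
      map_inv (AlgEquiv.restrictNormalHom (F := ℚ) (K₁ := F') F)]
  constructor
  · obtain ⟨ι⟩ := exists_iota' h3M
    obtain ⟨⟨R, hR, hR1⟩, -⟩ := main_K hf hr ι hdeg hwf' ρ''
    refine ⟨R, hR.congr fun s hs => ?_, hR1⟩
    rw [key ι _ hcl s hs]
    simp only [hθ'']
  · intro L' Ω hL σ hw e g hg
    obtain ⟨e', he'⟩ := exists_ext (F := F') e
    obtain ⟨ι, hι⟩ := exists_iota_e h3M (e'.comp (algebraMap (fixedField C) F'))
    obtain ⟨-, hmain⟩ := main_K hf hr ι hdeg hwf' ρ''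
    obtain ⟨g', hg'⟩ := exists_aut (K := ℚ) e' ((σ : ℂ →+* ℂ).comp e') fun x => by
      rw [eq_ratCast, map_ratCast, map_ratCast]
    have hg'C : g' ∈ C := by
      rw [hC]
      apply e'.injective
      rw [← hg' b]
      exact fix_sq hw (by rw [← map_pow, hb, map_neg, map_ofNat])
    have hres : AlgEquiv.restrictNormalHom F g' = g := by
      ext x
      apply e.injective
      rw [hg x, ← he', ← he']
      have h1 := AlgEquiv.restrictNormal_commutes g' F x
      have h2 : algebraMap F F' ((AlgEquiv.restrictNormalHom F g') x) = g' (algebraMap F F' x) := h1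
      rw [h2, ← hg']
      rfl
    have h1 := hmain L' Ω hL σ hw e' hι (subgroupEquivAlgEquiv C ⟨g', hg'C⟩) fun x => (hg' x).symm
    have h2 : ρ'' (subgroupEquivAlgEquiv C ⟨g', hg'C⟩)⁻¹ = ρ g⁻¹ := by
      show ρ (AlgEquiv.restrictNormalHom F
        (((subgroupEquivAlgEquiv C).symm (subgroupEquivAlgEquiv C ⟨g', hg'C⟩)⁻¹ : C) :
          Gal(F'/ℚ))) = _
      rw [map_inv (subgroupEquivAlgEquiv C).symm, MulEquiv.symm_apply_apply, Subgroup.coe_inv,
        map_inv (AlgEquiv.restrictNormalHom (F := ℚ) (K₁ := F') F), hres]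
    rw [h2] at h1
    rw [vv_congr (key ι (fun g => LinearMap.trace ℂ V (ρ g⁻¹)) hcl),
      vv_congr (key ι (fun g => σ (LinearMap.trace ℂ V (ρ g⁻¹)))
      fun g h => congrArg σ (hcl g h))]
    simp only [hθ'']
    exact h1

end

end Pool.Agent.H508.D
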