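import Pool.Agent.H508.D.Z3

/-!
# The period matrices and the descent
-/

set_option autoImplicit false
set_option linter.unusedSectionVars false
set_option linter.style.haveILetI false

open Complex NumberField IsDedekindDomain TensorProduct

namespace Pool.Agent.H508.D

open Pool.Agent.K7.H70.EQ (HH)
open Pool.Agent.K7.H70.SE (GoodG und0_tower exists_above ps rt)
open Pool.Agent.Y696 (nK und0 card_nm)
open Pool.Agent.Y688 (RR wR w HL mem_RR conj_w wR_coe)
open Pool.Agent.K7.H70.AW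
open Pool.Agent.K7.H70.TW (Fam)
open scoped Classical

section defs
variable {F : Type} [Field F] [NumberField F] {T : Type} [Field T] [NumberField T] {d : ℕ}

/-- `e ⊗ τ` -/
noncomputable def ev (e : F →+* ℂ) (τ : T →+* ℂ) : F ⊗[ℚ] T →+* ℂ :=
  (Algebra.TensorProduct.lift e.toRatAlgHom τ.toRatAlgHom (fun _ _ => Commute.all _ _) :
    F ⊗[ℚ] T →ₐ[ℚ] ℂ)

/-- the action of the Galois group on `F ⊗ T` -/
noncomputable def gal (g : Gal(F/ℚ)) : F ⊗[ℚ] T →+* F ⊗[ℚ] T :=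
  (Algebra.TensorProduct.map (g : F →ₐ[ℚ] F) (AlgHom.id ℚ T) : F ⊗[ℚ] T →ₐ[ℚ] F ⊗[ℚ] T)

/-- `T` in `F ⊗ T` -/
noncomputable def inT : T →+* F ⊗[ℚ] T :=
  (Algebra.TensorProduct.includeRight : T →ₐ[ℚ] F ⊗[ℚ] T)

lemma ev_tmul (e : F →+* ℂ) (τ : T →+* ℂ) (x : F) (t : T) :
    ev e τ (x ⊗ₜ t) = e x * τ t := by
  show (Algebra.TensorProduct.lift e.toRatAlgHom τ.toRatAlgHom (fun _ _ => Commute.all _ _))
    (x ⊗ₜ t) = _
  rw [Algebra.TensorProduct.lift_tmul]
  rfl

lemma gal_tmul (g : Gal(F/ℚ)) (x : F) (t : T) : gal g (x ⊗ₜ[ℚ] t) = (g x) ⊗ₜ t := by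
  show (Algebra.TensorProduct.map (g : F →ₐ[ℚ] F) (AlgHom.id ℚ T)) (x ⊗ₜ t) = _
  rw [Algebra.TensorProduct.map_tmul]
  rfl

lemma inT_apply (t : T) : (inT t : F ⊗[ℚ] T) = 1 ⊗ₜ t := rfl

lemma ev_inT (e : F →+* ℂ) (τ : T →+* ℂ) (t : T) : ev e τ (inT t) = τ t := by
  rw [inT_apply, ev_tmul, map_one, one_mul]

lemma ev_comp {e : F →+* ℂ} {σ : ℂ ≃+* ℂ} {g : Gal(F/ℚ)} (hg : ∀ x, e (g x) = σ (e x))
    (τ : T →+* ℂ) (x : F ⊗[ℚ] T) : σ (ev e τ x) = ev e ((σ : ℂ →+* ℂ).comp τ) (gal g x) := by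
  induction x using TensorProduct.induction_on with
  | zero => simp only [map_zero]
  | add x y hx hy => simp only [map_add, hx, hy]
  | tmul x t =>
    rw [ev_tmul, gal_tmul, ev_tmul, map_mul, hg]
    rfl

/-- a basis of the de Rham realisation -/
structure IsDR (ρ : Gal(F/ℚ) →* Matrix (Fin d) (Fin d) T)
    (B : Matrix (Fin d) (Fin d) (F ⊗[ℚ] T)) : Prop where
  unit : IsUnit B.det
  inv : ∀ g, (ρ g).map inT * B.map (gal g) = B

variable {ρ : Gal(F/ℚ) →* Matrix (Fin d) (Fin d) T} {B : Matrix (Fin d) (Fin d) (F ⊗[ℚ] T)}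

lemma map_det {R S : Type*} [CommRing R] [CommRing S] (f : R →+* S) (A : Matrix (Fin d) (Fin d) R) :
    (A.map f).det = f A.det := (f.map_det A).symm

lemma IsDR.det_gal (h : IsDR ρ B) (g : Gal(F/ℚ)) :
    gal g B.det = inT (ρ g⁻¹).det * B.det := by
  have h1 := congrArg Matrix.det (h.inv g)
  rw [Matrix.det_mul, map_det, map_det] at h1
  have h2 : (ρ g⁻¹).det * (ρ g).det = 1 := by
    rw [← Matrix.det_mul, ← map_mul, inv_mul_cancel, map_one, Matrix.det_one]
  calc gal g B.det = inT ((ρ g⁻¹).det * (ρ g).det) * gal g B.det := by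
        rw [h2, map_one, one_mul]
    _ = inT (ρ g⁻¹).det * (inT (ρ g).det * gal g B.det) := by rw [map_mul, mul_assoc]
    _ = _ := by rw [h1]

/-- the matrix at the embedding -/
noncomputable def Bt (B : Matrix (Fin d) (Fin d) (F ⊗[ℚ] T)) (e : F →+* ℂ) (τ : T →+* ℂ) :
    Matrix (Fin d) (Fin d) ℂ := B.map (ev e τ)

lemma IsDR.det_ne (h : IsDR ρ B) (e : F →+* ℂ) (τ : T →+* ℂ) : (Bt B e τ).det ≠ 0 := by
  unfold Bt
  rw [map_det]
  exact (h.unit.map (ev e τ)).ne_zero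

lemma IsDR.det_σ (h : IsDR ρ B) {e : F →+* ℂ} {σ : ℂ ≃+* ℂ} {g : Gal(F/ℚ)}
    (hg : ∀ x, e (g x) = σ (e x)) (τ : T →+* ℂ) :
    σ (Bt B e τ).det = σ (τ (ρ g⁻¹).det) * (Bt B e ((σ : ℂ →+* ℂ).comp τ)).det := by
  unfold Bt
  rw [map_det, map_det, ev_comp hg, h.det_gal, map_mul, ev_inT]
  rfl

/-- the matrix of the periods -/
noncomputable def Nm (a b : ℂ) (C : Matrix (Fin d) (Fin d) ℂ) : Matrix (Fin d) (Fin d) ℂ :=
  (a / 2) • (1 + C) + (b / 2) • (1 - C)

/-- the determinant of the matrix of the periods -/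
lemma det_Nm {a b : ℂ} {C : Matrix (Fin d) (Fin d) T} {P : Matrix (Fin d) (Fin d) T}
    {ε : Fin d → ℤ} (hε : ∀ j, ε j = 1 ∨ ε j = -1) (hP : IsUnit P.det)
    (hCP : C * P = P * Matrix.diagonal (fun j => (ε j : T))) (τ : T →+* ℂ) :
    (Nm a b (C.map τ)).det = ∏ j, (if ε j = 1 then a else b) := by
  have h1 : Nm a b (C.map τ) * P.map τ =
      P.map τ * Matrix.diagonal (fun j => if ε j = 1 then a else b) := by
    have h2 : C.map τ * P.map τ = P.map τ * Matrix.diagonal (fun j => (ε j : ℂ)) := by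
      have h3 := congrArg (fun A : Matrix (Fin d) (Fin d) T => A.map τ) hCP
      simp only [Matrix.map_mul] at h3
      rw [h3, Matrix.diagonal_map (map_zero τ)]
      congr 2
      funext j
      exact map_intCast τ _
    unfold Nm
    rw [add_mul, Matrix.smul_mul, Matrix.smul_mul, add_mul, sub_mul, one_mul, h2]
    have h4 : (Matrix.diagonal (fun j => if ε j = 1 then a else b) : Matrix (Fin d) (Fin d) ℂ) =
        (a / 2) • (1 + Matrix.diagonal (fun j => (ε j : ℂ))) +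
        (b / 2) • (1 - Matrix.diagonal (fun j => (ε j : ℂ))) := by
      rw [← Matrix.diagonal_one, Matrix.diagonal_add, Matrix.diagonal_sub]
      rw [← Matrix.diagonal_smul, ← Matrix.diagonal_smul, Matrix.diagonal_add]
      congr 1
      funext j
      simp only [Pi.smul_apply, smul_eq_mul]
      rcases hε j with h5 | h5
      · rw [if_pos h5, h5]
        push_cast
        ring
      · rw [if_neg (by rw [h5]; decide), h5]
        push_cast
        ring
    rw [h4, mul_add, Matrix.mul_smul, Matrix.mul_smul, mul_add, mul_sub, mul_one]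
  have h2 := congrArg Matrix.det h1
  rw [Matrix.det_mul, Matrix.det_mul, Matrix.det_diagonal, mul_comm] at h2
  have h3 : (P.map τ).det ≠ 0 := by
    rw [map_det]
    exact (hP.map τ).ne_zero
  exact mul_left_cancel₀ h3 h2

end defs

end Pool.Agent.H508.D
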