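import Pool.Agent.H508.D.Z4

/-!
# The period relation
-/

set_option autoImplicit false
set_option linter.unusedSectionVars false
set_option linter.style.haveILetI false

open Complex NumberField IsDedekindDomain TensorProduct

namespace Pool.Agent.H508.D

open Pool.Agent.K7.H70.EQ (HH)
open Pool.Agent.K7.H70.SE (GoodG und0_tower exists_above ps rt)
open Pool.Agent.Y696 (nK und0 card_nm)
open Pool.Agent.Y688 (RR wR w HL mem_RR conj_w wR_coe)
open Pool.Agent.K7.H70.AW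
open Pool.Agent.K7.H70.TW (Fam)
open scoped Classical

section
variable {F L : Type} [Field F] [NumberField F] [IsGalois ℚ F] [Field L] [NumberField L]
  [Algebra F L] {T : Type} [Field T] [NumberField T] {d : ℕ}

/-- the matrix `α⁺` -/
noncomputable def al (ρ : Gal(F/ℚ) →* Matrix (Fin d) (Fin d) T) (c : Gal(F/ℚ)) (a b : ℂ)
    (B : Matrix (Fin d) (Fin d) (F ⊗[ℚ] T)) (P : Matrix (Fin d) (Fin d) T)
    (e : F →+* ℂ) (τ : T →+* ℂ) : Matrix (Fin d) (Fin d) ℂ :=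
  (Bt B e τ)⁻¹ * Nm a b ((ρ c).map τ) * P.map τ

/-- **the period relation** -/
theorem period {wf : HeightOneSpectrum (𝓞 ℚ) → HeightOneSpectrum (𝓞 F)}
    (hf : Fam L) (hr : Rays L) (h3 : ∃ a : L, a ^ 2 = -3) (hQ : GoodG ℚ)
    (hwf : ∀ v, und0 ℚ (wf v) = v) (ρ : Gal(F/ℚ) →* Matrix (Fin d) (Fin d) T)
    {L' : PeriodPair} {Ω : ℂ} (hL : HL L' Ω) {a b : ℂ} (ha : a ∈ L'.lattice)
    (hb : b ∈ L'.lattice) (ha0 : a ≠ 0) (hb0 : b ≠ 0) (hac : (starRingEnd ℂ) a = a)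
    (hbc : (starRingEnd ℂ) b = -b) {e : F →+* ℂ} {c : Gal(F/ℚ)}
    (hc : ∀ x, e (c x) = (starRingEnd ℂ) (e x)) {P₀ : Matrix (Fin d) (Fin d) T} {ε : Fin d → ℤ}
    (hε : ∀ j, ε j = 1 ∨ ε j = -1) (hP₀ : IsUnit P₀.det)
    (hCP : ρ c * P₀ = P₀ * Matrix.diagonal (fun j => (ε j : T)))
    {B : Matrix (Fin d) (Fin d) (F ⊗[ℚ] T)} (hB : IsDR ρ B) {P : Matrix (Fin d) (Fin d) T}
    (hP : IsUnit P.det) :
    (∀ τ : T →+* ℂ, (al ρ c a b B P e τ).det ≠ 0) ∧
    ∃ l : T, ∀ τ : T →+* ℂ, yy hQ wf ρ τ = (al ρ c a b B P e τ).det * τ l := by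
  set D : ℂ := ∏ j, (if ε j = 1 then a else b) with hD
  have hN : ∀ τ : T →+* ℂ, (Nm a b ((ρ c).map τ)).det = D := fun τ => det_Nm hε hP₀ hCP τ
  have hD0 : D ≠ 0 := by
    rw [hD, Finset.prod_ne_zero_iff]
    intro j _
    split_ifs
    · exact ha0
    · exact hb0
  have hPτ : ∀ τ : T →+* ℂ, τ P.det ≠ 0 := fun τ => (hP.map τ).ne_zero
  have hal : ∀ τ : T →+* ℂ, (al ρ c a b B P e τ).det = (Bt B e τ).det⁻¹ * D * τ P.det := fun τ => by
    unfold al
    rw [Matrix.det_mul, Matrix.det_mul, hN, map_det, Matrix.det_nonsing_inv, Ring.inverse_eq_inv']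
  refine ⟨fun τ => ?_, ?_⟩
  · rw [hal]
    exact mul_ne_zero (mul_ne_zero (inv_ne_zero (hB.det_ne e τ)) hD0) (hPτ τ)
  -- the product of the signs
  set δ : ℤ := ∏ j, ε j with hδ
  have hδδ : δ * δ = 1 := by
    rw [hδ, ← Finset.prod_mul_distrib]
    refine Finset.prod_eq_one fun j _ => ?_
    rcases hε j with h | h <;> rw [h] <;> norm_num
  have hDc : (starRingEnd ℂ) D = δ * D := by
    rw [hD, hδ, map_prod, Int.cast_prod, ← Finset.prod_mul_distrib]
    refine Finset.prod_congr rfl fun j _ => ?_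
    rcases hε j with h | h
    · rw [if_pos h, hac, h, Int.cast_one, one_mul]
    · rw [if_neg (by rw [h]; decide), hbc, h]
      push_cast
      ring
  obtain ⟨ra, hra⟩ := (hL.mem a).1 ha
  obtain ⟨rb, hrb⟩ := (hL.mem b).1 hb
  have hDr : ∃ r : RR, D = Ω ^ d * r := by
    refine ⟨∏ j, (if ε j = 1 then ra else rb), ?_⟩
    have h1 : (((∏ j, (if ε j = 1 then ra else rb) : RR)) : ℂ) =
        ∏ j, (if ε j = 1 then (ra : ℂ) else rb) := by
      rw [show (((∏ j, (if ε j = 1 then ra else rb) : RR)) : ℂ) =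
        RR.subtype (∏ j, (if ε j = 1 then ra else rb)) from rfl, map_prod]
      refine Finset.prod_congr rfl fun j _ => ?_
      split_ifs <;> rfl
    have h2 : Ω ^ d = ∏ _j : Fin d, Ω := by rw [Finset.prod_const, Finset.card_univ, Fintype.card_fin]
    rw [h1, h2, ← Finset.prod_mul_distrib, hD]
    refine Finset.prod_congr rfl fun j _ => ?_
    split_ifs
    · exact hra
    · exact hrb
  have hcc : c⁻¹ = c := by
    have h1 : c * c = 1 := by
      ext x
      apply e.injective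
      rw [AlgEquiv.mul_apply, hc, hc, Complex.conj_conj, AlgEquiv.one_apply]
    exact inv_eq_of_mul_eq_one_left h1
  have hdet : (ρ c⁻¹).det = δ := by
    rw [hcc]
    have h1 := congrArg Matrix.det hCP
    rw [Matrix.det_mul, Matrix.det_mul, mul_comm, Matrix.det_diagonal] at h1
    rw [hδ, Int.cast_prod]
    exact mul_left_cancel₀ hP₀.ne_zero h1
  -- the descent
  obtain ⟨l, hl⟩ := descent (T := T)
    (z := fun τ => yy hQ wf ρ τ / D * (Bt B e τ).det / τ P.det) fun σ τ => by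
      obtain ⟨g, hg'⟩ := exists_aut (K := ℚ) e ((σ : ℂ →+* ℂ).comp e) fun x => by
        rw [eq_ratCast, map_ratCast, map_ratCast]
      have hg : ∀ x, e (g x) = σ (e x) := fun x => (hg' x).symm
      have h1 := yy_all (wf := wf) hf hr h3 hQ hwf ρ hL hDr hD0 hδδ hDc hc hdet σ hg τ
      have h2 := hB.det_σ hg τ
      show yy hQ wf ρ ((σ : ℂ →+* ℂ).comp τ) / D * (Bt B e ((σ : ℂ →+* ℂ).comp τ)).det /
        ((σ : ℂ →+* ℂ).comp τ) P.det = σ (yy hQ wf ρ τ / D * (Bt B e τ).det / τ P.det)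
      rw [h1, map_div₀ σ (yy hQ wf ρ τ / D * (Bt B e τ).det), map_mul σ (yy hQ wf ρ τ / D), h2]
      show _ = _ / σ (τ P.det)
      have h4 : ((σ : ℂ →+* ℂ).comp τ) P.det = σ (τ P.det) := rfl
      rw [h4]
      ring
  refine ⟨l, fun τ => ?_⟩
  rw [hal, ← hl τ]
  have h4 := hB.det_ne e τ
  have h5 := hPτ τ
  field_simp

end

end Pool.Agent.H508.D
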